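import Pool.Agent.Lib.MP_9dcf40_lc.DT.Pack

/-!
# Theorem DTR (MP_9dcf40_lc): two-sided error, statements of the modules (see note 4283)
-/

namespace SRBP

open Finset

/-- A closed deterministic system: an input which agrees, in every segment `j`, with some element of `F` on the
variables read by it in this segment, is in `F` and has the same segments. -/
structure DPC {β : Type} (n r : ℕ) (F : Finset (Fin n → Bool)) (sg : Fin r → (Fin n → Bool) → β)
    (dm : β → Finset (Fin n)) : Prop extends DPS n r F sg dm where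
  clo : ∀ (z : Fin n → Bool) (Y : Fin r → Fin n → Bool), (∀ j, Y j ∈ F) →
    (∀ j, ∀ v ∈ dm (sg j (Y j)), z v = Y j v) → z ∈ F ∧ ∀ j, sg j z = sg j (Y j)

/-- On every rectangle with sides `≥ t` the sum of `g` is at most `η` times the size. -/
def Disc {n : ℕ} (g : (Fin n → Bool) → ℝ) (t η : ℝ) : Prop :=
  ∀ (U : Finset (Fin n)) (A B : Finset (Fin n → Bool)), t ≤ A.card → t ≤ B.card →
    (∀ a ∈ A, ∀ a' ∈ A, ∀ v, v ∉ U → a v = a' v) → (∀ b ∈ B, ∀ b' ∈ B, ∀ v ∈ U, b v = b' v) →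
    |∑ a ∈ A, ∑ b ∈ B, g (glue U a b)| ≤ η * A.card * B.card

open scoped Classical in
/-- The inputs which are good for `J` (the segments of the columns) and `G`. -/
noncomputable def Gd {n r : ℕ} {β : Type} (F : Finset (Fin n → Bool)) (sg : Fin r → (Fin n → Bool) → β)
    (dm : β → Finset (Fin n)) (J : Finset (Fin r)) (G : Finset (Fin n)) (s d : ℕ) :
    Finset (Fin n → Bool) :=
  F.filter (fun x => s ≤ ((univ \ DJ sg dm J x) \ G).card ∧ (DJ sg dm Jᶜ x ∩ G).card ≤ d)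

/-- M1 (helper76). PARTITION AND PACKING: the good inputs are a disjoint union of rectangles, few of them in
rectangles with a side `< t`. -/
def S_PartR : Prop := ∀ (n r : ℕ) (β : Type) (F : Finset (Fin n → Bool))
    (sg : Fin r → (Fin n → Bool) → β) (dm : β → Finset (Fin n)), DPC n r F sg dm →
  ∀ (J : Finset (Fin r)) (G : Finset (Fin n)) (s d : ℕ) (g : (Fin n → Bool) → ℝ) (t η : ℝ),
  (∀ x, |g x| ≤ 1) → 0 ≤ t → 0 ≤ η → Disc g t η →
  |∑ x ∈ Gd F sg dm J G s d, g x| ≤ η * (Gd F sg dm J G s d).card +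
    t * (2 ^ n * (G.powerset.filter (fun S => S.card ≤ d)).card / 2 ^ s +
      2 ^ n * n.choose s / 2 ^ (G.card - d))

/-- M3 (helper76). SELECTION: second moment. `q` = 1/probability of a segment to be in `T = Jᶜ`; `kn` bounds the number
of tests; `m + 1 ≥ 2 k`. -/
def S_SelR : Prop := ∀ (n r q m k ℓ g s d : ℕ) (β : Type) (S : Finset (Fin n → Bool))
    (sg : Fin r → (Fin n → Bool) → β) (dm : β → Finset (Fin n)),
  (∀ x ∈ S, ∀ j, (dm (sg j x)).card ≤ ℓ) → (∀ x ∈ S, ∑ j, (dm (sg j x)).card ≤ k * n) →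
  1 ≤ q → 1 ≤ n → 2 * k ≤ m + 1 → 4 * g ≤ n → 8 * q ^ m * s ≤ n →
  ∃ (J : Finset (Fin r)) (G : Finset (Fin n)), G.card = g ∧
    ((S.card : ℝ) - (Gd S sg dm J G s d).card) ≤
      (16 * m * ℓ * q ^ m / n + k * g / (q * (d + 1))) * S.card

open scoped Classical in
/-- The inputs accepted with at most `K` tests. -/
noncomputable def Sh {n : ℕ} (P : NBP (Fin n)) (K : ℕ) : Finset (Fin n → Bool) :=
  univ.filter (fun y => ∃ v l, P.acc v ∧ Walk P P.start l v ∧ Consistent y l ∧ l.length ≤ K)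

open scoped Classical in
/-- M2 (helper74). From deterministic programs to closed systems; `b` = the states at the cuts (after `j ℓ` tests, or at
the end). -/
def S_ProgR : Prop := ∀ (n r ℓ K : ℕ) (P : NBP (Fin n)), Det P → 1 ≤ r → K ≤ r * ℓ →
  ∃ (b : (Fin n → Bool) → Fin (r + 1) → P.V)
    (sg : Fin r → (Fin n → Bool) → (Fin n → Option Bool)) (dm : (Fin n → Option Bool) → Finset (Fin n)),
    (∀ x ∈ Sh P K, ∀ j, (dm (sg j x)).card ≤ ℓ) ∧ (∀ x ∈ Sh P K, ∑ j, (dm (sg j x)).card ≤ K) ∧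
    ∀ w : Fin (r + 1) → P.V, DPC n r ((Sh P K).filter (fun x => b x = w)) sg dm

/-- Number of ones mod 2. -/
def par {n : ℕ} (y : Fin n → Bool) : ZMod 2 := ∑ i, (if y i then (1 : ZMod 2) else 0)

open scoped Classical in
/-- `1` where `fq c` is true, `-1` where it is false and the number of ones is even, `0` otherwise. -/
noncomputable def gq {n : ℕ} (c : Coef n → Bool) (y : Fin n → Bool) : ℝ :=
  if par y = 0 then (if quartic c y = 1 then 1 else -1) else 0

open scoped Classical in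
/-- M4 (helper72). BALANCED QUARTICS (DISC of note 4283; split the rectangle by the parities of `a` and `b`; parts
which are smaller than `n^(-1/16)/16` times the side are trivial). -/
def S_DiscQ : Prop := ∃ N : ℕ, ∀ n ≥ N, ∃ c : Coef n → Bool,
  2 ^ (n - 2) ≤ ((univ : Finset (Fin n → Bool)).filter (fun y => fq c y)).card ∧
  Disc (gq c) (Real.exp ((n : ℝ) ^ (3 / 4 : ℝ))) ((n : ℝ) ^ (-(1 / 16) : ℝ))

/-- TOPR (helper64, M5). -/
def S_TopR : Prop := ∃ A N : ℕ, 1 ≤ A ∧ ∀ n ≥ N, ∃ c : Coef n → Bool,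
  (∃ B : Finset (Fin n → Bool), (∀ y ∈ B, fq c y) ∧ 2 ^ (n - 2) ≤ B.card) ∧
  ∀ k : ℕ, 2 ≤ k → (k : ℝ) ^ (A * k) ≤ n → ∀ P : NBP (Fin n), Det P →
  (Fintype.card P.V : ℝ) < Real.exp (n / (k : ℝ) ^ (A * k)) →
  |∑ y ∈ Sh P (k * n), gq c y| ≤
    (Sh P (k * n)).card / k + 2 ^ n * Real.exp (-(n / (k : ℝ) ^ (A * k)))

end SRBP
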