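import Pool.Agent.Lib.MP_9dcf40_lc.DTR.Spec

/-!
# Theorem DTR (MP_9dcf40_lc), M3: choice of the segments and of the block (second moment)
-/

namespace SRBP

open Finset

namespace SelR

/-- A block with at most the average weight. -/
theorem exG {n : ℕ} (a : Fin n → ℝ) (e : ℕ) : ∀ g : ℕ, g + e = n →
    ∃ G : Finset (Fin n), G.card = g ∧ n * ∑ v ∈ G, a v ≤ g * ∑ v, a v := by
  classical
  induction e with
  | zero =>
    intro g hg
    refine ⟨univ, by simp [← hg], ?_⟩
    have : (g : ℝ) = n := by exact_mod_cast (by omega : g = n)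
    rw [this]
  | succ e ih =>
    intro g hg
    obtain ⟨G', hG', hs⟩ := ih (g + 1) (by omega)
    obtain ⟨v, hv, hmax⟩ := G'.exists_max_image a (card_pos.1 (by omega))
    refine ⟨G'.erase v, by rw [card_erase_of_mem hv, hG']; rfl, ?_⟩
    have h1 : ∑ w ∈ G'.erase v, a w + a v = ∑ w ∈ G', a w := sum_erase_add _ _ hv
    have h2 : ∑ w ∈ G', a w ≤ (g + 1) * a v := by
      have := sum_le_card_nsmul G' a (a v) (fun w hw => hmax w hw)
      rw [hG', nsmul_eq_mul] at this
      push_cast at this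
      exact this
    have hn : (0 : ℝ) ≤ n := Nat.cast_nonneg n
    have hg0 : (0 : ℝ) ≤ g := Nat.cast_nonneg g
    push_cast at hs
    have h3 : ((g : ℝ) + 1) * ∑ w ∈ G'.erase v, a w ≤ g * ∑ w ∈ G', a w := by
      have : ∑ w ∈ G'.erase v, a w = ∑ w ∈ G', a w - a v := by linarith
      rw [this]
      nlinarith
    have h4 : ((g : ℝ) + 1) * (n * ∑ w ∈ G'.erase v, a w) ≤ (g + 1) * (g * ∑ w, a w) := by
      calc ((g : ℝ) + 1) * (n * ∑ w ∈ G'.erase v, a w) = n * ((g + 1) * ∑ w ∈ G'.erase v, a w) := by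
            ring
        _ ≤ n * (g * ∑ w ∈ G', a w) := mul_le_mul_of_nonneg_left h3 hn
        _ = g * (n * ∑ w ∈ G', a w) := by ring
        _ ≤ g * ((g + 1) * ∑ w, a w) := mul_le_mul_of_nonneg_left hs hg0
        _ = _ := by ring
    exact le_of_mul_le_mul_left h4 (by linarith)

theorem cnt {r q : ℕ} (hq : 1 ≤ q) (R : Finset (Fin r)) :
    ((univ.filter (fun τ : Fin r → Fin q => ∀ j ∈ R, (τ j : ℕ) = 0)).card : ℝ) =
      (q : ℝ) ^ r / (q : ℝ) ^ R.card := by
  classical
  have hq0 : (0 : ℝ) < q := by exact_mod_cast hq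
  have h1 : univ.filter (fun τ : Fin r → Fin q => ∀ j ∈ R, (τ j : ℕ) = 0) =
      Fintype.piFinset (fun j => if j ∈ R then {(⟨0, hq⟩ : Fin q)} else univ) := by
    ext τ
    rw [mem_filter, Fintype.mem_piFinset]
    constructor
    · rintro ⟨-, h⟩ j
      by_cases hj : j ∈ R
      · rw [if_pos hj, mem_singleton]
        exact Fin.ext (h j hj)
      · rw [if_neg hj]
        exact mem_univ _
    · intro h
      refine ⟨mem_univ _, fun j hj => ?_⟩
      have := h j
      rw [if_pos hj, mem_singleton] at this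
      rw [this]
  have h2 : (∏ j : Fin r, (if j ∈ R then ({(⟨0, hq⟩ : Fin q)} : Finset (Fin q)) else univ).card) =
      q ^ (univ \ R).card := by
    rw [← prod_const, ← prod_sdiff (subset_univ R)]
    rw [prod_congr rfl (g := fun _ => q) (fun j hj => by
      rw [if_neg (mem_sdiff.1 hj).2, card_univ, Fintype.card_fin])]
    rw [prod_eq_one (s := R) (fun j hj => by rw [if_pos hj, card_singleton]), mul_one]
  rw [h1, Fintype.card_piFinset, h2, eq_div_iff (by positivity)]
  have h3 : (univ \ R).card + R.card = r := by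
    rw [card_sdiff_add_card_eq_card (subset_univ R), card_univ, Fintype.card_fin]
  push_cast
  rw [← pow_add, h3]

open scoped Classical in
/-- Indicator. -/
noncomputable def I {n r q : ℕ} (R : Fin n → Finset (Fin r)) (v : Fin n) (τ : Fin r → Fin q) : ℝ :=
  if ∀ j ∈ R v, (τ j : ℕ) = 0 then 1 else 0

theorem sum_I {n r q : ℕ} (hq : 1 ≤ q) (R : Fin n → Finset (Fin r)) (v : Fin n) :
    ∑ τ : Fin r → Fin q, I R v τ = (q : ℝ) ^ r / (q : ℝ) ^ (R v).card := by
  classical
  unfold I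
  rw [← cnt hq, sum_ite, sum_const_zero, add_zero, sum_const, nsmul_eq_mul, mul_one]

theorem sum_II {n r q : ℕ} (hq : 1 ≤ q) (R : Fin n → Finset (Fin r)) (v w : Fin n) :
    ∑ τ : Fin r → Fin q, I R v τ * I R w τ = (q : ℝ) ^ r / (q : ℝ) ^ (R v ∪ R w).card := by
  classical
  rw [← cnt hq]
  have h1 : ∀ τ : Fin r → Fin q, I R v τ * I R w τ =
      if ∀ j ∈ R v ∪ R w, (τ j : ℕ) = 0 then 1 else 0 := by
    intro τ
    unfold I
    by_cases h1 : ∀ j ∈ R v, (τ j : ℕ) = 0
    · by_cases h2 : ∀ j ∈ R w, (τ j : ℕ) = 0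
      · rw [if_pos h1, if_pos h2, if_pos, mul_one]
        intro j hj
        rcases mem_union.1 hj with h | h
        · exact h1 j h
        · exact h2 j h
      · rw [if_neg h2, if_neg (fun (h : ∀ j ∈ R v ∪ R w, (τ j : ℕ) = 0) =>
          h2 (fun j hj => h j (mem_union_right _ hj))), mul_zero]
    · rw [if_neg h1, if_neg (fun (h : ∀ j ∈ R v ∪ R w, (τ j : ℕ) = 0) =>
        h1 (fun j hj => h j (mem_union_left _ hj))), zero_mul]
  rw [sum_congr rfl (fun τ _ => h1 τ), sum_ite, sum_const_zero, add_zero, sum_const, nsmul_eq_mul,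
    mul_one]

/-- The mean. -/
noncomputable def mu {n r : ℕ} (q : ℕ) (R : Fin n → Finset (Fin r)) (W : Finset (Fin n)) : ℝ :=
  ∑ v ∈ W, 1 / (q : ℝ) ^ (R v).card

theorem pair_le {n r q : ℕ} (hq : 1 ≤ q) (R : Fin n → Finset (Fin r)) (v w : Fin n)
    [Decidable (Disjoint (R v) (R w))] :
    1 / (q : ℝ) ^ (R v ∪ R w).card ≤ 1 / (q : ℝ) ^ (R v).card * (1 / (q : ℝ) ^ (R w).card) +
      (if Disjoint (R v) (R w) then 0 else 1 / (q : ℝ) ^ (R v).card) := by
  have hq0 : (0 : ℝ) < q := by exact_mod_cast hq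
  have hq1 : (1 : ℝ) ≤ q := by exact_mod_cast hq
  split_ifs with hd
  · rw [card_union_of_disjoint hd, pow_add, add_zero, one_div_mul_one_div]
  · have h1 : 1 / (q : ℝ) ^ (R v ∪ R w).card ≤ 1 / (q : ℝ) ^ (R v).card :=
      one_div_le_one_div_of_le (by positivity)
        (pow_le_pow_right₀ hq1 (card_le_card subset_union_left))
    have h2 : 0 ≤ 1 / (q : ℝ) ^ (R v).card * (1 / (q : ℝ) ^ (R w).card) := by positivity
    linarith

/-- Second moment. -/
theorem second {n r q : ℕ} (hq : 1 ≤ q) (R : Fin n → Finset (Fin r)) (W : Finset (Fin n)) (L : ℝ)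
    (hL : ∀ v ∈ W, ((W.filter (fun w => ¬ Disjoint (R v) (R w))).card : ℝ) ≤ L) :
    ∑ τ : Fin r → Fin q, (∑ v ∈ W, I R v τ - mu q R W) ^ 2 ≤ (q : ℝ) ^ r * (L * mu q R W) := by
  classical
  have hq0 : (0 : ℝ) < q := by exact_mod_cast hq
  have e1 : ∑ τ : Fin r → Fin q, ∑ v ∈ W, I R v τ = (q : ℝ) ^ r * mu q R W := by
    rw [sum_comm, mu, mul_sum]
    refine sum_congr rfl (fun v _ => ?_)
    rw [sum_I hq, mul_one_div]
  have e2 : ∑ τ : Fin r → Fin q, (∑ v ∈ W, I R v τ) ^ 2 =
      (q : ℝ) ^ r * ∑ v ∈ W, ∑ w ∈ W, 1 / (q : ℝ) ^ (R v ∪ R w).card := by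
    have h1 : ∀ τ : Fin r → Fin q, (∑ v ∈ W, I R v τ) ^ 2 = ∑ v ∈ W, ∑ w ∈ W, I R v τ * I R w τ := by
      intro τ
      rw [sq, sum_mul_sum]
    rw [sum_congr rfl (fun τ _ => h1 τ), sum_comm, mul_sum]
    refine sum_congr rfl (fun v _ => ?_)
    rw [sum_comm, mul_sum]
    refine sum_congr rfl (fun w _ => ?_)
    rw [sum_II hq, mul_one_div]
  have e3 : ∑ v ∈ W, ∑ w ∈ W, 1 / (q : ℝ) ^ (R v ∪ R w).card ≤ mu q R W ^ 2 + L * mu q R W := by
    have h1 : ∀ v ∈ W, ∑ w ∈ W, 1 / (q : ℝ) ^ (R v ∪ R w).card ≤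
        1 / (q : ℝ) ^ (R v).card * mu q R W + L * (1 / (q : ℝ) ^ (R v).card) := by
      intro v hv
      calc ∑ w ∈ W, 1 / (q : ℝ) ^ (R v ∪ R w).card ≤
          ∑ w ∈ W, (1 / (q : ℝ) ^ (R v).card * (1 / (q : ℝ) ^ (R w).card) +
            (if Disjoint (R v) (R w) then 0 else 1 / (q : ℝ) ^ (R v).card)) :=
            sum_le_sum (fun w _ => pair_le hq R v w)
        _ = 1 / (q : ℝ) ^ (R v).card * mu q R W +
            ((W.filter (fun w => ¬ Disjoint (R v) (R w))).card : ℝ) * (1 / (q : ℝ) ^ (R v).card) := by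
            rw [sum_add_distrib, ← mul_sum, mu, sum_ite, sum_const_zero, zero_add, sum_const,
              nsmul_eq_mul]
        _ ≤ _ := by
            have := mul_le_mul_of_nonneg_right (hL v hv)
              (show (0 : ℝ) ≤ 1 / (q : ℝ) ^ (R v).card by positivity)
            linarith
    refine (sum_le_sum h1).trans (le_of_eq ?_)
    rw [sum_add_distrib, ← sum_mul, ← mul_sum]
    show mu q R W * mu q R W + L * mu q R W = _
    ring
  have e4 : ∑ τ : Fin r → Fin q, (∑ v ∈ W, I R v τ - mu q R W) ^ 2 =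
      ∑ τ : Fin r → Fin q, (∑ v ∈ W, I R v τ) ^ 2 -
        2 * mu q R W * ∑ τ : Fin r → Fin q, ∑ v ∈ W, I R v τ + (q : ℝ) ^ r * mu q R W ^ 2 := by
    have h1 : ∑ τ : Fin r → Fin q, mu q R W ^ 2 = (q : ℝ) ^ r * mu q R W ^ 2 := by
      rw [sum_const, card_univ, Fintype.card_fun, Fintype.card_fin, Fintype.card_fin, nsmul_eq_mul]
      push_cast
      rfl
    rw [← h1, mul_sum, ← sum_sub_distrib, ← sum_add_distrib]
    exact sum_congr rfl (fun τ _ => by ring)
  rw [e4, e1, e2]
  have h5 := mul_le_mul_of_nonneg_left e3 (show (0 : ℝ) ≤ (q : ℝ) ^ r by positivity)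
  nlinarith

/-- Chebyshev. -/
theorem cheb {n r q : ℕ} (hq : 1 ≤ q) (R : Fin n → Finset (Fin r)) (W : Finset (Fin n)) (L : ℝ)
    (hL : ∀ v ∈ W, ((W.filter (fun w => ¬ Disjoint (R v) (R w))).card : ℝ) ≤ L)
    (hmu : 0 < mu q R W) (B : Finset (Fin r → Fin q))
    (hB : ∀ τ ∈ B, ∑ v ∈ W, I R v τ ≤ mu q R W / 2) :
    (B.card : ℝ) ≤ (q : ℝ) ^ r * (4 * L / mu q R W) := by
  classical
  have h1 := second hq R W L hL
  have h2 : (B.card : ℝ) * (mu q R W / 2) ^ 2 ≤
      ∑ τ : Fin r → Fin q, (∑ v ∈ W, I R v τ - mu q R W) ^ 2 := by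
    calc (B.card : ℝ) * (mu q R W / 2) ^ 2 = ∑ τ ∈ B, (mu q R W / 2) ^ 2 := by
          rw [sum_const, nsmul_eq_mul]
      _ ≤ ∑ τ ∈ B, (∑ v ∈ W, I R v τ - mu q R W) ^ 2 := by
          refine sum_le_sum (fun τ hτ => ?_)
          have := hB τ hτ
          nlinarith
      _ ≤ _ := sum_le_sum_of_subset_of_nonneg (subset_univ _) (fun _ _ _ => sq_nonneg _)
  have h3 := h2.trans h1
  have h4 : (q : ℝ) ^ r * (4 * L / mu q R W) = (q : ℝ) ^ r * (L * mu q R W) / (mu q R W / 2) ^ 2 := by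
    field_simp
    ring
  rw [h4, le_div_iff₀ (by positivity)]
  exact h3

/-- The segments which read `v`. -/
noncomputable def Rd {n r : ℕ} {β : Type} (sg : Fin r → (Fin n → Bool) → β) (dm : β → Finset (Fin n))
    (x : Fin n → Bool) (v : Fin n) : Finset (Fin r) := univ.filter (fun j => v ∈ dm (sg j x))

theorem sum_Rd {n r : ℕ} {β : Type} (sg : Fin r → (Fin n → Bool) → β) (dm : β → Finset (Fin n))
    (x : Fin n → Bool) : ∑ v, (Rd sg dm x v).card = ∑ j, (dm (sg j x)).card := by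
  unfold Rd
  simp only [card_filter]
  rw [sum_comm]
  refine sum_congr rfl (fun j _ => ?_)
  rw [← card_filter, filter_mem_eq_inter, univ_inter]

end SelR

open SelR in
open scoped Classical in
theorem tSelR : S_SelR := by
  intro n r q m k ℓ g s d β S sg dm hℓ hk hq hn hkm hg hs
  have hq0 : (0 : ℝ) < q := by exact_mod_cast hq
  have hq1 : (1 : ℝ) ≤ q := by exact_mod_cast hq
  have hn0 : (0 : ℝ) < n := by exact_mod_cast hn
  -- the block
  obtain ⟨G, hGc, hG⟩ := exG (fun v : Fin n => ∑ x ∈ S, ((Rd sg dm x v).card : ℝ)) (n - g) g (by omega)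
  have hG' : ∑ x ∈ S, ∑ v ∈ G, ((Rd sg dm x v).card : ℝ) ≤ k * g * S.card := by
    have h1 : ∑ v, ∑ x ∈ S, ((Rd sg dm x v).card : ℝ) ≤ k * n * S.card := by
      rw [sum_comm]
      have h2 : ∀ x ∈ S, ∑ v, ((Rd sg dm x v).card : ℝ) ≤ k * n := by
        intro x hx
        have := hk x hx
        rw [← sum_Rd] at this
        exact_mod_cast this
      refine (sum_le_sum h2).trans (le_of_eq ?_)
      rw [sum_const, nsmul_eq_mul]
      ring
    rw [sum_comm]
    have h3 : (n : ℝ) * ∑ v ∈ G, ∑ x ∈ S, ((Rd sg dm x v).card : ℝ) ≤ n * (k * g * S.card) := by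
      refine hG.trans ?_
      calc (g : ℝ) * ∑ v, ∑ x ∈ S, ((Rd sg dm x v).card : ℝ) ≤ g * (k * n * S.card) :=
            mul_le_mul_of_nonneg_left h1 (Nat.cast_nonneg _)
        _ = _ := by ring
    exact le_of_mul_le_mul_left h3 hn0
  -- for one input
  let T : (Fin r → Fin q) → Finset (Fin r) := fun τ => univ.filter (fun j => (τ j : ℕ) = 0)
  let B₁ : (Fin n → Bool) → Finset (Fin r → Fin q) := fun x =>
    univ.filter (fun τ => ((univ \ DJ sg dm (T τ)ᶜ x) \ G).card < s)
  let B₂ : (Fin n → Bool) → Finset (Fin r → Fin q) := fun x =>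
    univ.filter (fun τ => d < (DJ sg dm (T τ)ᶜᶜ x ∩ G).card)
  have hB₁ : ∀ x ∈ S, ((B₁ x).card : ℝ) ≤ (q : ℝ) ^ r * (16 * m * ℓ * q ^ m / n) := by
    intro x hx
    obtain ⟨W, hW⟩ : ∃ W, W = univ.filter (fun v => (Rd sg dm x v).card ≤ m) \ G := ⟨_, rfl⟩
    have hWm : ∀ v ∈ W, (Rd sg dm x v).card ≤ m := by
      intro v hv
      rw [hW] at hv
      exact (mem_filter.1 (mem_sdiff.1 hv).1).2
    have hWc : (n : ℝ) / 4 ≤ W.card := by
      have h1 : (univ.filter (fun v => ¬ (Rd sg dm x v).card ≤ m)).card * (m + 1) ≤ k * n := by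
        calc _ = ∑ v ∈ univ.filter (fun v => ¬ (Rd sg dm x v).card ≤ m), (m + 1) := by
              rw [sum_const, smul_eq_mul]
          _ ≤ ∑ v ∈ univ.filter (fun v => ¬ (Rd sg dm x v).card ≤ m), (Rd sg dm x v).card :=
              sum_le_sum (fun v hv => by
                have := (mem_filter.1 hv).2
                omega)
          _ ≤ ∑ v, (Rd sg dm x v).card := sum_le_sum_of_subset (filter_subset _ _)
          _ ≤ k * n := by
              rw [sum_Rd]
              exact hk x hx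
      have h2 : (univ.filter (fun v => ¬ (Rd sg dm x v).card ≤ m)).card * 2 ≤ n := by
        by_contra hcon
        have hcon := not_le.1 hcon
        rcases Nat.eq_zero_or_pos k with hk0 | hk0
        · rw [hk0, zero_mul] at h1
          have : (univ.filter (fun v => ¬ (Rd sg dm x v).card ≤ m)).card = 0 := by
            rcases Nat.mul_eq_zero.1 (Nat.le_zero.1 h1) with h | h
            · exact h
            · omega
          omega
        · have h3 : k * n < k * ((univ.filter (fun v => ¬ (Rd sg dm x v).card ≤ m)).card * 2) :=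
            Nat.mul_lt_mul_of_pos_left hcon hk0
          have h4 : k * ((univ.filter (fun v => ¬ (Rd sg dm x v).card ≤ m)).card * 2) ≤
              (univ.filter (fun v => ¬ (Rd sg dm x v).card ≤ m)).card * (m + 1) := by
            calc _ = (univ.filter (fun v => ¬ (Rd sg dm x v).card ≤ m)).card * (2 * k) := by ring
              _ ≤ _ := Nat.mul_le_mul_left _ hkm
          omega
      have h3 : (univ.filter (fun v => (Rd sg dm x v).card ≤ m)).card +
          (univ.filter (fun v => ¬ (Rd sg dm x v).card ≤ m)).card = n := by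
        rw [card_filter_add_card_filter_not, card_univ, Fintype.card_fin]
      have h4 : (univ.filter (fun v => (Rd sg dm x v).card ≤ m)).card ≤ W.card + G.card := by
        rw [hW]
        have := le_card_sdiff G (univ.filter (fun v => (Rd sg dm x v).card ≤ m))
        omega
      have h5 : n ≤ 4 * W.card := by omega
      rw [div_le_iff₀ (by norm_num)]
      have : (n : ℝ) ≤ 4 * W.card := by exact_mod_cast h5
      linarith
    have hmu : (n : ℝ) / (4 * q ^ m) ≤ mu q (Rd sg dm x) W := by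
      calc (n : ℝ) / (4 * q ^ m) = n / 4 * (1 / (q : ℝ) ^ m) := by
            field_simp
        _ ≤ W.card * (1 / (q : ℝ) ^ m) := mul_le_mul_of_nonneg_right hWc (by positivity)
        _ = ∑ v ∈ W, 1 / (q : ℝ) ^ m := by rw [sum_const, nsmul_eq_mul]
        _ ≤ _ := sum_le_sum (fun v hv => one_div_le_one_div_of_le (by positivity)
            (pow_le_pow_right₀ hq1 (hWm v hv)))
    have hmu0 : 0 < mu q (Rd sg dm x) W := lt_of_lt_of_le (by positivity) hmu
    have h1 := cheb (q := q) hq (Rd sg dm x) W ((m * ℓ : ℕ) : ℝ) (by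
      intro v hv
      have h2 : W.filter (fun w => ¬ Disjoint (Rd sg dm x v) (Rd sg dm x w)) ⊆
          (Rd sg dm x v).biUnion (fun j => dm (sg j x)) := by
        intro w hw
        obtain ⟨j, hj1, hj2⟩ := not_disjoint_iff.1 (mem_filter.1 hw).2
        exact mem_biUnion.2 ⟨j, hj1, (mem_filter.1 hj2).2⟩
      have h3 : (W.filter (fun w => ¬ Disjoint (Rd sg dm x v) (Rd sg dm x w))).card ≤ m * ℓ := by
        refine (card_le_card h2).trans (card_biUnion_le.trans ?_)
        refine (sum_le_card_nsmul _ _ ℓ (fun j _ => hℓ x hx j)).trans ?_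
        rw [smul_eq_mul]
        exact Nat.mul_le_mul_right _ (hWm v hv)
      exact_mod_cast h3) hmu0 (B₁ x) (by
      intro τ hτ
      have hτ' := (mem_filter.1 hτ).2
      have h2 : ∑ v ∈ W, I (Rd sg dm x) v τ =
          ((W.filter (fun v => ∀ j ∈ Rd sg dm x v, (τ j : ℕ) = 0)).card : ℝ) := by
        unfold I
        rw [sum_ite, sum_const_zero, add_zero, sum_const, nsmul_eq_mul, mul_one]
      have h3 : W.filter (fun v => ∀ j ∈ Rd sg dm x v, (τ j : ℕ) = 0) ⊆
          (univ \ DJ sg dm (T τ)ᶜ x) \ G := by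
        intro v hv
        obtain ⟨hvW, hv2⟩ := mem_filter.1 hv
        rw [hW] at hvW
        refine mem_sdiff.2 ⟨mem_sdiff.2 ⟨mem_univ _, fun hv3 => ?_⟩, (mem_sdiff.1 hvW).2⟩
        obtain ⟨j, hj, hvj⟩ := mem_biUnion.1 hv3
        exact mem_compl.1 hj (mem_filter.2 ⟨mem_univ _, hv2 j (mem_filter.2 ⟨mem_univ _, hvj⟩)⟩)
      have h4 : ((W.filter (fun v => ∀ j ∈ Rd sg dm x v, (τ j : ℕ) = 0)).card : ℝ) ≤ s := by
        exact_mod_cast ((card_le_card h3).trans hτ'.le)
      have h5 : (8 * q ^ m * s : ℝ) ≤ n := by exact_mod_cast hs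
      have h6 : (s : ℝ) ≤ n / (4 * q ^ m) / 2 := by
        rw [div_div, le_div_iff₀ (by positivity)]
        linarith
      rw [h2]
      linarith)
    refine h1.trans (mul_le_mul_of_nonneg_left ?_ (by positivity))
    rw [div_le_div_iff₀ hmu0 hn0]
    have h7 : (n : ℝ) ≤ 4 * q ^ m * mu q (Rd sg dm x) W := by
      rw [div_le_iff₀ (by positivity)] at hmu
      linarith
    push_cast
    calc (4 * (m * ℓ) * n : ℝ) ≤ 4 * (m * ℓ) * (4 * q ^ m * mu q (Rd sg dm x) W) :=
          mul_le_mul_of_nonneg_left h7 (by positivity)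
      _ = _ := by ring
  have hB₂ : ∀ x ∈ S, ((B₂ x).card : ℝ) ≤
      (q : ℝ) ^ r * ((∑ v ∈ G, ((Rd sg dm x v).card : ℝ)) / (q * (d + 1))) := by
    intro x hx
    have h1 : ∀ τ : Fin r → Fin q, ((DJ sg dm (T τ)ᶜᶜ x ∩ G).card : ℝ) ≤
        ∑ v ∈ G, ∑ j ∈ Rd sg dm x v, I (fun _ : Fin n => {j}) v τ := by
      intro τ
      rw [compl_compl]
      calc ((DJ sg dm (T τ) x ∩ G).card : ℝ) = ∑ v ∈ G, (if v ∈ DJ sg dm (T τ) x then (1 : ℝ) else 0) := by
            rw [sum_ite, sum_const_zero, add_zero, sum_const, nsmul_eq_mul, mul_one, inter_comm,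
              ← filter_mem_eq_inter]
        _ ≤ _ := by
            refine sum_le_sum (fun v _ => ?_)
            split_ifs with hv
            · obtain ⟨j, hj, hvj⟩ := mem_biUnion.1 hv
              have h2 : I (fun _ : Fin n => ({j} : Finset (Fin r))) v τ = 1 := by
                unfold I
                rw [if_pos]
                intro i hi
                rw [mem_singleton.1 hi]
                exact (mem_filter.1 hj).2
              rw [← h2]
              refine single_le_sum (f := fun j => I (fun _ : Fin n => ({j} : Finset (Fin r))) v τ)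
                (fun i _ => ?_) (mem_filter.2 ⟨mem_univ _, hvj⟩)
              show 0 ≤ I _ v τ
              unfold I
              split_ifs <;> norm_num
            · refine sum_nonneg (fun i _ => ?_)
              unfold I
              split_ifs <;> norm_num
    have h2 : ∑ τ : Fin r → Fin q, ∑ v ∈ G, ∑ j ∈ Rd sg dm x v, I (fun _ : Fin n => {j}) v τ =
        (q : ℝ) ^ r * ((∑ v ∈ G, ((Rd sg dm x v).card : ℝ)) / q) := by
      rw [sum_comm, sum_div, mul_sum]
      refine sum_congr rfl (fun v _ => ?_)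
      rw [sum_comm, sum_congr rfl (fun j _ => sum_I hq (fun _ : Fin n => ({j} : Finset (Fin r))) v)]
      simp only [card_singleton, pow_one]
      rw [sum_const, nsmul_eq_mul]
      ring
    have h3 : ((B₂ x).card : ℝ) * (d + 1) ≤ (q : ℝ) ^ r * ((∑ v ∈ G, ((Rd sg dm x v).card : ℝ)) / q) := by
      rw [← h2]
      calc ((B₂ x).card : ℝ) * (d + 1) = ∑ τ ∈ B₂ x, ((d : ℝ) + 1) := by
            rw [sum_const, nsmul_eq_mul]
        _ ≤ ∑ τ ∈ B₂ x, ((DJ sg dm (T τ)ᶜᶜ x ∩ G).card : ℝ) := by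
            refine sum_le_sum (fun τ hτ => ?_)
            have := (mem_filter.1 hτ).2
            exact_mod_cast this
        _ ≤ ∑ τ : Fin r → Fin q, ((DJ sg dm (T τ)ᶜᶜ x ∩ G).card : ℝ) :=
            sum_le_sum_of_subset_of_nonneg (subset_univ _) (fun _ _ _ => Nat.cast_nonneg _)
        _ ≤ _ := sum_le_sum (fun τ _ => h1 τ)
    rw [← le_div_iff₀ (by positivity)] at h3
    refine h3.trans (le_of_eq ?_)
    rw [mul_div_assoc, div_div]
  -- averaging
  have htot : ∑ τ : Fin r → Fin q, ((S.card : ℝ) - (Gd S sg dm (T τ)ᶜ G s d).card) ≤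
      ∑ τ : Fin r → Fin q, ((16 * m * ℓ * q ^ m / n + k * g / (q * (d + 1))) * S.card : ℝ) := by
    have h1 : ∀ τ : Fin r → Fin q, ((S.card : ℝ) - (Gd S sg dm (T τ)ᶜ G s d).card) ≤
        ∑ x ∈ S, ((if τ ∈ B₁ x then (1 : ℝ) else 0) + if τ ∈ B₂ x then 1 else 0) := by
      intro τ
      have h2 : (S.card : ℝ) - (Gd S sg dm (T τ)ᶜ G s d).card =
          ∑ x ∈ S, (if s ≤ ((univ \ DJ sg dm (T τ)ᶜ x) \ G).card ∧
            (DJ sg dm (T τ)ᶜᶜ x ∩ G).card ≤ d then (0 : ℝ) else 1) := by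
        rw [sum_ite, sum_const_zero, zero_add, sum_const, nsmul_eq_mul, mul_one]
        have h3 := card_filter_add_card_filter_not (s := S)
          (p := fun x => s ≤ ((univ \ DJ sg dm (T τ)ᶜ x) \ G).card ∧
            (DJ sg dm (T τ)ᶜᶜ x ∩ G).card ≤ d)
        have h4 : (S.card : ℝ) = (Gd S sg dm (T τ)ᶜ G s d).card +
            (S.filter (fun x => ¬ (s ≤ ((univ \ DJ sg dm (T τ)ᶜ x) \ G).card ∧
            (DJ sg dm (T τ)ᶜᶜ x ∩ G).card ≤ d))).card := by
          rw [← h3]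
          unfold Gd
          push_cast
          rfl
        rw [h4]
        ring
      rw [h2]
      refine sum_le_sum (fun x _ => ?_)
      have hnn : ∀ (p : Prop) [Decidable p], (0 : ℝ) ≤ if p then 1 else 0 := by
        intro p _
        split_ifs <;> norm_num
      by_cases hc : s ≤ ((univ \ DJ sg dm (T τ)ᶜ x) \ G).card ∧
            (DJ sg dm (T τ)ᶜᶜ x ∩ G).card ≤ d
      · rw [if_pos hc]
        exact add_nonneg (hnn _) (hnn _)
      · rw [if_neg hc]
        rw [not_and_or, not_le, not_le] at hc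
        rcases hc with hc | hc
        · have hm : τ ∈ B₁ x := mem_filter.2 ⟨mem_univ _, hc⟩
          have : (if τ ∈ B₁ x then (1 : ℝ) else 0) = 1 := if_pos hm
          rw [this]
          linarith [hnn (τ ∈ B₂ x)]
        · have hm : τ ∈ B₂ x := mem_filter.2 ⟨mem_univ _, hc⟩
          have : (if τ ∈ B₂ x then (1 : ℝ) else 0) = 1 := if_pos hm
          rw [this]
          linarith [hnn (τ ∈ B₁ x)]
    refine (sum_le_sum (fun τ _ => h1 τ)).trans ?_
    rw [sum_comm]
    have h2 : ∀ x ∈ S, ∑ τ : Fin r → Fin q, ((if τ ∈ B₁ x then (1 : ℝ) else 0) +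
        if τ ∈ B₂ x then 1 else 0) ≤ (q : ℝ) ^ r * (16 * m * ℓ * q ^ m / n +
          (∑ v ∈ G, ((Rd sg dm x v).card : ℝ)) / (q * (d + 1))) := by
      intro x hx
      have e1 : ∀ B : Finset (Fin r → Fin q), ∑ τ : Fin r → Fin q, (if τ ∈ B then (1 : ℝ) else 0) =
          B.card := by
        intro B
        rw [sum_ite_mem, univ_inter, sum_const, nsmul_eq_mul, mul_one]
      rw [sum_add_distrib, e1, e1, mul_add]
      exact add_le_add (hB₁ x hx) (hB₂ x hx)
    refine (sum_le_sum h2).trans ?_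
    rw [← mul_sum, sum_add_distrib, sum_const, nsmul_eq_mul, ← sum_div, sum_const, card_univ,
      Fintype.card_fun, Fintype.card_fin, Fintype.card_fin, nsmul_eq_mul]
    push_cast
    refine mul_le_mul_of_nonneg_left ?_ (by positivity)
    have h3 : (∑ x ∈ S, ∑ v ∈ G, ((Rd sg dm x v).card : ℝ)) / (q * (d + 1)) ≤
        k * g * S.card / (q * (d + 1)) := div_le_div_of_nonneg_right hG' (by positivity)
    calc _ ≤ (S.card : ℝ) * (16 * m * ℓ * q ^ m / n) + k * g * S.card / (q * (d + 1)) :=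
          add_le_add le_rfl h3
      _ = _ := by ring
  have hne : (univ : Finset (Fin r → Fin q)).Nonempty := ⟨fun _ => ⟨0, hq⟩, mem_univ _⟩
  obtain ⟨τ, -, hτ⟩ := exists_le_of_sum_le hne htot
  exact ⟨(T τ)ᶜ, G, hGc, hτ⟩

end SRBP
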