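import Pool.Agent.Lib.MP_9dcf40_lc.DTR.Part
import Pool.Agent.Lib.MP_9dcf40_lc.DTR.Sel
import Pool.Agent.Lib.MP_9dcf40_lc.DT.Num

/-!
# Theorem DTR (MP_9dcf40_lc): the core with numbers, independent of the model
-/

namespace SRBP

open Finset

namespace CoreR

theorem div_ge (a b : ℕ) (hb : 0 < b) : (a : ℝ) / b - 1 ≤ ((a / b : ℕ) : ℝ) := by
  have h1 : a < b * (a / b + 1) := Nat.lt_mul_div_succ a hb
  have h2 : (a : ℝ) < b * (((a / b : ℕ) : ℝ) + 1) := by exact_mod_cast h1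
  have hb' : (0 : ℝ) < b := by exact_mod_cast hb
  rw [sub_le_iff_le_add, div_le_iff₀ hb']
  linarith

/-- The numbers. -/
theorem nums (k n : ℕ) (hk : 2 ≤ k) (hn : (k : ℝ) ^ (400 * k) ≤ n) (M Bn r : ℕ)
    (hM : M = k ^ (80 * k)) (hBn : Bn = k ^ (80 * k - 14)) (hr : r = k ^ (80 * k + 14)) :
    (0 : ℝ) < M ∧ (0 : ℝ) < Bn ∧ 2 ^ 18 * (k : ℝ) ^ 2 ≤ n / M ∧
    Real.log M ≤ 80 * (k : ℝ) ^ 2 ∧ (n : ℝ) / Bn = (n / M) * (k : ℝ) ^ 14 ∧ r ≤ n ∧ 4 ≤ Bn ∧
    (r : ℝ) = M * (k : ℝ) ^ 14 := by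
  obtain ⟨K, hKdef⟩ : ∃ K : ℝ, K = k := ⟨_, rfl⟩
  rw [← hKdef] at hn ⊢
  have hK : 2 ≤ K := by
    rw [hKdef]
    exact_mod_cast hk
  have hK1 : 1 ≤ K := by linarith
  have hMR : (M : ℝ) = K ^ (80 * k) := by
    rw [hM, hKdef]
    push_cast
    rfl
  have hBR : (Bn : ℝ) = K ^ (80 * k - 14) := by
    rw [hBn, hKdef]
    push_cast
    rfl
  have hrR : (r : ℝ) = K ^ (80 * k + 14) := by
    rw [hr, hKdef]
    push_cast
    rfl
  have hM0 : (0 : ℝ) < M := by rw [hMR]; positivity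
  have hB0 : (0 : ℝ) < Bn := by rw [hBR]; positivity
  have hn0 : (0 : ℝ) < n := lt_of_lt_of_le (by positivity) hn
  have hMB : (M : ℝ) = Bn * K ^ 14 := by
    rw [hMR, hBR, ← pow_add]
    congr 1
    omega
  refine ⟨hM0, hB0, ?_, ?_, ?_, ?_, ?_, ?_⟩
  · rw [le_div_iff₀ hM0]
    refine le_trans ?_ hn
    calc 2 ^ 18 * K ^ 2 * M ≤ K ^ 18 * K ^ 2 * M := by
          refine mul_le_mul_of_nonneg_right (mul_le_mul_of_nonneg_right
            (pow_le_pow_left₀ (by norm_num) hK 18) (by positivity)) hM0.le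
      _ = K ^ (18 + 2 + 80 * k) := by rw [hMR, ← pow_add, ← pow_add]
      _ ≤ K ^ (400 * k) := pow_le_pow_right₀ hK1 (by omega)
  · have h1 : Real.log K ≤ K := by
      have := Real.log_le_sub_one_of_pos (x := K) (by linarith)
      linarith
    rw [hMR, Real.log_pow]
    push_cast
    rw [← hKdef]
    calc (80 * K) * Real.log K ≤ (80 * K) * K :=
          mul_le_mul_of_nonneg_left h1 (by linarith)
      _ = _ := by ring
  · rw [hMB]
    field_simp
  · have h1 : K ^ (80 * k + 14) ≤ n := le_trans (pow_le_pow_right₀ hK1 (by omega)) hn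
    rw [← hrR] at h1
    exact_mod_cast h1
  · rw [hBn]
    calc 4 = 2 ^ 2 := by norm_num
      _ ≤ k ^ 2 := Nat.pow_le_pow_left hk 2
      _ ≤ _ := Nat.pow_le_pow_right (by omega) (by omega)
  · rw [hrR, hMR, ← pow_add]

/-- The fraction of bad inputs. -/
theorem frac (K nR MR rR ℓ g d : ℝ) (hK : 2 ≤ K) (hn : 0 < nR) (hM : 0 < MR) (hr : rR = MR * K ^ 14)
    (hrn : rR ≤ nR) (hℓ : ℓ ≤ K * nR / rR + 1)
    (hd : g / K ^ 34 ≤ d + 1) (hd0 : 0 < d + 1) :
    16 * (2 * K) * ℓ * MR / nR + K * g / (K ^ 40 * (d + 1)) ≤ 1 / (4 * K) := by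
  have hK0 : 0 < K := by linarith
  have hr0 : 0 < rR := by rw [hr]; positivity
  have h1 : ℓ ≤ 2 * K * nR / rR := by
    have h2 : 1 ≤ K * nR / rR := by
      rw [le_div_iff₀ hr0]
      nlinarith
    calc ℓ ≤ K * nR / rR + 1 := hℓ
      _ ≤ K * nR / rR + K * nR / rR := by linarith
      _ = _ := by ring
  have h2 : 16 * (2 * K) * ℓ * MR / nR ≤ 64 * K ^ 2 / K ^ 14 := by
    calc 16 * (2 * K) * ℓ * MR / nR ≤ 16 * (2 * K) * (2 * K * nR / rR) * MR / nR := by
          gcongr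
      _ = 64 * K ^ 2 / K ^ 14 := by
          rw [hr]
          field_simp
          ring
  have hK6 : (64 : ℝ) ≤ K ^ 6 := by
    calc (64 : ℝ) = 2 ^ 6 := by norm_num
      _ ≤ _ := pow_le_pow_left₀ (by norm_num) hK 6
  have hK4 : (16 : ℝ) ≤ K ^ 4 := by
    calc (16 : ℝ) = 2 ^ 4 := by norm_num
      _ ≤ _ := pow_le_pow_left₀ (by norm_num) hK 4
  have h3 : 64 * K ^ 2 / K ^ 14 ≤ 1 / (8 * K) := by
    rw [div_le_div_iff₀ (by positivity) (by positivity)]
    calc 64 * K ^ 2 * (8 * K) ≤ K ^ 6 * K ^ 2 * (K ^ 4 * K) := by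
          gcongr
          linarith
      _ ≤ K ^ 13 := le_of_eq (by ring)
      _ ≤ 1 * K ^ 14 := by
          rw [one_mul]
          exact pow_le_pow_right₀ (by linarith) (by norm_num)
  have h4 : K * g / (K ^ 40 * (d + 1)) ≤ 1 / (8 * K) := by
    rw [div_le_div_iff₀ (by positivity) (by positivity)]
    have h5 : g ≤ K ^ 34 * (d + 1) := by
      rw [div_le_iff₀ (by positivity)] at hd
      linarith
    calc K * g * (8 * K) ≤ K * (K ^ 34 * (d + 1)) * (K ^ 4 * K) := by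
          gcongr
          linarith
      _ = K ^ 40 * (d + 1) := by ring
      _ = _ := by ring
  have h6 : 1 / (4 * K) = 1 / (8 * K) + 1 / (8 * K) := by
    field_simp
    norm_num
  linarith

end CoreR

open CoreR in
open scoped Classical in
theorem coreR (k n : ℕ) (hk : 2 ≤ k) (hn : (k : ℝ) ^ (400 * k) ≤ n) {β ι : Type} [Fintype ι]
    (S : Finset (Fin n → Bool)) (w : (Fin n → Bool) → ι)
    (sg : Fin (k ^ (80 * k + 14)) → (Fin n → Bool) → β) (dm : β → Finset (Fin n))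
    (hℓ : ∀ x ∈ S, ∀ j, (dm (sg j x)).card ≤ k * n / k ^ (80 * k + 14) + 1)
    (hK : ∀ x ∈ S, ∑ j, (dm (sg j x)).card ≤ k * n)
    (hcl : ∀ u, DPC n (k ^ (80 * k + 14)) (S.filter (fun x => w x = u)) sg dm)
    (hι : (Fintype.card ι : ℝ) ≤ Real.exp (n / (k : ℝ) ^ (80 * k) / 1000))
    (f : (Fin n → Bool) → ℝ) (hf : ∀ x, |f x| ≤ 1) (η : ℝ) (hη : 0 ≤ η)
    (hd : Disc f (Real.exp (n / (k : ℝ) ^ (80 * k) / 1000)) η) :
    |∑ x ∈ S, f x| ≤ (1 / (4 * k) + η) * S.card +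
      2 ^ n * Real.exp (-(n / (k : ℝ) ^ (80 * k) / 100)) := by
  obtain ⟨M, hM⟩ : ∃ M : ℕ, M = k ^ (80 * k) := ⟨_, rfl⟩
  obtain ⟨Bn, hBn⟩ : ∃ Bn : ℕ, Bn = k ^ (80 * k - 14) := ⟨_, rfl⟩
  obtain ⟨r, hr⟩ : ∃ r : ℕ, r = k ^ (80 * k + 14) := ⟨_, rfl⟩
  obtain ⟨hM0, hB0, hWK, hlM, hnB, hrn, hB4, hrM⟩ := nums k n hk hn M Bn r hM hBn hr
  subst hr
  have hKR : (2 : ℝ) ≤ k := by exact_mod_cast hk
  have hK0 : (0 : ℝ) < k := by linarith
  have hM0' : 0 < M := by exact_mod_cast hM0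
  have hB0' : 0 < Bn := by exact_mod_cast hB0
  have hnR : (0 : ℝ) < n := lt_of_lt_of_le (by positivity) hn
  have hn1 : 1 ≤ n := by exact_mod_cast hnR
  have hMk : (k : ℝ) ^ (80 * k) = M := by
    rw [hM]
    push_cast
    rfl
  rw [hMk] at hι hd ⊢
  obtain ⟨W, hW⟩ : ∃ W : ℝ, W = n / M := ⟨_, rfl⟩
  rw [← hW] at hWK hnB hι hd ⊢
  obtain ⟨s, hs⟩ : ∃ s, s = n / (8 * M) := ⟨_, rfl⟩
  obtain ⟨g, hg⟩ : ∃ g, g = n / Bn := ⟨_, rfl⟩
  obtain ⟨d, hdd⟩ : ∃ d, d = g / k ^ 34 := ⟨_, rfl⟩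
  have hqm : (k ^ 40) ^ (2 * k) = M := by
    rw [hM, ← pow_mul]
    congr 1
    ring
  obtain ⟨J, G, hGc, hbad⟩ := tSelR n (k ^ (80 * k + 14)) (k ^ 40) (2 * k) k
    (k * n / k ^ (80 * k + 14) + 1) g s d β S sg dm hℓ hK (Nat.one_le_pow _ _ (by omega)) hn1
    (by omega) (by
      rw [hg]
      calc 4 * (n / Bn) ≤ Bn * (n / Bn) := Nat.mul_le_mul_right _ hB4
        _ ≤ n := Nat.mul_div_le _ _) (by
      rw [hqm, hs]
      exact Nat.mul_div_le _ _)
  -- the bad inputs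
  have hfrac : (16 * ((2 * k : ℕ) : ℝ) * ((k * n / k ^ (80 * k + 14) + 1 : ℕ) : ℝ) *
      ((k ^ 40 : ℕ) : ℝ) ^ (2 * k) / n + k * g / (((k ^ 40 : ℕ) : ℝ) * (d + 1))) ≤ 1 / (4 * k) := by
    have h1 := frac (k : ℝ) n M ((k ^ (80 * k + 14) : ℕ) : ℝ)
      ((k * n / k ^ (80 * k + 14) + 1 : ℕ) : ℝ) g d hKR hnR hM0 hrM (by exact_mod_cast hrn) (by
        push_cast
        have h2 : ((k * n / k ^ (80 * k + 14) : ℕ) : ℝ) ≤
            ((k * n : ℕ) : ℝ) / ((k ^ (80 * k + 14) : ℕ) : ℝ) := Nat.cast_div_le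
        push_cast at h2
        linarith) (by
        have h2 := div_ge g (k ^ 34) (by positivity)
        rw [← hdd] at h2
        push_cast at h2
        linarith) (by positivity)
    have h2 : ((k ^ 40 : ℕ) : ℝ) ^ (2 * k) = M := by exact_mod_cast congrArg (Nat.cast (R := ℝ)) hqm
    rw [h2]
    refine le_trans (le_of_eq ?_) h1
    push_cast
    ring
  obtain ⟨S', hS'⟩ : ∃ S', S' = Gd S sg dm J G s d := ⟨_, rfl⟩
  rw [← hS'] at hbad
  have hSS : S' ⊆ S := by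
    rw [hS']
    exact filter_subset _ _
  have hbad' : ((S \ S').card : ℝ) ≤ 1 / (4 * k) * S.card := by
    have h1 : ((S \ S').card : ℝ) = S.card - S'.card := by
      rw [card_sdiff_of_subset hSS, Nat.cast_sub (card_le_card hSS)]
    rw [h1]
    exact hbad.trans (mul_le_mul_of_nonneg_right hfrac (Nat.cast_nonneg _))
  -- the good inputs
  obtain ⟨bl, hbl⟩ : ∃ bl, bl = (G.powerset.filter (fun S => S.card ≤ d)).card := ⟨_, rfl⟩
  obtain ⟨X, hX⟩ : ∃ X : ℝ, X = Real.exp (W / 1000) * (2 ^ n * bl / 2 ^ s +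
      2 ^ n * n.choose s / 2 ^ (g - d)) := ⟨_, rfl⟩
  have hX0 : 0 ≤ X := by rw [hX]; positivity
  have hgood : |∑ x ∈ S', f x| ≤ η * S'.card + Fintype.card ι * X := by
    have h1 : ∀ u : ι, S'.filter (fun x => w x = u) =
        Gd (S.filter (fun x => w x = u)) sg dm J G s d := by
      intro u
      rw [hS']
      unfold Gd
      rw [filter_filter, filter_filter]
      exact filter_congr (fun x _ => by tauto)
    have h2 : ∑ x ∈ S', f x = ∑ u : ι, ∑ x ∈ S'.filter (fun x => w x = u), f x :=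
      (sum_fiberwise_of_maps_to (fun x _ => mem_univ (w x)) _).symm
    have h3 : (S'.card : ℝ) = ∑ u : ι, ((S'.filter (fun x => w x = u)).card : ℝ) := by
      have := card_eq_sum_card_fiberwise (f := w) (s := S') (t := univ) (fun x _ => mem_coe.2 (mem_univ _))
      rw [this]
      push_cast
      rfl
    rw [h2, h3]
    refine (abs_sum_le_sum_abs _ _).trans ?_
    rw [mul_sum, ← card_univ, ← nsmul_eq_mul, ← sum_const, ← sum_add_distrib]
    refine sum_le_sum (fun u _ => ?_)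
    rw [h1 u]
    have h4 := tPartR n (k ^ (80 * k + 14)) β _ sg dm (hcl u) J G s d f (Real.exp (W / 1000)) η hf
      (Real.exp_pos _).le hη hd
    rw [← hbl, hGc] at h4
    rw [hX]
    exact h4
  -- the sizes
  have hW0 : 0 < W := lt_of_lt_of_le (by positivity) hWK
  have hW20 : (2 : ℝ) ^ 20 ≤ W := by nlinarith
  have hlogK : Real.log k ≤ k := by
    have := Real.log_le_sub_one_of_pos hK0
    linarith
  have hlogK0 : 0 ≤ Real.log k := Real.log_nonneg (by linarith)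
  have hs1 : W / 8 - 1 ≤ s := by
    have h1 := div_ge n (8 * M) (by omega)
    rw [← hs] at h1
    refine le_trans (le_of_eq ?_) h1
    rw [hW]
    push_cast
    field_simp
  have hs2 : (s : ℝ) ≤ W / 8 := by
    rw [hs, hW]
    refine Nat.cast_div_le.trans (le_of_eq ?_)
    push_cast
    field_simp
  have hq1 : W * (k : ℝ) ^ 14 - 1 ≤ g := by
    rw [← hnB, hg]
    exact div_ge n Bn hB0'
  have hq2 : (g : ℝ) ≤ W * (k : ℝ) ^ 14 := by
    rw [← hnB, hg]
    exact Nat.cast_div_le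
  have hdR : (d : ℝ) ≤ W / (k : ℝ) ^ 20 := by
    rw [hdd]
    refine Nat.cast_div_le.trans ?_
    push_cast
    rw [div_le_div_iff₀ (by positivity) (by positivity)]
    calc (g : ℝ) * (k : ℝ) ^ 20 ≤ (W * (k : ℝ) ^ 14) * (k : ℝ) ^ 20 :=
          mul_le_mul_of_nonneg_right hq2 (by positivity)
      _ = _ := by ring
  have hk18 : (2 : ℝ) ^ 18 ≤ (k : ℝ) ^ 18 := pow_le_pow_left₀ (by norm_num) hKR 18
  have hbl0 : 0 < bl := by
    rw [hbl]
    exact card_pos.2 ⟨∅, mem_filter.2 ⟨mem_powerset.2 (empty_subset _), by simp⟩⟩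
  have hlbl : Real.log bl ≤ W / 1000 := by
    have h1 := log_small G d (((k : ℝ) ^ 32)⁻¹) (by positivity)
      (inv_le_one_of_one_le₀ (one_le_pow₀ (by linarith)))
    rw [← hbl, hGc, Real.log_inv, neg_neg, Real.log_pow] at h1
    push_cast at h1
    have h2 : ((k : ℝ) ^ 32)⁻¹ * g ≤ W / (k : ℝ) ^ 18 := by
      calc ((k : ℝ) ^ 32)⁻¹ * g ≤ ((k : ℝ) ^ 32)⁻¹ * (W * (k : ℝ) ^ 14) :=
            mul_le_mul_of_nonneg_left hq2 (by positivity)
        _ = _ := by field_simp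
    have h3 : (d : ℝ) * (32 * Real.log k) ≤ 32 * (W / (k : ℝ) ^ 18) := by
      calc (d : ℝ) * (32 * Real.log k) ≤ (W / (k : ℝ) ^ 20) * (32 * k) :=
            mul_le_mul hdR (by linarith) (by linarith) (by positivity)
        _ = 32 * (W / (k : ℝ) ^ 19) := by field_simp
        _ ≤ _ := by
            refine mul_le_mul_of_nonneg_left ?_ (by norm_num)
            exact div_le_div_of_nonneg_left hW0.le (by positivity)
              (pow_le_pow_right₀ (by linarith) (by norm_num))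
    have h4 : W / (k : ℝ) ^ 18 ≤ W / 2 ^ 18 :=
      div_le_div_of_nonneg_left hW0.le (by positivity) hk18
    have h5 : W / 2 ^ 18 * 33 ≤ W / 1000 := by
      rw [div_mul_eq_mul_div, div_le_div_iff₀ (by positivity) (by norm_num)]
      nlinarith
    linarith
  have hsn : s ≤ n := by
    rw [hs]
    exact Nat.div_le_self _ _
  have hC0 : 0 < n.choose s := Nat.choose_pos hsn
  have hC0' : (0 : ℝ) < n.choose s := by exact_mod_cast hC0
  have hbl0' : (0 : ℝ) < bl := by exact_mod_cast hbl0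
  have hlC : Real.log (n.choose s) ≤ W + 10 * ((k : ℝ) ^ 2 * W) := by
    have h0 : (n.choose s : ℝ) ≤
        (((univ : Finset (Fin n)).powerset.filter (fun S => S.card ≤ s)).card : ℝ) := by
      exact_mod_cast choose_le_ball n s
    have hM1 : (1 : ℝ) ≤ M := by exact_mod_cast hM0'
    have h1 := log_small (univ : Finset (Fin n)) s ((M : ℝ)⁻¹) (by positivity)
      (inv_le_one_of_one_le₀ hM1)
    rw [card_univ, Fintype.card_fin, Real.log_inv, neg_neg] at h1
    have h2 := Real.log_le_log hC0' h0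
    have h3 : (M : ℝ)⁻¹ * n = W := by
      rw [hW]
      field_simp
    have h4 : (s : ℝ) * Real.log M ≤ (W / 8) * (80 * (k : ℝ) ^ 2) :=
      mul_le_mul hs2 hlM (Real.log_nonneg hM1) (by positivity)
    rw [h3] at h1
    linarith
  have ht : 4096 * ((k : ℝ) ^ 2 * W) - 1 - W ≤ ((g - d : ℕ) : ℝ) := by
    have h1 : (g : ℝ) - d ≤ ((g - d : ℕ) : ℝ) := by
      rcases le_total d g with h | h
      · rw [Nat.cast_sub h]
      · have : (g : ℝ) ≤ d := by exact_mod_cast h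
        have h2 : (0 : ℝ) ≤ ((g - d : ℕ) : ℝ) := Nat.cast_nonneg _
        linarith
    have h2 : W / (k : ℝ) ^ 20 ≤ W := div_le_self hW0.le (one_le_pow₀ (by linarith))
    have h3 : 4096 * ((k : ℝ) ^ 2 * W) ≤ W * (k : ℝ) ^ 14 := by
      have h4 : (4096 : ℝ) ≤ (k : ℝ) ^ 12 := by
        calc (4096 : ℝ) = 2 ^ 12 := by norm_num
          _ ≤ _ := pow_le_pow_left₀ (by norm_num) hKR 12
      calc 4096 * ((k : ℝ) ^ 2 * W) ≤ (k : ℝ) ^ 12 * ((k : ℝ) ^ 2 * W) :=
            mul_le_mul_of_nonneg_right h4 (by positivity)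
        _ = _ := by ring
    linarith
  have l1 := Real.log_two_gt_d9
  have l2 := Real.log_two_lt_d9
  have hr1 : (bl : ℝ) / 2 ^ s ≤ Real.exp (-(W / 50)) := by
    rw [← Real.log_le_iff_le_exp (by positivity), Real.log_div hbl0'.ne' (by positivity),
      Real.log_pow]
    have h3 : (W / 8 - 1) * 0.69 ≤ s * Real.log 2 := by
      have h4 : 0 ≤ W / 8 - 1 := by linarith
      calc (W / 8 - 1) * 0.69 ≤ (W / 8 - 1) * Real.log 2 :=
            mul_le_mul_of_nonneg_left (by linarith) h4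
        _ ≤ s * Real.log 2 := mul_le_mul_of_nonneg_right hs1 (by linarith)
    linarith
  have hr2 : (n.choose s : ℝ) / 2 ^ (g - d) ≤ Real.exp (-(W / 50)) := by
    rw [← Real.log_le_iff_le_exp (by positivity), Real.log_div hC0'.ne' (by positivity),
      Real.log_pow]
    obtain ⟨p, hp⟩ : ∃ p, p = (k : ℝ) ^ 2 * W := ⟨_, rfl⟩
    rw [← hp] at ht hlC
    have hk4 : (4 : ℝ) ≤ (k : ℝ) ^ 2 := by nlinarith
    have hpW : 4 * W ≤ p := by
      rw [hp]
      exact mul_le_mul_of_nonneg_right hk4 hW0.le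
    have h3 : (4096 * p - 1 - W) * 0.69 ≤ ((g - d : ℕ) : ℝ) * Real.log 2 := by
      have h4 : 0 ≤ 4096 * p - 1 - W := by nlinarith
      calc (4096 * p - 1 - W) * 0.69 ≤ (4096 * p - 1 - W) * Real.log 2 :=
            mul_le_mul_of_nonneg_left (by linarith) h4
        _ ≤ _ := mul_le_mul_of_nonneg_right ht (by linarith)
    nlinarith
  have hXX : Fintype.card ι * X ≤ 2 ^ n * Real.exp (-(W / 100)) := by
    have h1 : X ≤ Real.exp (W / 1000) * (2 ^ n * (2 * Real.exp (-(W / 50)))) := by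
      rw [hX]
      refine mul_le_mul_of_nonneg_left ?_ (Real.exp_pos _).le
      have e1 : (2 : ℝ) ^ n * bl / 2 ^ s = 2 ^ n * (bl / 2 ^ s) := by ring
      have e2 : (2 : ℝ) ^ n * n.choose s / 2 ^ (g - d) = 2 ^ n * (n.choose s / 2 ^ (g - d)) := by
        ring
      rw [e1, e2, ← mul_add]
      refine mul_le_mul_of_nonneg_left ?_ (by positivity)
      linarith
    have h2 : (2 : ℝ) ≤ Real.exp (W / 1000) := by
      have := Real.add_one_le_exp (W / 1000)
      linarith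
    calc Fintype.card ι * X ≤ Real.exp (W / 1000) *
          (Real.exp (W / 1000) * (2 ^ n * (2 * Real.exp (-(W / 50))))) :=
          mul_le_mul hι h1 hX0 (Real.exp_pos _).le
      _ ≤ Real.exp (W / 1000) * (Real.exp (W / 1000) *
          (2 ^ n * (Real.exp (W / 1000) * Real.exp (-(W / 50))))) := by
          refine mul_le_mul_of_nonneg_left (mul_le_mul_of_nonneg_left
            (mul_le_mul_of_nonneg_left (mul_le_mul_of_nonneg_right h2 (Real.exp_pos _).le)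
            (by positivity)) (Real.exp_pos _).le) (Real.exp_pos _).le
      _ = 2 ^ n * Real.exp (W / 1000 + W / 1000 + W / 1000 + -(W / 50)) := by
          rw [Real.exp_add, Real.exp_add, Real.exp_add]
          ring
      _ ≤ 2 ^ n * Real.exp (-(W / 100)) := by
          refine mul_le_mul_of_nonneg_left (Real.exp_le_exp.2 ?_) (by positivity)
          linarith
  -- the end
  have hrest : |∑ x ∈ S \ S', f x| ≤ (S \ S').card := by
    refine (abs_sum_le_sum_abs _ _).trans ?_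
    refine (sum_le_sum (fun x _ => hf x)).trans (le_of_eq ?_)
    rw [sum_const, nsmul_eq_mul, mul_one]
  have hsplit : ∑ x ∈ S, f x = ∑ x ∈ S \ S', f x + ∑ x ∈ S', f x := (sum_sdiff hSS).symm
  have hcard : (S'.card : ℝ) ≤ S.card := by exact_mod_cast card_le_card hSS
  rw [hsplit]
  calc |∑ x ∈ S \ S', f x + ∑ x ∈ S', f x| ≤ |∑ x ∈ S \ S', f x| + |∑ x ∈ S', f x| :=
        abs_add_le _ _
    _ ≤ 1 / (4 * k) * S.card + (η * S.card + 2 ^ n * Real.exp (-(W / 100))) := by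
        refine add_le_add (hrest.trans hbad') (hgood.trans (add_le_add
          (mul_le_mul_of_nonneg_left hcard hη) hXX))
    _ = _ := by ring

end SRBP
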