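import Pool.Agent.Lib.MP_9dcf40_lc.DTR.PartX
import Pool.Agent.Lib.MP_9dcf40_lc.RD.SelL
import Pool.Agent.Lib.MP_9dcf40_lc.DT.Num

/-!
# Theorem DTX (MP_9dcf40_lc): the core with numbers, advantage `2 ^ (-a)`
-/

namespace SRBP

open Finset

namespace CoreX

theorem div_ge (a b : ℕ) (hb : 0 < b) : (a : ℝ) / b - 1 ≤ ((a / b : ℕ) : ℝ) := by
  have h1 : a < b * (a / b + 1) := Nat.lt_mul_div_succ a hb
  have h2 : (a : ℝ) < b * (((a / b : ℕ) : ℝ) + 1) := by exact_mod_cast h1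
  have hb' : (0 : ℝ) < b := by exact_mod_cast hb
  rw [sub_le_iff_le_add, div_le_iff₀ hb']
  linarith

/-- The numbers. -/
theorem nums (k a n : ℕ) (hk : 2 ≤ k) (ha : 1 ≤ a) (hn : a * (k : ℝ) ^ (1000 * k) ≤ n) (M Bn r : ℕ)
    (hM : M = k ^ (120 * k)) (hBn : Bn = k ^ (120 * k - 14)) (hr : r = a * k ^ (240 * k + 100)) :
    (0 : ℝ) < M ∧ (0 : ℝ) < Bn ∧ 2 ^ 60 * (a : ℝ) * (k : ℝ) ^ 40 ≤ n / M ∧
    Real.log M ≤ 120 * (k : ℝ) ^ 2 ∧ (n : ℝ) / Bn = (n / M) * (k : ℝ) ^ 14 ∧ r ≤ n ∧ 4 ≤ Bn ∧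
    (r : ℝ) = a * (M ^ 2 * (k : ℝ) ^ 100) ∧ (M : ℝ) = Bn * (k : ℝ) ^ 14 := by
  obtain ⟨K, hKdef⟩ : ∃ K : ℝ, K = k := ⟨_, rfl⟩
  rw [← hKdef] at hn ⊢
  have hK : 2 ≤ K := by
    rw [hKdef]
    exact_mod_cast hk
  have hK1 : 1 ≤ K := by linarith
  have haR : (1 : ℝ) ≤ a := by exact_mod_cast ha
  have hMR : (M : ℝ) = K ^ (120 * k) := by
    rw [hM, hKdef]
    push_cast
    rfl
  have hBR : (Bn : ℝ) = K ^ (120 * k - 14) := by
    rw [hBn, hKdef]
    push_cast
    rfl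
  have hrR : (r : ℝ) = a * K ^ (240 * k + 100) := by
    rw [hr, hKdef]
    push_cast
    rfl
  have hM0 : (0 : ℝ) < M := by rw [hMR]; positivity
  have hB0 : (0 : ℝ) < Bn := by rw [hBR]; positivity
  have hMB : (M : ℝ) = Bn * K ^ 14 := by
    rw [hMR, hBR, ← pow_add]
    congr 1
    omega
  refine ⟨hM0, hB0, ?_, ?_, ?_, ?_, ?_, ?_, hMB⟩
  · rw [le_div_iff₀ hM0]
    refine le_trans ?_ hn
    calc 2 ^ 60 * (a : ℝ) * K ^ 40 * M ≤ K ^ 60 * a * K ^ 40 * M := by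
          gcongr
      _ = a * K ^ (60 + 40 + 120 * k) := by rw [hMR, pow_add, pow_add]; ring
      _ ≤ a * K ^ (1000 * k) := mul_le_mul_of_nonneg_left
          (pow_le_pow_right₀ hK1 (by omega)) (by positivity)
  · have h1 : Real.log K ≤ K := by
      have := Real.log_le_sub_one_of_pos (x := K) (by linarith)
      linarith
    have h0 : 0 ≤ Real.log K := Real.log_nonneg hK1
    rw [hMR, Real.log_pow]
    push_cast
    rw [← hKdef]
    calc (120 * K) * Real.log K ≤ (120 * K) * K :=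
          mul_le_mul_of_nonneg_left h1 (by positivity)
      _ = _ := by ring
  · rw [hMB]
    field_simp
  · have h1 : a * K ^ (240 * k + 100) ≤ n := le_trans (mul_le_mul_of_nonneg_left
      (pow_le_pow_right₀ hK1 (by omega)) (by positivity)) hn
    rw [← hrR] at h1
    exact_mod_cast h1
  · rw [hBn]
    calc 4 = 2 ^ 2 := by norm_num
      _ ≤ k ^ 2 := Nat.pow_le_pow_left hk 2
      _ ≤ _ := Nat.pow_le_pow_right (by omega) (by omega)
  · rw [hrR, hMR, ← pow_mul, ← pow_add]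
    congr 2
    ring

/-- The fraction of bad inputs. -/
theorem frac (K a W M n r ℓ g s d : ℝ) (hK : 2 ≤ K) (ha : 1 ≤ a) (hM : 1 ≤ M)
    (hW : 2 ^ 60 * a * K ^ 40 ≤ W) (hn : n = W * M) (hr : r = a * (M ^ 2 * K ^ 100))
    (hrn : r ≤ n) (hℓ : ℓ ≤ K * n / r + 1) (hℓ1 : 1 ≤ ℓ) (hg : g ≤ n) (hg0 : 0 ≤ g)
    (hd : W / (2 * K ^ 36) ≤ d) (hds : d ≤ s) :
    Real.exp (-(s ^ 2 / (r * ℓ ^ 2 + g))) + Real.exp (-(d ^ 2 / (16 * (r * ℓ ^ 2 + g)))) ≤
      1 / 2 / Real.exp (a * Real.log 2) := by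
  have hℓ0 : 0 ≤ ℓ := by linarith
  have hK0 : 0 < K := by linarith
  have hK1 : 1 ≤ K := by linarith
  have ha0 : 0 < a := by linarith
  have hM0 : 0 < M := by linarith
  have hW0 : 0 < W := lt_of_lt_of_le (by positivity) hW
  have hn0 : 0 < n := by rw [hn]; positivity
  have hr0 : 0 < r := by rw [hr]; positivity
  have hd0 : 0 < d := lt_of_lt_of_le (by positivity) hd
  -- `C`
  have h1 : ℓ ≤ 2 * K * n / r := by
    have h2 : 1 ≤ K * n / r := by
      rw [le_div_iff₀ hr0]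
      nlinarith
    calc ℓ ≤ K * n / r + 1 := hℓ
      _ ≤ K * n / r + K * n / r := by linarith
      _ = _ := by ring
  have h2 : r * ℓ ^ 2 ≤ 4 * K ^ 2 * n ^ 2 / r := by
    calc r * ℓ ^ 2 ≤ r * (2 * K * n / r) ^ 2 :=
          mul_le_mul_of_nonneg_left (pow_le_pow_left₀ hℓ0 h1 2) hr0.le
      _ = _ := by
          field_simp
          ring
  have h3 : n ≤ 4 * K ^ 2 * n ^ 2 / r := by
    rw [le_div_iff₀ hr0]
    calc n * r ≤ n * n := mul_le_mul_of_nonneg_left hrn hn0.le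
      _ = 1 * n ^ 2 := by ring
      _ ≤ 4 * K ^ 2 * n ^ 2 := by
          refine mul_le_mul_of_nonneg_right ?_ (by positivity)
          nlinarith
  have h4 : r * ℓ ^ 2 + g ≤ 8 * W ^ 2 / (a * K ^ 98) := by
    calc r * ℓ ^ 2 + g ≤ 8 * K ^ 2 * n ^ 2 / r := by
          have : 8 * K ^ 2 * n ^ 2 / r = 4 * K ^ 2 * n ^ 2 / r + 4 * K ^ 2 * n ^ 2 / r := by ring
          linarith
      _ = _ := by
          rw [hr, hn]
          field_simp
  have h5 : (a + 2) * (16 * (r * ℓ ^ 2 + g)) ≤ d ^ 2 := by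
    have h6 : (W / (2 * K ^ 36)) ^ 2 ≤ d ^ 2 := pow_le_pow_left₀ (by positivity) hd 2
    refine le_trans ?_ h6
    calc (a + 2) * (16 * (r * ℓ ^ 2 + g)) ≤ (3 * a) * (16 * (8 * W ^ 2 / (a * K ^ 98))) := by
          refine mul_le_mul (by linarith) (by linarith) ?_ (by positivity)
          positivity
      _ = 384 * W ^ 2 / K ^ 98 := by
          field_simp
          ring
      _ ≤ (W / (2 * K ^ 36)) ^ 2 := by
          rw [div_pow, div_le_div_iff₀ (by positivity) (by positivity)]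
          have h7 : (1536 : ℝ) ≤ K ^ 26 := by
            calc (1536 : ℝ) ≤ 2 ^ 26 := by norm_num
              _ ≤ _ := pow_le_pow_left₀ (by norm_num) hK 26
          calc 384 * W ^ 2 * (2 * K ^ 36) ^ 2 = W ^ 2 * (1536 * K ^ 72) := by ring
            _ ≤ W ^ 2 * (K ^ 26 * K ^ 72) := by gcongr
            _ = _ := by ring
  have hC0 : 0 < r * ℓ ^ 2 + g := by
    have : 0 < r * ℓ ^ 2 := by positivity
    linarith
  have hexp : Real.exp (-(a + 2)) ≤ 1 / 2 ^ 2 / Real.exp (a * Real.log 2) := by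
    have h8 : Real.exp (-(a + 2)) = Real.exp (-2) * Real.exp (-a) := by
      rw [← Real.exp_add]
      congr 1
      ring
    have h9 : Real.exp (-2 : ℝ) ≤ 1 / 2 ^ 2 := by
      rw [Real.exp_neg, ← one_div]
      refine one_div_le_one_div_of_le (by norm_num) ?_
      have : (2 : ℝ) ≤ Real.exp 1 := by
        have := Real.add_one_le_exp (1 : ℝ)
        linarith
      calc (2 : ℝ) ^ 2 ≤ Real.exp 1 ^ 2 := pow_le_pow_left₀ (by norm_num) this 2
        _ = Real.exp 2 := by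
          rw [← Real.exp_nat_mul]
          norm_num
    have h10 : Real.exp (-a) ≤ 1 / Real.exp (a * Real.log 2) := by
      rw [Real.exp_neg, ← one_div]
      refine one_div_le_one_div_of_le (Real.exp_pos _) (Real.exp_le_exp.2 ?_)
      have := Real.log_two_lt_d9
      nlinarith
    rw [h8]
    calc Real.exp (-2) * Real.exp (-a) ≤ (1 / 2 ^ 2) * (1 / Real.exp (a * Real.log 2)) :=
          mul_le_mul h9 h10 (Real.exp_pos _).le (by positivity)
      _ = _ := by rw [mul_one_div]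
  have h6 : a + 2 ≤ d ^ 2 / (16 * (r * ℓ ^ 2 + g)) := by
    rw [le_div_iff₀ (by positivity)]
    exact h5
  have h7 : a + 2 ≤ s ^ 2 / (r * ℓ ^ 2 + g) := by
    rw [le_div_iff₀ hC0]
    have h8 : d ^ 2 ≤ s ^ 2 := pow_le_pow_left₀ hd0.le hds 2
    have h9 : (a + 2) * (r * ℓ ^ 2 + g) ≤ (a + 2) * (16 * (r * ℓ ^ 2 + g)) :=
      mul_le_mul_of_nonneg_left (by linarith) (by linarith)
    linarith
  have e1 := Real.exp_le_exp.2 (neg_le_neg h6)
  have e2 := Real.exp_le_exp.2 (neg_le_neg h7)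
  have e3 : 1 / 2 / Real.exp (a * Real.log 2) = 1 / 2 ^ 2 / Real.exp (a * Real.log 2) +
      1 / 2 ^ 2 / Real.exp (a * Real.log 2) := by ring
  rw [e3]
  linarith

end CoreX

open CoreX in
open scoped Classical in
theorem coreX (k a n : ℕ) (hk : 2 ≤ k) (ha : 1 ≤ a) (hn : a * (k : ℝ) ^ (1000 * k) ≤ n)
    {β ι : Type} [Fintype ι]
    (S : Finset (Fin n → Bool)) (w : (Fin n → Bool) → ι)
    (sg : Fin (a * k ^ (240 * k + 100)) → (Fin n → Bool) → β) (dm : β → Finset (Fin n))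
    (hℓ : ∀ x ∈ S, ∀ j, (dm (sg j x)).card ≤ k * n / (a * k ^ (240 * k + 100)) + 1)
    (hK : ∀ x ∈ S, ∑ j, (dm (sg j x)).card ≤ k * n)
    (hcl : ∀ u, DPC n (a * k ^ (240 * k + 100)) (S.filter (fun x => w x = u)) sg dm)
    (hι : (Fintype.card ι : ℝ) ≤ Real.exp (n / (k : ℝ) ^ (120 * k) / 100000))
    (f : (Fin n → Bool) → ℝ) (hf : ∀ x, |f x| ≤ 1)
    (hd : ∀ s : ℕ, n / (k : ℝ) ^ (120 * k) / 16 ≤ s → DiscX f s
      (2 ^ s * Real.exp (-((s : ℝ) / 1000))) (Real.exp ((s : ℝ) / 100))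
      (Real.exp (-((s : ℝ) / 1000)))) :
    |∑ x ∈ S, f x| ≤ S.card / 2 ^ a +
      2 ^ n * Real.exp (-(n / (k : ℝ) ^ (120 * k) / 20000)) := by
  obtain ⟨M, hM⟩ : ∃ M : ℕ, M = k ^ (120 * k) := ⟨_, rfl⟩
  obtain ⟨Bn, hBn⟩ : ∃ Bn : ℕ, Bn = k ^ (120 * k - 14) := ⟨_, rfl⟩
  obtain ⟨r, hr⟩ : ∃ r : ℕ, r = a * k ^ (240 * k + 100) := ⟨_, rfl⟩
  obtain ⟨hM0, hB0, hWK, hlM, hnB, hrn, hB4, hrM, hMB⟩ := nums k a n hk ha hn M Bn r hM hBn hr
  subst hr
  have hkR : (2 : ℝ) ≤ k := by exact_mod_cast hk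
  have haR : (1 : ℝ) ≤ a := by exact_mod_cast ha
  have hK0 : (0 : ℝ) < k := by linarith
  have hK1 : (1 : ℝ) ≤ k := by linarith
  have hM0' : 0 < M := by exact_mod_cast hM0
  have hM1 : (1 : ℝ) ≤ M := by exact_mod_cast hM0'
  have hB0' : 0 < Bn := by exact_mod_cast hB0
  have hnR : (0 : ℝ) < n := lt_of_lt_of_le (by positivity) hn
  have hn1 : 1 ≤ n := by exact_mod_cast hnR
  have hMk : (k : ℝ) ^ (120 * k) = M := by
    rw [hM]
    push_cast
    rfl
  rw [hMk] at hι hd ⊢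
  obtain ⟨W, hW⟩ : ∃ W : ℝ, W = n / M := ⟨_, rfl⟩
  rw [← hW] at hWK hnB hι hd ⊢
  have hnWM : (n : ℝ) = W * M := by
    rw [hW]
    field_simp
  obtain ⟨s, hs⟩ : ∃ s, s = n / (8 * M) := ⟨_, rfl⟩
  obtain ⟨g, hg⟩ : ∃ g, g = n / Bn := ⟨_, rfl⟩
  obtain ⟨d, hdd⟩ : ∃ d, d = g / k ^ 50 := ⟨_, rfl⟩
  have hqm : (k ^ 60) ^ (2 * k) = M := by
    rw [hM, ← pow_mul]
    congr 1
    ring
  -- the sizes
  have hk40 : (1 : ℝ) ≤ (k : ℝ) ^ 40 := one_le_pow₀ hK1
  have hW0 : 0 < W := lt_of_lt_of_le (by positivity) hWK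
  have hW60 : (2 : ℝ) ^ 60 * (k : ℝ) ^ 40 ≤ W := by
    refine le_trans ?_ hWK
    refine mul_le_mul_of_nonneg_right ?_ (by positivity)
    nlinarith
  have hWa : (2 : ℝ) ^ 60 * a ≤ W := by
    refine le_trans ?_ hWK
    exact le_mul_of_one_le_right (by positivity) hk40
  have hW20 : (2 : ℝ) ^ 60 ≤ W := by linarith
  have hs1 : W / 8 - 1 ≤ s := by
    have h1 := div_ge n (8 * M) (by omega)
    rw [← hs] at h1
    refine le_trans (le_of_eq ?_) h1
    rw [hW]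
    push_cast
    field_simp
  have hs2 : (s : ℝ) ≤ W / 8 := by
    rw [hs, hW]
    refine Nat.cast_div_le.trans (le_of_eq ?_)
    push_cast
    field_simp
  have hs3 : W / 16 ≤ s := by linarith
  have hq1 : W * (k : ℝ) ^ 14 - 1 ≤ g := by
    rw [← hnB, hg]
    exact div_ge n Bn hB0'
  have hq2 : (g : ℝ) ≤ W * (k : ℝ) ^ 14 := by
    rw [← hnB, hg]
    exact Nat.cast_div_le
  have hdR : (d : ℝ) ≤ W / (k : ℝ) ^ 36 := by
    rw [hdd]
    refine Nat.cast_div_le.trans ?_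
    push_cast
    rw [div_le_div_iff₀ (by positivity) (by positivity)]
    calc (g : ℝ) * (k : ℝ) ^ 36 ≤ (W * (k : ℝ) ^ 14) * (k : ℝ) ^ 36 :=
          mul_le_mul_of_nonneg_right hq2 (by positivity)
      _ = _ := by ring
  have hd1 : W / (2 * (k : ℝ) ^ 36) ≤ d := by
    have h1 := div_ge g (k ^ 50) (by positivity)
    rw [← hdd] at h1
    push_cast at h1
    have h2 : (W * (k : ℝ) ^ 14 - 1) / (k : ℝ) ^ 50 ≤ g / (k : ℝ) ^ 50 :=
      div_le_div_of_nonneg_right hq1 (by positivity)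
    have h3 : (W * (k : ℝ) ^ 14 - 1) / (k : ℝ) ^ 50 = W / (k : ℝ) ^ 36 - 1 / (k : ℝ) ^ 50 := by
      field_simp
    have h4 : 1 / (k : ℝ) ^ 50 ≤ 1 := by
      rw [div_le_one (by positivity)]
      exact one_le_pow₀ hK1
    have h5 : W / (k : ℝ) ^ 36 = W / (2 * (k : ℝ) ^ 36) + W / (2 * (k : ℝ) ^ 36) := by
      field_simp
      norm_num
    have h6 : (2 : ℝ) ≤ W / (2 * (k : ℝ) ^ 36) := by
      rw [le_div_iff₀ (by positivity)]
      refine le_trans ?_ hW60
      have h7 : (k : ℝ) ^ 36 ≤ (k : ℝ) ^ 40 := pow_le_pow_right₀ hK1 (by norm_num)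
      nlinarith
    linarith
  have hds : (d : ℝ) ≤ s := by
    have h1 : W / (k : ℝ) ^ 36 ≤ W / 16 := by
      refine div_le_div_of_nonneg_left hW0.le (by norm_num) ?_
      calc (16 : ℝ) ≤ 2 ^ 36 := by norm_num
        _ ≤ _ := pow_le_pow_left₀ (by norm_num) hkR 36
    linarith
  have hsn : s ≤ n := by
    rw [hs]
    exact Nat.div_le_self _ _
  have hgn : g ≤ n := by
    rw [hg]
    exact Nat.div_le_self _ _
  have hdn : d ≤ n := by
    rw [hdd]
    exact (Nat.div_le_self _ _).trans hgn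
  have hrpos : 0 < a * k ^ (240 * k + 100) := by positivity
  have hrl : n ≤ a * k ^ (240 * k + 100) * (k * n / (a * k ^ (240 * k + 100)) + 1) := by
    have h1 : k * n < a * k ^ (240 * k + 100) * (k * n / (a * k ^ (240 * k + 100)) + 1) :=
      Nat.lt_mul_div_succ _ hrpos
    have h2 : n ≤ k * n := Nat.le_mul_of_pos_left n (by omega)
    omega
  have h2kn : 2 * k * n ≤ Bn * k ^ 60 * d := by
    have h1 : (2 : ℝ) * k * n ≤ Bn * (k : ℝ) ^ 60 * d := by
      have h2 : (Bn : ℝ) * (k : ℝ) ^ 60 * (W / (2 * (k : ℝ) ^ 36)) ≤ Bn * (k : ℝ) ^ 60 * d :=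
        mul_le_mul_of_nonneg_left hd1 (by positivity)
      have h3 : (Bn : ℝ) * (k : ℝ) ^ 60 * (W / (2 * (k : ℝ) ^ 36)) = n * (k : ℝ) ^ 10 / 2 := by
        rw [hnWM, hMB]
        field_simp
      have h4 : 4 * (k : ℝ) ≤ (k : ℝ) ^ 10 := by
        have h5 : (k : ℝ) ^ 10 = (k : ℝ) ^ 9 * k := by ring
        have h6 : (2 : ℝ) ^ 9 ≤ (k : ℝ) ^ 9 := pow_le_pow_left₀ (by norm_num) hkR 9
        rw [h5]
        nlinarith
      have h5 : (n : ℝ) * (4 * k) ≤ n * (k : ℝ) ^ 10 := mul_le_mul_of_nonneg_left h4 hnR.le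
      linarith
    exact_mod_cast h1
  obtain ⟨J, G, hGc, hbad⟩ := RBP.tSelL n (a * k ^ (240 * k + 100)) (k ^ 60) (2 * k) k
    (k * n / (a * k ^ (240 * k + 100)) + 1) g Bn s d β S sg dm hℓ hK
    (Nat.one_le_pow _ _ (by omega)) hn1 (Nat.le_add_left 1 _) (by omega) hB4 (by
      rw [hg, Nat.mul_comm]
      exact Nat.mul_div_le _ _) (by
      rw [hqm, hs]
      exact Nat.mul_div_le _ _) h2kn (hsn.trans hrl) (hdn.trans hrl)
  -- the bad inputs
  have hfrac := frac (k : ℝ) a W M n ((a * k ^ (240 * k + 100) : ℕ) : ℝ)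
      ((k * n / (a * k ^ (240 * k + 100)) + 1 : ℕ) : ℝ) g s d hkR haR hM1 hWK hnWM hrM
      (by exact_mod_cast hrn) (by
        push_cast
        have h2 : ((k * n / (a * k ^ (240 * k + 100)) : ℕ) : ℝ) ≤
            ((k * n : ℕ) : ℝ) / ((a * k ^ (240 * k + 100) : ℕ) : ℝ) := Nat.cast_div_le
        push_cast at h2
        linarith) (by
        push_cast
        have : (0 : ℝ) ≤ ((k * n / (a * k ^ (240 * k + 100)) : ℕ) : ℝ) := Nat.cast_nonneg _
        linarith) (by exact_mod_cast hgn) (Nat.cast_nonneg _) hd1 hds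
  rw [Real.exp_nat_mul, Real.exp_log (by norm_num)] at hfrac
  obtain ⟨S', hS'⟩ : ∃ S', S' = Gd S sg dm J G s d := ⟨_, rfl⟩
  rw [← hS'] at hbad
  have hSS : S' ⊆ S := by
    rw [hS']
    exact filter_subset _ _
  have hbad' : ((S \ S').card : ℝ) ≤ 1 / 2 / 2 ^ a * S.card := by
    have h1 : ((S \ S').card : ℝ) = S.card - S'.card := by
      rw [card_sdiff_of_subset hSS, Nat.cast_sub (card_le_card hSS)]
    rw [h1]
    exact hbad.trans (mul_le_mul_of_nonneg_right hfrac (Nat.cast_nonneg _))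
  -- the good inputs
  obtain ⟨bl, hbl⟩ : ∃ bl, bl = (G.powerset.filter (fun S => S.card ≤ d)).card := ⟨_, rfl⟩
  obtain ⟨X, hX⟩ : ∃ X : ℝ, X = (2 ^ s * Real.exp (-((s : ℝ) / 1000))) * (2 ^ n * bl / 2 ^ s) +
      Real.exp ((s : ℝ) / 100) * (2 ^ n * n.choose s / 2 ^ (g - d)) := ⟨_, rfl⟩
  obtain ⟨η, hη⟩ : ∃ η : ℝ, η = Real.exp (-((s : ℝ) / 1000)) := ⟨_, rfl⟩
  have hη0 : 0 < η := by rw [hη]; exact Real.exp_pos _
  have hX0 : 0 ≤ X := by rw [hX]; positivity
  have hgood : |∑ x ∈ S', f x| ≤ η * S'.card + Fintype.card ι * X := by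
    have h1 : ∀ u : ι, S'.filter (fun x => w x = u) =
        Gd (S.filter (fun x => w x = u)) sg dm J G s d := by
      intro u
      rw [hS']
      unfold Gd
      rw [filter_filter, filter_filter]
      exact filter_congr (fun x _ => by tauto)
    have h2 : ∑ x ∈ S', f x = ∑ u : ι, ∑ x ∈ S'.filter (fun x => w x = u), f x :=
      (sum_fiberwise_of_maps_to (fun x _ => mem_univ (w x)) _).symm
    have h3 : (S'.card : ℝ) = ∑ u : ι, ((S'.filter (fun x => w x = u)).card : ℝ) := by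
      have := card_eq_sum_card_fiberwise (f := w) (s := S') (t := univ) (fun x _ => mem_coe.2 (mem_univ _))
      rw [this]
      push_cast
      rfl
    rw [h2, h3]
    refine (abs_sum_le_sum_abs _ _).trans ?_
    rw [mul_sum, ← card_univ, ← nsmul_eq_mul, ← sum_const, ← sum_add_distrib]
    refine sum_le_sum (fun u _ => ?_)
    rw [h1 u]
    have h4 := partX (hcl u) J G s d f (2 ^ s * Real.exp (-((s : ℝ) / 1000)))
      (Real.exp ((s : ℝ) / 100)) η hf (by positivity) (Real.exp_pos _).le hη0.le (by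
        rw [hη]
        exact hd s hs3)
    rw [← hbl, hGc] at h4
    rw [hX]
    exact h4
  have hlogK : Real.log k ≤ k := by
    have := Real.log_le_sub_one_of_pos hK0
    linarith
  have hlogK0 : 0 ≤ Real.log k := Real.log_nonneg hK1
  have hbl0 : 0 < bl := by
    rw [hbl]
    exact card_pos.2 ⟨∅, mem_filter.2 ⟨mem_powerset.2 (empty_subset _), by simp⟩⟩
  have hlbl : Real.log bl ≤ W / 1000000 := by
    have h1 := log_small G d (((k : ℝ) ^ 40)⁻¹) (by positivity)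
      (inv_le_one_of_one_le₀ (one_le_pow₀ hK1))
    rw [← hbl, hGc, Real.log_inv, neg_neg, Real.log_pow] at h1
    push_cast at h1
    have h2 : ((k : ℝ) ^ 40)⁻¹ * g ≤ W / (k : ℝ) ^ 26 := by
      calc ((k : ℝ) ^ 40)⁻¹ * g ≤ ((k : ℝ) ^ 40)⁻¹ * (W * (k : ℝ) ^ 14) :=
            mul_le_mul_of_nonneg_left hq2 (by positivity)
        _ = _ := by field_simp
    have h3 : (d : ℝ) * (40 * Real.log k) ≤ 40 * (W / (k : ℝ) ^ 35) := by
      calc (d : ℝ) * (40 * Real.log k) ≤ (W / (k : ℝ) ^ 36) * (40 * k) :=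
            mul_le_mul hdR (by linarith) (by positivity) (by positivity)
        _ = 40 * (W / (k : ℝ) ^ 35) := by field_simp
    have h4 : W / (k : ℝ) ^ 26 ≤ W / 2 ^ 26 :=
      div_le_div_of_nonneg_left hW0.le (by positivity) (pow_le_pow_left₀ (by norm_num) hkR 26)
    have h5 : W / (k : ℝ) ^ 35 ≤ W / 2 ^ 35 :=
      div_le_div_of_nonneg_left hW0.le (by positivity) (pow_le_pow_left₀ (by norm_num) hkR 35)
    have h6 : W / 2 ^ 26 + 40 * (W / 2 ^ 35) ≤ W / 1000000 := by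
      have : W / 2 ^ 26 + 40 * (W / 2 ^ 35) = W * (1 / 2 ^ 26 + 40 / 2 ^ 35) := by ring
      rw [this, div_eq_mul_one_div W]
      refine mul_le_mul_of_nonneg_left ?_ hW0.le
      norm_num
    linarith
  have hC0 : 0 < n.choose s := Nat.choose_pos hsn
  have hC0' : (0 : ℝ) < n.choose s := by exact_mod_cast hC0
  have hbl0' : (0 : ℝ) < bl := by exact_mod_cast hbl0
  have hlC : Real.log (n.choose s) ≤ W + 15 * ((k : ℝ) ^ 2 * W) := by
    have h0 : (n.choose s : ℝ) ≤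
        (((univ : Finset (Fin n)).powerset.filter (fun S => S.card ≤ s)).card : ℝ) := by
      exact_mod_cast choose_le_ball n s
    have h1 := log_small (univ : Finset (Fin n)) s ((M : ℝ)⁻¹) (by positivity)
      (inv_le_one_of_one_le₀ hM1)
    rw [card_univ, Fintype.card_fin, Real.log_inv, neg_neg] at h1
    have h2 := Real.log_le_log hC0' h0
    have h3 : (M : ℝ)⁻¹ * n = W := by
      rw [hW]
      field_simp
    have h4 : (s : ℝ) * Real.log M ≤ (W / 8) * (120 * (k : ℝ) ^ 2) :=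
      mul_le_mul hs2 hlM (Real.log_nonneg hM1) (by positivity)
    rw [h3] at h1
    linarith
  have ht : 4096 * ((k : ℝ) ^ 2 * W) - 1 - W ≤ ((g - d : ℕ) : ℝ) := by
    have h1 : (g : ℝ) - d ≤ ((g - d : ℕ) : ℝ) := by
      rcases le_total d g with h | h
      · rw [Nat.cast_sub h]
      · have : (g : ℝ) ≤ d := by exact_mod_cast h
        have h2 : (0 : ℝ) ≤ ((g - d : ℕ) : ℝ) := Nat.cast_nonneg _
        linarith
    have h2 : W / (k : ℝ) ^ 36 ≤ W := div_le_self hW0.le (one_le_pow₀ hK1)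
    have h3 : 4096 * ((k : ℝ) ^ 2 * W) ≤ W * (k : ℝ) ^ 14 := by
      have h4 : (4096 : ℝ) ≤ (k : ℝ) ^ 12 := by
        calc (4096 : ℝ) = 2 ^ 12 := by norm_num
          _ ≤ _ := pow_le_pow_left₀ (by norm_num) hkR 12
      calc 4096 * ((k : ℝ) ^ 2 * W) ≤ (k : ℝ) ^ 12 * ((k : ℝ) ^ 2 * W) :=
            mul_le_mul_of_nonneg_right h4 (by positivity)
        _ = _ := by ring
    linarith
  have l1 := Real.log_two_gt_d9
  have l2 := Real.log_two_lt_d9
  have hr1 : (2 ^ s * Real.exp (-((s : ℝ) / 1000))) * (2 ^ n * bl / 2 ^ s) ≤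
      2 ^ n * Real.exp (-(W / 10000)) := by
    have h1 : (2 ^ s * Real.exp (-((s : ℝ) / 1000))) * (2 ^ n * bl / 2 ^ s) =
        2 ^ n * (Real.exp (-((s : ℝ) / 1000)) * bl) := by
      field_simp
    rw [h1]
    refine mul_le_mul_of_nonneg_left ?_ (by positivity)
    have h2 : (bl : ℝ) ≤ Real.exp (W / 1000000) := by
      rw [← Real.log_le_iff_le_exp hbl0']
      exact hlbl
    calc Real.exp (-((s : ℝ) / 1000)) * bl ≤ Real.exp (-((s : ℝ) / 1000)) *
          Real.exp (W / 1000000) := mul_le_mul_of_nonneg_left h2 (Real.exp_pos _).le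
      _ = Real.exp (-((s : ℝ) / 1000) + W / 1000000) := (Real.exp_add _ _).symm
      _ ≤ _ := Real.exp_le_exp.2 (by linarith)
  have hr2 : Real.exp ((s : ℝ) / 100) * (2 ^ n * n.choose s / 2 ^ (g - d)) ≤
      2 ^ n * Real.exp (-(W / 10000)) := by
    have h0 : Real.exp ((s : ℝ) / 100) * (2 ^ n * n.choose s / 2 ^ (g - d)) =
        2 ^ n * (Real.exp ((s : ℝ) / 100) * (n.choose s / 2 ^ (g - d))) := by ring
    rw [h0]
    refine mul_le_mul_of_nonneg_left ?_ (by positivity)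
    have h1 : (n.choose s : ℝ) / 2 ^ (g - d) ≤ Real.exp (-W) := by
      rw [← Real.log_le_iff_le_exp (by positivity), Real.log_div hC0'.ne' (by positivity),
        Real.log_pow]
      obtain ⟨p, hp⟩ : ∃ p, p = (k : ℝ) ^ 2 * W := ⟨_, rfl⟩
      rw [← hp] at ht hlC
      have hk4 : (4 : ℝ) ≤ (k : ℝ) ^ 2 := by nlinarith
      have hpW : 4 * W ≤ p := by
        rw [hp]
        exact mul_le_mul_of_nonneg_right hk4 hW0.le
      have h3 : (4096 * p - 1 - W) * 0.69 ≤ ((g - d : ℕ) : ℝ) * Real.log 2 := by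
        have h4 : 0 ≤ 4096 * p - 1 - W := by linarith
        calc (4096 * p - 1 - W) * 0.69 ≤ (4096 * p - 1 - W) * Real.log 2 :=
              mul_le_mul_of_nonneg_left (by linarith) h4
          _ ≤ _ := mul_le_mul_of_nonneg_right ht (by linarith)
      linarith
    calc Real.exp ((s : ℝ) / 100) * (n.choose s / 2 ^ (g - d)) ≤
          Real.exp ((s : ℝ) / 100) * Real.exp (-W) :=
          mul_le_mul_of_nonneg_left h1 (Real.exp_pos _).le
      _ = Real.exp ((s : ℝ) / 100 + -W) := (Real.exp_add _ _).symm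
      _ ≤ _ := Real.exp_le_exp.2 (by linarith)
  have h2e : ∀ y : ℝ, 1 ≤ y → (2 : ℝ) ≤ Real.exp y := by
    intro y hy
    have := Real.add_one_le_exp y
    linarith
  have hXX : Fintype.card ι * X ≤ 2 ^ n * Real.exp (-(W / 20000)) := by
    have h1 : X ≤ 2 ^ n * (2 * Real.exp (-(W / 10000))) := by
      rw [hX]
      linarith
    calc Fintype.card ι * X ≤ Real.exp (W / 100000) * (2 ^ n * (2 * Real.exp (-(W / 10000)))) :=
          mul_le_mul hι h1 hX0 (Real.exp_pos _).le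
      _ ≤ Real.exp (W / 100000) * (2 ^ n * (Real.exp (W / 100000) * Real.exp (-(W / 10000)))) := by
          have := h2e (W / 100000) (by linarith)
          gcongr
      _ = 2 ^ n * Real.exp (W / 100000 + W / 100000 + -(W / 10000)) := by
          rw [Real.exp_add, Real.exp_add]
          ring
      _ ≤ 2 ^ n * Real.exp (-(W / 20000)) := by
          refine mul_le_mul_of_nonneg_left (Real.exp_le_exp.2 ?_) (by positivity)
          linarith
  have hηa : η ≤ 1 / 2 / 2 ^ a := by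
    have h1 : (1 : ℝ) / 2 / 2 ^ a = Real.exp (-((a + 1 : ℕ) * Real.log 2)) := by
      rw [Real.exp_neg, Real.exp_nat_mul, Real.exp_log (by norm_num), pow_succ]
      field_simp
    rw [h1, hη]
    refine Real.exp_le_exp.2 (neg_le_neg ?_)
    push_cast
    have h2 : ((a : ℝ) + 1) * Real.log 2 ≤ ((a : ℝ) + 1) * 1 :=
      mul_le_mul_of_nonneg_left (by linarith) (by linarith)
    linarith
  -- the end
  have hrest : |∑ x ∈ S \ S', f x| ≤ (S \ S').card := by
    refine (abs_sum_le_sum_abs _ _).trans ?_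
    refine (sum_le_sum (fun x _ => hf x)).trans (le_of_eq ?_)
    rw [sum_const, nsmul_eq_mul, mul_one]
  have hsplit : ∑ x ∈ S, f x = ∑ x ∈ S \ S', f x + ∑ x ∈ S', f x := (sum_sdiff hSS).symm
  have hcard : (S'.card : ℝ) ≤ S.card := by exact_mod_cast card_le_card hSS
  rw [hsplit]
  calc |∑ x ∈ S \ S', f x + ∑ x ∈ S', f x| ≤ |∑ x ∈ S \ S', f x| + |∑ x ∈ S', f x| :=
        abs_add_le _ _
    _ ≤ 1 / 2 / 2 ^ a * S.card + (1 / 2 / 2 ^ a * S.card + 2 ^ n * Real.exp (-(W / 20000))) := by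
        refine add_le_add (hrest.trans hbad') (hgood.trans (add_le_add ?_ hXX))
        exact mul_le_mul hηa hcard (Nat.cast_nonneg _) (by positivity)
    _ = _ := by ring

end SRBP
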