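import Pool.Agent.Lib.MP_9dcf40_lc.DTR.QCount

/-!
# Theorem DTX (MP_9dcf40_lc): exponentially small discrepancy of quartic polynomials
-/

namespace SRBP

open Finset

namespace DX

variable {n : ℕ}

open scoped Classical in
/-- Number of functions with given values on `S`. -/
theorem agree_card (S : Finset (Fin n)) (b : Fin n → Bool) :
    ((univ : Finset (Fin n → Bool)).filter (fun y => ∀ v ∈ S, y v = b v)).card * 2 ^ S.card =
      2 ^ n := by
  have h1 : (univ : Finset (Fin n → Bool)).filter (fun y => ∀ v ∈ S, y v = b v) =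
      Fintype.piFinset (fun v => if v ∈ S then {b v} else univ) := by
    ext y
    rw [mem_filter, Fintype.mem_piFinset]
    constructor
    · rintro ⟨-, h⟩ v
      by_cases hv : v ∈ S
      · rw [if_pos hv, mem_singleton]
        exact h v hv
      · rw [if_neg hv]
        exact mem_univ _
    · intro h
      refine ⟨mem_univ _, fun v hv => ?_⟩
      have := h v
      rw [if_pos hv, mem_singleton] at this
      exact this
  have h2 : (∏ v : Fin n, (if v ∈ S then ({b v} : Finset Bool) else univ).card) =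
      2 ^ (univ \ S).card := by
    rw [← prod_const, ← prod_sdiff (subset_univ S)]
    rw [prod_congr rfl (g := fun _ => 2) (fun v hv => by
      rw [if_neg (mem_sdiff.1 hv).2, card_univ, Fintype.card_bool])]
    rw [prod_eq_one (s := S) (fun v hv => by rw [if_pos hv, card_singleton]), mul_one]
  rw [h1, Fintype.card_piFinset, h2, ← pow_add,
    card_sdiff_add_card_eq_card (subset_univ S), card_univ, Fintype.card_fin]

theorem glue_in {U : Finset (Fin n)} {a b : Fin n → Bool} {v : Fin n} (h : v ∈ U) :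
    glue U a b v = a v := if_pos h

theorem glue_out {U : Finset (Fin n)} {a b : Fin n → Bool} {v : Fin n} (h : v ∉ U) :
    glue U a b v = b v := if_neg h

open scoped Classical in
/-- Few `y` are orthogonal. -/
theorem few_y {m w : ℕ} {c : Coef n → Bool} {X Y Z : Finset (Fin n)} {z z' b b' : Fin n → Bool}
    (hA : Adm m X Y Z z z' b b') (hc : ¬ Str c w X Y Z z z' b b') (y' : Fin n → Bool) :
    ((univ : Finset (Fin n → Bool)).filter
      (fun y => ∀ i ∈ X, L c X Y Z i y y' z z' b b' = 0)).card * 2 ^ m ≤ 2 ^ n * (n + 1) ^ w := by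
  have hYc : Y.card = m := hA.2.2.2.2.1
  obtain ⟨A, hAd⟩ : ∃ A, A = (univ : Finset (Fin n → Bool)).filter (fun y =>
    (∀ v, v ∉ Y → y v = false) ∧ ∀ i ∈ X, L c X Y Z i y y' z z' b b' = 0) := ⟨_, rfl⟩
  have hAc : A.card ≤ (n + 1) ^ w := by
    by_contra hcon
    rw [not_le] at hcon
    obtain ⟨W, hWc, a, hconf, haA⟩ := DisQAux.shatter (d := w) A hcon
    have hWY : W ⊆ Y := by
      intro v hv
      by_contra hvY
      refine DisQAux.conf_diff hconf haA v (fun x hx x' hx' => ?_) hv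
      rw [hAd, mem_filter] at hx hx'
      rw [hx.2.1 v hvY, hx'.2.1 v hvY]
    have h0 : (∅ : Finset (Fin n)) ∈ two W := by simp [two]
    have h1 : ∀ t ∈ W, ({t} : Finset (Fin n)) ∈ two W := by
      intro t ht
      unfold two
      rw [mem_filter, mem_powerset, singleton_subset_iff, card_singleton]
      exact ⟨ht, by norm_num⟩
    refine hc ⟨W, hWY, hWc, a ∅, fun t => a {t}, ?_, ?_, ?_⟩
    · intro j hj
      rw [← Bool.not_eq_true, hconf ∅ h0 j hj]
      exact notMem_empty j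
    · intro t ht j hj
      rw [hconf {t} (h1 t ht) j hj, mem_singleton]
    · intro t ht i hi
      have e1 := haA {t} (h1 t ht)
      have e2 := haA ∅ h0
      rw [hAd, mem_filter] at e1 e2
      rw [← L_add c X Y Z i (a {t}) y' (a ∅) z z' b b', e1.2.2 i hi, e2.2.2 i hi, add_zero]
  obtain ⟨S, hS⟩ : ∃ S, S = (univ : Finset (Fin n → Bool)).filter
      (fun y => ∀ i ∈ X, L c X Y Z i y y' z z' b b' = 0) := ⟨_, rfl⟩
  obtain ⟨V, hV⟩ : ∃ V, V = (univ : Finset (Fin n → Bool)).filter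
      (fun y => ∀ v ∈ Y, y v = (fun _ : Fin n => false) v) := ⟨_, rfl⟩
  have hVc : V.card * 2 ^ m = 2 ^ n := by
    rw [hV, ← hYc]
    exact agree_card Y _
  have hSc : S.card ≤ A.card * V.card := by
    rw [← card_product]
    refine card_le_card_of_injOn (fun y => (glue Y y (fun _ => false), glue Y (fun _ => false) y))
      ?_ ?_
    · intro y hy
      rw [mem_coe, hS, mem_filter] at hy
      rw [mem_coe, mem_product, hAd, hV, mem_filter, mem_filter]
      refine ⟨⟨mem_univ _, fun v hv => ?_, fun i hi => ?_⟩, mem_univ _, fun v hv => ?_⟩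
      · show glue Y y (fun _ => false) v = false
        exact glue_out hv
      swap
      · show glue Y (fun _ => false) y v = false
        exact glue_in hv
      rw [← hy.2 i hi]
      refine L_congr c X Y Z i z z' b b' (fun v hv => ?_) (fun v _ => rfl)
      show glue Y y (fun _ => false) v = y v
      exact glue_in hv
    · intro y _ x _ he
      have e1 := congrArg Prod.fst he
      have e2 := congrArg Prod.snd he
      simp only at e1 e2
      funext v
      by_cases hv : v ∈ Y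
      · have := congrFun e1 v
        rwa [glue_in hv, glue_in hv] at this
      · have := congrFun e2 v
        rwa [glue_out hv, glue_out hv] at this
  rw [← hS]
  calc S.card * 2 ^ m ≤ A.card * V.card * 2 ^ m := Nat.mul_le_mul_right _ hSc
    _ = A.card * 2 ^ n := by rw [mul_assoc, hVc]
    _ ≤ (n + 1) ^ w * 2 ^ n := Nat.mul_le_mul_right _ hAc
    _ = _ := Nat.mul_comm _ _

/-- The fourth power, for good coefficients. -/
theorem AA_le {m w : ℕ} {c : Coef n → Bool} {X Y Z : Finset (Fin n)} {b b' : Fin n → Bool}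
    (hXY : Disjoint X Y) (hXZ : Disjoint X Z) (hYZ : Disjoint Y Z) (hX : X.card = 2 * m)
    (hY : Y.card = m) (hZ : m ≤ Z.card) (hb : ∃ v, v ∉ X ∧ v ∉ Y ∧ v ∉ Z ∧ b v ≠ b' v)
    (hc : ∀ z z', Adm m X Y Z z z' b b' → ¬ Str c w X Y Z z z' b b') :
    AA c X Y Z b b' ^ 4 ≤ (2 : ℝ) ^ (12 * n) * ((1 + ((n : ℝ) + 1) ^ w) / 2 ^ m) := by
  classical
  have h1 := AA_four c X Y Z b b'
  obtain ⟨N, hN⟩ : ∃ N : ℝ, N = 2 ^ n := ⟨_, rfl⟩
  have hN0 : 0 < N := by rw [hN]; positivity
  have hcard : ((Fintype.card (Fin n → Bool) : ℕ) : ℝ) = N := by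
    rw [Fintype.card_fun, Fintype.card_bool, Fintype.card_fin, hN]
    push_cast
    rfl
  have hm0 : (0 : ℝ) < 2 ^ m := by positivity
  -- the sum over `y`, `y'`
  have h2 : ∀ z z' : Fin n → Bool, (∑ y : Fin n → Bool, ∑ y' : Fin n → Bool,
      (if ∀ i ∈ X, L c X Y Z i y y' z z' b b' = 0 then (1 : ℝ) else 0)) ≤
      N ^ 2 * (if ∀ l ∈ Z, z' l = z l then 1 else 0) + N ^ 2 * (((n : ℝ) + 1) ^ w / 2 ^ m) := by
    intro z z'
    by_cases hz : ∀ l ∈ Z, z' l = z l
    · rw [if_pos hz]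
      have h3 : (∑ y : Fin n → Bool, ∑ y' : Fin n → Bool,
          (if ∀ i ∈ X, L c X Y Z i y y' z z' b b' = 0 then (1 : ℝ) else 0)) ≤
          ∑ _y : Fin n → Bool, ∑ _y' : Fin n → Bool, (1 : ℝ) := by
        refine sum_le_sum (fun y _ => sum_le_sum (fun y' _ => ?_))
        split_ifs <;> norm_num
      have h4 : ∑ _y : Fin n → Bool, ∑ _y' : Fin n → Bool, (1 : ℝ) = N ^ 2 := by
        rw [sum_const, sum_const, card_univ, nsmul_eq_mul, nsmul_eq_mul, hcard]
        ring
      have h5 : 0 ≤ N ^ 2 * (((n : ℝ) + 1) ^ w / 2 ^ m) := by positivity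
      linarith
    · rw [if_neg hz, mul_zero, zero_add]
      have hAdm : Adm m X Y Z z z' b b' := by
        refine ⟨hXY, hXZ, hYZ, hX, hY, ?_, hb⟩
        push Not at hz
        obtain ⟨l, hl, hne⟩ := hz
        exact ⟨l, hl, fun h => hne h.symm⟩
      rw [sum_comm]
      have h3 : ∀ y' : Fin n → Bool, (∑ y : Fin n → Bool,
          (if ∀ i ∈ X, L c X Y Z i y y' z z' b b' = 0 then (1 : ℝ) else 0)) ≤
          N * (((n : ℝ) + 1) ^ w / 2 ^ m) := by
        intro y'
        have h4 := few_y hAdm (hc z z' hAdm) y'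
        rw [sum_boole]
        have h5 : ((((univ : Finset (Fin n → Bool)).filter
            (fun y => ∀ i ∈ X, L c X Y Z i y y' z z' b b' = 0)).card : ℕ) : ℝ) * 2 ^ m ≤
            N * ((n : ℝ) + 1) ^ w := by
          rw [hN]
          exact_mod_cast h4
        rw [mul_div_assoc', le_div_iff₀ hm0]
        exact h5
      refine (sum_le_sum (fun y' _ => h3 y')).trans (le_of_eq ?_)
      rw [sum_const, card_univ, nsmul_eq_mul, hcard]
      ring
  have h3 : (∑ z : Fin n → Bool, ∑ z' : Fin n → Bool,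
      (if ∀ l ∈ Z, z' l = z l then (1 : ℝ) else 0)) ≤ N ^ 2 / 2 ^ m := by
    have h4 : ∀ z : Fin n → Bool, (∑ z' : Fin n → Bool,
        (if ∀ l ∈ Z, z' l = z l then (1 : ℝ) else 0)) ≤ N / 2 ^ m := by
      intro z
      rw [sum_boole, le_div_iff₀ hm0]
      have h5 := agree_card Z z
      have h6 : (((univ : Finset (Fin n → Bool)).filter (fun y => ∀ v ∈ Z, y v = z v)).card : ℝ) *
          2 ^ Z.card = N := by
        rw [hN]
        exact_mod_cast h5
      rw [← h6]
      exact mul_le_mul_of_nonneg_left (pow_le_pow_right₀ (by norm_num) hZ) (Nat.cast_nonneg _)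
    refine (sum_le_sum (fun z _ => h4 z)).trans (le_of_eq ?_)
    rw [sum_const, card_univ, nsmul_eq_mul, hcard]
    ring
  refine h1.trans ?_
  have h4 : ∑ z : Fin n → Bool, ∑ z' : Fin n → Bool, ∑ y : Fin n → Bool, ∑ y' : Fin n → Bool,
      (if ∀ i ∈ X, L c X Y Z i y y' z z' b b' = 0 then (1 : ℝ) else 0) ≤
      N ^ 4 * ((1 + ((n : ℝ) + 1) ^ w) / 2 ^ m) := by
    calc _ ≤ ∑ z : Fin n → Bool, ∑ z' : Fin n → Bool,
        (N ^ 2 * (if ∀ l ∈ Z, z' l = z l then 1 else 0) + N ^ 2 * (((n : ℝ) + 1) ^ w / 2 ^ m)) :=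
          sum_le_sum (fun z _ => sum_le_sum (fun z' _ => h2 z z'))
      _ = N ^ 2 * (∑ z : Fin n → Bool, ∑ z' : Fin n → Bool,
          (if ∀ l ∈ Z, z' l = z l then (1 : ℝ) else 0)) +
          N ^ 2 * (N ^ 2 * (((n : ℝ) + 1) ^ w / 2 ^ m)) := by
          simp only [sum_add_distrib, ← mul_sum, sum_const, card_univ, nsmul_eq_mul, hcard]
          ring
      _ ≤ N ^ 2 * (N ^ 2 / 2 ^ m) + N ^ 2 * (N ^ 2 * (((n : ℝ) + 1) ^ w / 2 ^ m)) := by
          have := mul_le_mul_of_nonneg_left h3 (by positivity : 0 ≤ N ^ 2)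
          linarith
      _ = _ := by
          field_simp
  calc (2 : ℝ) ^ (8 * n) * _ ≤ (2 : ℝ) ^ (8 * n) * (N ^ 4 * ((1 + ((n : ℝ) + 1) ^ w) / 2 ^ m)) :=
        mul_le_mul_of_nonneg_left h4 (by positivity)
    _ = _ := by
        rw [hN]
        ring

/-- The involution. -/
theorem sum_glue (X : Finset (Fin n)) (φ : (Fin n → Bool) → ℝ) :
    ∑ x : Fin n → Bool, ∑ a : Fin n → Bool, φ (glue X x a) = 2 ^ n * ∑ x : Fin n → Bool, φ x := by
  have h1 : Function.Involutive (fun p : (Fin n → Bool) × (Fin n → Bool) =>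
      (glue X p.1 p.2, glue X p.2 p.1)) := by
    rintro ⟨x, a⟩
    refine Prod.ext ?_ ?_
    · funext v
      by_cases hv : v ∈ X
      · simp only [glue_in hv]
      · simp only [glue_out hv]
    · funext v
      by_cases hv : v ∈ X
      · simp only [glue_in hv]
      · simp only [glue_out hv]
  have h2 := Equiv.sum_comp (Function.Involutive.toPerm _ h1)
    (fun p : (Fin n → Bool) × (Fin n → Bool) => φ p.1)
  have h3 : ∑ x : Fin n → Bool, ∑ a : Fin n → Bool, φ (glue X x a) =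
      ∑ p : (Fin n → Bool) × (Fin n → Bool), φ p.1 := by
    rw [← h2, Fintype.sum_prod_type]
    rfl
  rw [h3, Fintype.sum_prod_type, mul_sum]
  refine sum_congr rfl (fun x _ => ?_)
  show ∑ _y : Fin n → Bool, φ x = 2 ^ n * φ x
  rw [sum_const, card_univ, Fintype.card_fun, Fintype.card_bool, Fintype.card_fin, nsmul_eq_mul]
  push_cast
  rfl

/-- `AA` as a sum over the whole block. -/
theorem AA_eq (c : Coef n → Bool) (X Y Z : Finset (Fin n)) (b b' : Fin n → Bool) :
    AA c X Y Z b b' = (2 : ℝ) ^ (2 * n) * ∑ a : Fin n → Bool,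
      RBP.sgq c (glue (X ∪ (Y ∪ Z)) a b) * RBP.sgq c (glue (X ∪ (Y ∪ Z)) a b') := by
  have hP : ∀ x y z b : Fin n → Bool, P X Y Z x y z b =
      glue (X ∪ (Y ∪ Z)) (glue X x (glue Y y z)) b := by
    intro x y z b
    funext v
    unfold P
    by_cases hX : v ∈ X
    · rw [glue_in hX, glue_in (mem_union_left _ hX), glue_in hX]
    · rw [glue_out hX]
      by_cases hY : v ∈ Y
      · rw [glue_in hY, glue_in (mem_union_right _ (mem_union_left _ hY)), glue_out hX, glue_in hY]
      · rw [glue_out hY]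
        by_cases hZ : v ∈ Z
        · rw [glue_in hZ, glue_in (mem_union_right _ (mem_union_right _ hZ)), glue_out hX,
            glue_out hY]
        · have : v ∉ X ∪ (Y ∪ Z) := by
            rw [mem_union, mem_union]
            tauto
          rw [glue_out hZ, glue_out this]
  unfold AA
  let φ : (Fin n → Bool) → ℝ := fun a =>
    RBP.sgq c (glue (X ∪ (Y ∪ Z)) a b) * RBP.sgq c (glue (X ∪ (Y ∪ Z)) a b')
  have h1 : ∀ x y z : Fin n → Bool,
      e (quartic c (P X Y Z x y z b) + quartic c (P X Y Z x y z b')) =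
        φ (glue X x (glue Y y z)) := by
    intro x y z
    rw [e_add, ← sgq_e, ← sgq_e, hP, hP]
  have h2 : ∀ x : Fin n → Bool, ∑ y : Fin n → Bool, ∑ z : Fin n → Bool,
      φ (glue X x (glue Y y z)) = 2 ^ n * ∑ z : Fin n → Bool, φ (glue X x z) :=
    fun x => sum_glue Y (fun z => φ (glue X x z))
  calc _ = ∑ x : Fin n → Bool, ∑ y : Fin n → Bool, ∑ z : Fin n → Bool,
        φ (glue X x (glue Y y z)) :=
        sum_congr rfl (fun x _ => sum_congr rfl (fun y _ => sum_congr rfl (fun z _ => h1 x y z)))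
    _ = ∑ x : Fin n → Bool, 2 ^ n * ∑ z : Fin n → Bool, φ (glue X x z) :=
        sum_congr rfl (fun x _ => h2 x)
    _ = 2 ^ n * (2 ^ n * ∑ a, φ a) := by rw [← mul_sum, sum_glue X φ]
    _ = _ := by
        rw [show 2 * n = n + n by ring, pow_add, mul_assoc]

/-- The correlation of two columns. -/
theorem corr {m w : ℕ} {c : Coef n → Bool} (U : Finset (Fin n)) (hU : 4 * m ≤ U.card)
    (hc : ∀ X Y Z z z' b b', Adm m X Y Z z z' b b' → ¬ Str c w X Y Z z z' b b') {κ : ℝ}
    (hκ : 0 ≤ κ) (hκ4 : (1 + ((n : ℝ) + 1) ^ w) / 2 ^ m ≤ κ ^ 4) {b b' : Fin n → Bool}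
    (hb : ∃ v, v ∉ U ∧ b v ≠ b' v) :
    |∑ a : Fin n → Bool, RBP.sgq c (glue U a b) * RBP.sgq c (glue U a b')| ≤ 2 ^ n * κ := by
  obtain ⟨X, hXU, hXc⟩ := exists_subset_card_eq (s := U) (n := 2 * m) (by omega)
  have h1 : (U \ X).card = U.card - 2 * m := by
    rw [card_sdiff_of_subset hXU, hXc]
  obtain ⟨Y, hYU, hYc⟩ := exists_subset_card_eq (s := U \ X) (n := m) (by omega)
  obtain ⟨Z, hZ⟩ : ∃ Z, Z = (U \ X) \ Y := ⟨_, rfl⟩
  have hZc : m ≤ Z.card := by
    rw [hZ, card_sdiff_of_subset hYU, hYc, h1]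
    omega
  have hUe : X ∪ (Y ∪ Z) = U := by
    rw [hZ, union_sdiff_of_subset hYU, union_sdiff_of_subset hXU]
  have hXY : Disjoint X Y := disjoint_of_subset_right hYU disjoint_sdiff
  have hYZ : Disjoint Y Z := by
    rw [hZ]
    exact disjoint_sdiff
  have hXZ : Disjoint X Z := by
    rw [hZ]
    exact disjoint_of_subset_right sdiff_subset disjoint_sdiff
  obtain ⟨v, hv, hbv⟩ := hb
  have h2 := AA_le (b := b) (b' := b') hXY hXZ hYZ hXc hYc hZc ⟨v, fun h => hv (hXU h),
    fun h => hv ((mem_sdiff.1 (hYU h)).1), fun h => hv (by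
      rw [hZ] at h
      exact (mem_sdiff.1 (mem_sdiff.1 h).1).1), hbv⟩ (fun z z' => hc X Y Z z z' b b')
  rw [AA_eq, hUe] at h2
  obtain ⟨s, hs⟩ : ∃ s, s = ∑ a : Fin n → Bool,
    RBP.sgq c (glue U a b) * RBP.sgq c (glue U a b') := ⟨_, rfl⟩
  rw [← hs] at h2 ⊢
  have h3 : s ^ 4 ≤ (2 ^ n * κ) ^ 4 := by
    have h4 : ((2 : ℝ) ^ (2 * n)) ^ 4 * s ^ 4 ≤ (2 : ℝ) ^ (12 * n) * κ ^ 4 := by
      calc ((2 : ℝ) ^ (2 * n)) ^ 4 * s ^ 4 = ((2 : ℝ) ^ (2 * n) * s) ^ 4 := by ring
        _ ≤ _ := h2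
        _ ≤ _ := mul_le_mul_of_nonneg_left hκ4 (by positivity)
    have h5 : (2 : ℝ) ^ (12 * n) = ((2 : ℝ) ^ (2 * n)) ^ 4 * (2 ^ n) ^ 4 := by
      rw [← pow_mul, ← pow_mul, ← pow_add]
      congr 1
      ring
    rw [h5, mul_assoc] at h4
    rw [mul_pow]
    exact le_of_mul_le_mul_left h4 (by positivity)
  have h4 : |s| ^ 4 ≤ (2 ^ n * κ) ^ 4 := by
    rwa [Even.pow_abs (by decide)]
  exact le_of_pow_le_pow_left₀ (by norm_num) (by positivity) h4

open scoped Classical in
/-- Rows which agree outside `U`. -/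
theorem rows_le (U : Finset (Fin n)) (A : Finset (Fin n → Bool))
    (hA : ∀ a ∈ A, ∀ a' ∈ A, ∀ v, v ∉ U → a v = a' v) (F : (Fin n → Bool) → ℝ) (hF : ∀ a, 0 ≤ F a)
    (hFU : ∀ a x, F (glue U a x) = F a) :
    2 ^ n * ∑ a ∈ A, F a ≤ 2 ^ U.card * ∑ a : Fin n → Bool, F a := by
  obtain ⟨V, hV⟩ : ∃ V, V = (univ : Finset (Fin n → Bool)).filter
      (fun y => ∀ v ∈ U, y v = (fun _ : Fin n => false) v) := ⟨_, rfl⟩
  have hVc : (V.card : ℝ) * 2 ^ U.card = 2 ^ n := by
    rw [hV]
    exact_mod_cast agree_card U (fun _ => false)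
  have h1 : (V.card : ℝ) * ∑ a ∈ A, F a ≤ ∑ a : Fin n → Bool, F a := by
    have h2 : (V.card : ℝ) * ∑ a ∈ A, F a = ∑ p ∈ A ×ˢ V, F (glue U p.1 p.2) := by
      rw [sum_product, mul_sum]
      refine sum_congr rfl (fun a _ => ?_)
      rw [sum_congr rfl (fun x _ => hFU a x), sum_const, nsmul_eq_mul]
    rw [h2]
    have h3 : Set.InjOn (fun p : (Fin n → Bool) × (Fin n → Bool) => glue U p.1 p.2)
        (A ×ˢ V : Finset _) := by
      rintro ⟨a, x⟩ hp ⟨a', x'⟩ hp' he
      obtain ⟨ha, hx⟩ := mem_product.1 (mem_coe.1 hp)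
      obtain ⟨ha', hx'⟩ := mem_product.1 (mem_coe.1 hp')
      simp only at ha hx ha' hx' he
      rw [hV, mem_filter] at hx hx'
      refine Prod.ext ?_ ?_
      · funext v
        by_cases hv : v ∈ U
        · have := congrFun he v
          rwa [glue_in hv, glue_in hv] at this
        · exact hA a ha a' ha' v hv
      · funext v
        by_cases hv : v ∈ U
        · show x v = x' v
          rw [hx.2 v hv, hx'.2 v hv]
        · have := congrFun he v
          rwa [glue_out hv, glue_out hv] at this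
    rw [← sum_image (f := F) (fun p hp q hq he => h3 hp hq he)]
    exact sum_le_univ_sum_of_nonneg hF
  calc (2 : ℝ) ^ n * ∑ a ∈ A, F a = 2 ^ U.card * (V.card * ∑ a ∈ A, F a) := by
        rw [← hVc]
        ring
    _ ≤ _ := mul_le_mul_of_nonneg_left h1 (by positivity)

/-- Cauchy-Schwarz over the rows. -/
theorem disc_of {c : Coef n → Bool} (U : Finset (Fin n)) {κ : ℝ} (hκ : 0 ≤ κ)
    (hcor : ∀ b b' : Fin n → Bool, (∃ v, v ∉ U ∧ b v ≠ b' v) →
      |∑ a : Fin n → Bool, RBP.sgq c (glue U a b) * RBP.sgq c (glue U a b')| ≤ 2 ^ n * κ)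
    (A B : Finset (Fin n → Bool)) (hA : ∀ a ∈ A, ∀ a' ∈ A, ∀ v, v ∉ U → a v = a' v)
    (hB : ∀ b ∈ B, ∀ b' ∈ B, ∀ v ∈ U, b v = b' v) :
    (∑ a ∈ A, ∑ b ∈ B, RBP.sgq c (glue U a b)) ^ 2 ≤
      A.card * (2 ^ U.card * (B.card + B.card ^ 2 * κ)) := by
  classical
  have h1 := sq_sum_le_card_mul_sum_sq (s := A) (f := fun a => ∑ b ∈ B, RBP.sgq c (glue U a b))
  refine h1.trans (mul_le_mul_of_nonneg_left ?_ (Nat.cast_nonneg _))
  have h2 := rows_le U A hA (fun a => (∑ b ∈ B, RBP.sgq c (glue U a b)) ^ 2)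
    (fun a => sq_nonneg _) (fun a x => by
      have : ∀ b, glue U (glue U a x) b = glue U a b := by
        intro b
        funext v
        by_cases hv : v ∈ U
        · rw [glue_in hv, glue_in hv, glue_in hv]
        · rw [glue_out hv, glue_out hv]
      simp only [this])
  have h3 : ∑ a : Fin n → Bool, (∑ b ∈ B, RBP.sgq c (glue U a b)) ^ 2 ≤
      2 ^ n * (B.card + B.card ^ 2 * κ) := by
    have h4 : ∑ a : Fin n → Bool, (∑ b ∈ B, RBP.sgq c (glue U a b)) ^ 2 =
        ∑ b ∈ B, ∑ b' ∈ B, ∑ a : Fin n → Bool,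
          RBP.sgq c (glue U a b) * RBP.sgq c (glue U a b') := by
      have h5 : ∀ a : Fin n → Bool, (∑ b ∈ B, RBP.sgq c (glue U a b)) ^ 2 =
          ∑ b ∈ B, ∑ b' ∈ B, RBP.sgq c (glue U a b) * RBP.sgq c (glue U a b') := by
        intro a
        rw [sq, sum_mul_sum]
      rw [sum_congr rfl (fun a _ => h5 a), sum_comm]
      refine sum_congr rfl (fun b _ => ?_)
      rw [sum_comm]
    rw [h4]
    have h5 : ∀ b ∈ B, ∑ b' ∈ B, ∑ a : Fin n → Bool,
        RBP.sgq c (glue U a b) * RBP.sgq c (glue U a b') ≤ 2 ^ n + B.card * (2 ^ n * κ) := by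
      intro b hb
      have h6 : ∀ b' ∈ B, ∑ a : Fin n → Bool,
          RBP.sgq c (glue U a b) * RBP.sgq c (glue U a b') ≤
          (if b' = b then (2 : ℝ) ^ n else 0) + 2 ^ n * κ := by
        intro b' hb'
        by_cases hbb : b' = b
        · rw [if_pos hbb, hbb]
          have h7 : ∑ a : Fin n → Bool, RBP.sgq c (glue U a b) * RBP.sgq c (glue U a b) ≤
              ∑ _a : Fin n → Bool, (1 : ℝ) := by
            refine sum_le_sum (fun a _ => ?_)
            unfold RBP.sgq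
            split_ifs <;> norm_num
          rw [sum_const, card_univ, Fintype.card_fun, Fintype.card_bool, Fintype.card_fin,
            nsmul_eq_mul, mul_one] at h7
          push_cast at h7
          have h8 : (0 : ℝ) ≤ 2 ^ n * κ := by positivity
          linarith
        · rw [if_neg hbb, zero_add]
          refine (le_abs_self _).trans (hcor b b' ?_)
          by_contra hcon
          push Not at hcon
          apply hbb
          funext v
          by_cases hv : v ∈ U
          · exact hB b' hb' b hb v hv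
          · exact (hcon v hv).symm
      refine (sum_le_sum h6).trans (le_of_eq ?_)
      rw [sum_add_distrib, sum_ite_eq', if_pos hb, sum_const, nsmul_eq_mul]
    refine (sum_le_sum h5).trans (le_of_eq ?_)
    rw [sum_const, nsmul_eq_mul]
    ring
  have h4 : (2 : ℝ) ^ n * ∑ a ∈ A, (∑ b ∈ B, RBP.sgq c (glue U a b)) ^ 2 ≤
      2 ^ n * (2 ^ U.card * (B.card + B.card ^ 2 * κ)) := by
    calc _ ≤ (2 : ℝ) ^ U.card * ∑ a : Fin n → Bool, (∑ b ∈ B, RBP.sgq c (glue U a b)) ^ 2 := h2
      _ ≤ 2 ^ U.card * (2 ^ n * (B.card + B.card ^ 2 * κ)) :=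
          mul_le_mul_of_nonneg_left h3 (by positivity)
      _ = _ := by ring
  exact le_of_mul_le_mul_left h4 (by positivity)

end DX

end SRBP
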