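import Pool.Agent.Lib.MP_9dcf40_lc.DTR.DiscX

/-!
# Theorem DTX (MP_9dcf40_lc): quartic polynomials with exponentially small discrepancy, numbers
-/

namespace SRBP

open Finset

namespace DX

/-- The good coefficient vectors. -/
def GX (n : ℕ) (c : Coef n → Bool) : Prop :=
  ∀ m : ℕ, ⌈(n : ℝ) ^ (7 / 8 : ℝ) / 5⌉₊ ≤ m → m ≤ n → ∀ (X Y Z : Finset (Fin n))
    (z z' b b' : Fin n → Bool), Adm m X Y Z z z' b b' →
    ¬ Str c ⌈60 * (n : ℝ) ^ (1 / 8 : ℝ)⌉₊ X Y Z z z' b b'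

theorem root {n : ℕ} (hn : 10 ^ 8 ≤ n) : ∃ u : ℝ, 10 ≤ u ∧ u ^ 8 = n ∧
    (n : ℝ) ^ (1 / 8 : ℝ) = u ∧ (n : ℝ) ^ (7 / 8 : ℝ) = u ^ 7 ∧
    Real.log ((n : ℝ) + 1) ≤ 16 * u := by
  have hn0 : (0 : ℝ) ≤ n := Nat.cast_nonneg n
  have hnR : (10 : ℝ) ^ 8 ≤ n := by exact_mod_cast hn
  obtain ⟨u, hu⟩ : ∃ u : ℝ, u = (n : ℝ) ^ (1 / 8 : ℝ) := ⟨_, rfl⟩
  have hu0 : 0 ≤ u := by
    rw [hu]
    exact Real.rpow_nonneg hn0 _
  have hu8 : u ^ 8 = n := by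
    rw [hu, ← Real.rpow_natCast, ← Real.rpow_mul hn0]
    norm_num
  have hu10 : 10 ≤ u := by
    by_contra h
    rw [not_le] at h
    have h1 : u ^ 8 < 10 ^ 8 := pow_lt_pow_left₀ h hu0 (by norm_num)
    rw [hu8] at h1
    linarith
  refine ⟨u, hu10, hu8, hu.symm, ?_, ?_⟩
  · rw [hu, ← Real.rpow_natCast, ← Real.rpow_mul hn0]
    norm_num
  · have h1 : Real.log ((n : ℝ) + 1) ≤ ((n : ℝ) + 1) ^ (1 / 8 : ℝ) / (1 / 8) :=
      Real.log_le_rpow_div (by linarith) (by norm_num)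
    have h2 : ((n : ℝ) + 1) ^ (1 / 8 : ℝ) ≤ 2 * u := by
      have h3 : (n : ℝ) + 1 ≤ (2 * u) ^ 8 := by
        rw [mul_pow, hu8]
        have : (1 : ℝ) ≤ n := le_trans (by norm_num) hnR
        linarith
      calc ((n : ℝ) + 1) ^ (1 / 8 : ℝ) ≤ ((2 * u) ^ 8) ^ (1 / 8 : ℝ) :=
            Real.rpow_le_rpow (by linarith) h3 (by norm_num)
        _ = 2 * u := by
          rw [← Real.rpow_natCast, ← Real.rpow_mul (by linarith)]
          norm_num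
    linarith

open scoped Classical in
/-- Almost all coefficient vectors are good. -/
theorem few_bad {n : ℕ} (hn : 10 ^ 8 ≤ n) :
    4 * ((univ : Finset (Coef n → Bool)).filter (fun c => ¬ GX n c)).card ≤
      2 ^ Fintype.card (Coef n) := by
  obtain ⟨u, hu, hu8, hu1, hu7, -⟩ := root hn
  have h1 := count4 n ⌈60 * (n : ℝ) ^ (1 / 8 : ℝ)⌉₊ ⌈(n : ℝ) ^ (7 / 8 : ℝ) / 5⌉₊ (by
    have h2 : (u ^ 7 / 5) * (60 * u) ≤ (⌈(n : ℝ) ^ (7 / 8 : ℝ) / 5⌉₊ : ℝ) *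
        (⌈60 * (n : ℝ) ^ (1 / 8 : ℝ)⌉₊ : ℝ) := by
      rw [hu1, hu7]
      exact mul_le_mul (Nat.le_ceil _) (Nat.le_ceil _) (by positivity) (Nat.cast_nonneg _)
    have h3 : (u ^ 7 / 5) * (60 * u) = 12 * n := by
      rw [← hu8]
      ring
    rw [h3] at h2
    have h4 : 12 * n ≤ ⌈(n : ℝ) ^ (7 / 8 : ℝ) / 5⌉₊ * ⌈60 * (n : ℝ) ^ (1 / 8 : ℝ)⌉₊ := by
      exact_mod_cast h2
    have h5 : 2 ≤ n := le_trans (by norm_num) hn
    omega)
  refine le_trans (Nat.mul_le_mul_left _ (card_le_card ?_)) h1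
  intro c hc
  have h2 := (mem_filter.1 hc).2
  refine mem_filter.2 ⟨mem_univ _, ?_⟩
  unfold GX at h2
  push Not at h2
  obtain ⟨m, hm, hmn, X, Y, Z, z, z', b, b', h3, h4⟩ := h2
  exact ⟨m, hm, hmn, X, Y, Z, z, z', b, b', h3, h4⟩

/-- The discrepancy. -/
theorem discX {n : ℕ} (hn : 10 ^ 8 ≤ n) {c : Coef n → Bool} (hc : GX n c) {s : ℕ}
    (hs : (n : ℝ) ^ (7 / 8 : ℝ) ≤ s) :
    DiscX (RBP.sgq c) s (2 ^ s * Real.exp (-((s : ℝ) / 1000))) (Real.exp ((s : ℝ) / 100))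
      (Real.exp (-((s : ℝ) / 1000))) := by
  intro U A B hUs hA hB hAU hBU
  obtain ⟨u, hu, hu8, hu1, hu7, hlog⟩ := root hn
  have hu0 : 0 < u := by linarith
  rw [hu7] at hs
  have hsn : s ≤ n := by
    rw [← hUs]
    exact (card_le_univ U).trans (le_of_eq (Fintype.card_fin n))
  obtain ⟨m, hm⟩ : ∃ m, m = s / 4 := ⟨_, rfl⟩
  have hmR : (s : ℝ) / 4 - 1 ≤ m := by
    have h1 : s < 4 * (m + 1) := by omega
    have h2 : (s : ℝ) < 4 * ((m : ℝ) + 1) := by exact_mod_cast h1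
    linarith
  have hu7' : (10 : ℝ) ^ 7 ≤ u ^ 7 := pow_le_pow_left₀ (by norm_num) hu 7
  have hmc : ⌈(n : ℝ) ^ (7 / 8 : ℝ) / 5⌉₊ ≤ m := by
    rw [hu7, Nat.ceil_le]
    linarith
  have hw : (⌈60 * (n : ℝ) ^ (1 / 8 : ℝ)⌉₊ : ℝ) ≤ 61 * u := by
    rw [hu1]
    have h2 : ((⌈60 * u⌉₊ : ℕ) : ℝ) < 60 * u + 1 := Nat.ceil_lt_add_one (by positivity)
    linarith
  obtain ⟨w, hwd⟩ : ∃ w, w = ⌈60 * (n : ℝ) ^ (1 / 8 : ℝ)⌉₊ := ⟨_, rfl⟩
  have hgood := hc m hmc (by omega)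
  rw [← hwd] at hw hgood
  have hn1 : (0 : ℝ) < (n : ℝ) + 1 := by positivity
  have hlog0 : 0 ≤ Real.log ((n : ℝ) + 1) := Real.log_nonneg (by
    have : (0 : ℝ) ≤ n := Nat.cast_nonneg n
    linarith)
  have l1 := Real.log_two_gt_d9
  have l2 := Real.log_two_lt_d9
  have hκ4 : (1 + ((n : ℝ) + 1) ^ w) / 2 ^ m ≤ Real.exp (-((s : ℝ) / 100)) ^ 4 := by
    have h1 : (1 : ℝ) ≤ ((n : ℝ) + 1) ^ w := one_le_pow₀ (by
      have : (0 : ℝ) ≤ n := Nat.cast_nonneg n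
      linarith)
    have h2 : (1 + ((n : ℝ) + 1) ^ w) ≤ Real.exp (Real.log 2 + w * Real.log ((n : ℝ) + 1)) := by
      rw [Real.exp_add, Real.exp_log (by norm_num), Real.exp_nat_mul, Real.exp_log hn1]
      linarith
    have h3 : (2 : ℝ) ^ m = Real.exp (m * Real.log 2) := by
      rw [Real.exp_nat_mul, Real.exp_log (by norm_num)]
    rw [h3, ← Real.exp_nat_mul, div_le_iff₀ (Real.exp_pos _), ← Real.exp_add]
    refine h2.trans (Real.exp_le_exp.2 ?_)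
    have h4 : (w : ℝ) * Real.log ((n : ℝ) + 1) ≤ (61 * u) * (16 * u) :=
      mul_le_mul hw hlog hlog0 (by positivity)
    have h5 : ((s : ℝ) / 4 - 1) * 0.69 ≤ m * Real.log 2 := by
      have h6 : 0 ≤ (s : ℝ) / 4 - 1 := by linarith
      calc ((s : ℝ) / 4 - 1) * 0.69 ≤ ((s : ℝ) / 4 - 1) * Real.log 2 :=
            mul_le_mul_of_nonneg_left (by linarith) h6
        _ ≤ m * Real.log 2 := mul_le_mul_of_nonneg_right hmR (by linarith)
    have h6 : 100000 * u ^ 2 ≤ u ^ 7 := by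
      have h7 : u ^ 7 = u ^ 5 * u ^ 2 := by ring
      have h8 : (10 : ℝ) ^ 5 ≤ u ^ 5 := pow_le_pow_left₀ (by norm_num) hu 5
      rw [h7]
      refine mul_le_mul_of_nonneg_right ?_ (by positivity)
      linarith
    have h7 : 100 ≤ u ^ 2 := by nlinarith
    push_cast
    nlinarith
  have hcor := fun b b' hb => corr (c := c) U (by rw [hUs]; omega) hgood (Real.exp_pos _).le hκ4
    (b := b) (b' := b') hb
  have key := disc_of U (Real.exp_pos (-((s : ℝ) / 100))).le hcor A B hAU hBU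
  rw [hUs] at key
  have ha0 : (0 : ℝ) ≤ A.card := Nat.cast_nonneg _
  have hb0 : (0 : ℝ) ≤ B.card := Nat.cast_nonneg _
  have h1 : (2 : ℝ) ^ s ≤ A.card * Real.exp ((s : ℝ) / 1000) := by
    calc (2 : ℝ) ^ s = 2 ^ s * Real.exp (-((s : ℝ) / 1000)) * Real.exp ((s : ℝ) / 1000) := by
          rw [mul_assoc, ← Real.exp_add, neg_add_cancel, Real.exp_zero, mul_one]
      _ ≤ _ := mul_le_mul_of_nonneg_right hA (Real.exp_pos _).le
  have h2 : (B.card : ℝ) ≤ B.card ^ 2 * Real.exp (-((s : ℝ) / 100)) := by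
    calc (B.card : ℝ) = B.card * (Real.exp ((s : ℝ) / 100) * Real.exp (-((s : ℝ) / 100))) := by
          rw [← Real.exp_add, add_neg_cancel, Real.exp_zero, mul_one]
      _ ≤ B.card * (B.card * Real.exp (-((s : ℝ) / 100))) :=
          mul_le_mul_of_nonneg_left (mul_le_mul_of_nonneg_right hB (Real.exp_pos _).le) hb0
      _ = _ := by ring
  have h3 : (2 : ℝ) * Real.exp ((s : ℝ) / 1000) * Real.exp (-((s : ℝ) / 100)) ≤
      Real.exp (-((s : ℝ) / 1000)) ^ 2 := by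
    have h4 : (2 : ℝ) ≤ Real.exp 1 := by
      have := Real.add_one_le_exp (1 : ℝ)
      linarith
    calc (2 : ℝ) * Real.exp ((s : ℝ) / 1000) * Real.exp (-((s : ℝ) / 100)) ≤
          Real.exp 1 * Real.exp ((s : ℝ) / 1000) * Real.exp (-((s : ℝ) / 100)) := by gcongr
      _ = Real.exp (1 + (s : ℝ) / 1000 + -((s : ℝ) / 100)) := by
          rw [Real.exp_add, Real.exp_add]
      _ ≤ Real.exp (((2 : ℕ) : ℝ) * -((s : ℝ) / 1000)) := by
          refine Real.exp_le_exp.2 ?_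
          push_cast
          linarith
      _ = _ := Real.exp_nat_mul _ _
  have h4 : (∑ a ∈ A, ∑ b ∈ B, RBP.sgq c (glue U a b)) ^ 2 ≤
      (Real.exp (-((s : ℝ) / 1000)) * A.card * B.card) ^ 2 := by
    calc _ ≤ (A.card : ℝ) * (2 ^ s * (B.card + B.card ^ 2 * Real.exp (-((s : ℝ) / 100)))) := key
      _ ≤ A.card * ((A.card * Real.exp ((s : ℝ) / 1000)) *
          (B.card ^ 2 * Real.exp (-((s : ℝ) / 100)) +
            B.card ^ 2 * Real.exp (-((s : ℝ) / 100)))) := by gcongr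
      _ = (A.card * B.card) ^ 2 * (2 * Real.exp ((s : ℝ) / 1000) *
          Real.exp (-((s : ℝ) / 100))) := by ring
      _ ≤ (A.card * B.card) ^ 2 * Real.exp (-((s : ℝ) / 1000)) ^ 2 :=
          mul_le_mul_of_nonneg_left h3 (sq_nonneg _)
      _ = _ := by ring
  exact abs_le_of_sq_le_sq h4 (by positivity)

end DX

end SRBP
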