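import Pool.Agent.Lib.MP_9dcf40_lc.DTR.Spec

/-!
# Theorem DTR (MP_9dcf40_lc), M1: the good inputs are a disjoint union of large rectangles
-/

namespace SRBP

open Finset

namespace PartR

/-- An `s`-element subset, if there is one. -/
noncomputable def ch {n : ℕ} (s : ℕ) (U : Finset (Fin n)) : Finset (Fin n) := by
  classical exact if h : s ≤ U.card then (exists_subset_card_eq h).choose else ∅

theorem ch_sub {n s : ℕ} {U : Finset (Fin n)} (h : s ≤ U.card) : ch s U ⊆ U := by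
  unfold ch
  rw [dif_pos h]
  exact (exists_subset_card_eq h).choose_spec.1

theorem ch_card {n s : ℕ} {U : Finset (Fin n)} (h : s ≤ U.card) : (ch s U).card = s := by
  unfold ch
  rw [dif_pos h]
  exact (exists_subset_card_eq h).choose_spec.2

variable {n r : ℕ} {β : Type}

/-- The erased set. -/
noncomputable def Vf (sg : Fin r → (Fin n → Bool) → β) (dm : β → Finset (Fin n)) (J : Finset (Fin r))
    (G : Finset (Fin n)) (s : ℕ) (x : Fin n → Bool) : Finset (Fin n) :=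
  ch s ((univ \ DJ sg dm J x) \ G)

open scoped Classical in
/-- The rows. -/
noncomputable def rw' (F : Finset (Fin n → Bool)) (sg : Fin r → (Fin n → Bool) → β)
    (dm : β → Finset (Fin n)) (J : Finset (Fin r)) (G : Finset (Fin n)) (s : ℕ) (x : Fin n → Bool) :
    Finset (Fin n → Bool) :=
  F.filter (fun y => (∀ j ∈ J, sg j y = sg j x) ∧ (∀ v, v ∉ Vf sg dm J G s x → y v = x v) ∧
    DJ sg dm Jᶜ y ∩ G = DJ sg dm Jᶜ x ∩ G)

open scoped Classical in
/-- The columns. -/
noncomputable def cl' (F : Finset (Fin n → Bool)) (sg : Fin r → (Fin n → Bool) → β)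
    (dm : β → Finset (Fin n)) (J : Finset (Fin r)) (G : Finset (Fin n)) (s : ℕ) (x : Fin n → Bool) :
    Finset (Fin n → Bool) :=
  F.filter (fun y => (∀ j, j ∉ J → sg j y = sg j x) ∧ (∀ v, v ∉ G → y v = x v) ∧
    Vf sg dm J G s y = Vf sg dm J G s x)

open scoped Classical in
/-- The rectangle. -/
noncomputable def Rt (F : Finset (Fin n → Bool)) (sg : Fin r → (Fin n → Bool) → β)
    (dm : β → Finset (Fin n)) (J : Finset (Fin r)) (G : Finset (Fin n)) (s : ℕ) (x : Fin n → Bool) :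
    Finset (Fin n → Bool) :=
  image₂ (glue (Vf sg dm J G s x)) (rw' F sg dm J G s x) (cl' F sg dm J G s x)

theorem DJ_congr {sg : Fin r → (Fin n → Bool) → β} {dm : β → Finset (Fin n)} {J : Finset (Fin r)}
    {x y : Fin n → Bool} (h : ∀ j ∈ J, sg j x = sg j y) : DJ sg dm J x = DJ sg dm J y := by
  unfold DJ
  exact biUnion_congr rfl (fun j hj => by rw [h j hj])

theorem Vf_congr {sg : Fin r → (Fin n → Bool) → β} {dm : β → Finset (Fin n)} {J : Finset (Fin r)}
    {G : Finset (Fin n)} {s : ℕ}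
    {x y : Fin n → Bool} (h : ∀ j ∈ J, sg j x = sg j y) : Vf sg dm J G s x = Vf sg dm J G s y := by
  unfold Vf
  rw [DJ_congr h]

section

variable {F : Finset (Fin n → Bool)} {sg : Fin r → (Fin n → Bool) → β} {dm : β → Finset (Fin n)}
  {J : Finset (Fin r)} {G : Finset (Fin n)} {s d : ℕ}

theorem mem_Gd {x : Fin n → Bool} : x ∈ Gd F sg dm J G s d ↔
    x ∈ F ∧ s ≤ ((univ \ DJ sg dm J x) \ G).card ∧ (DJ sg dm Jᶜ x ∩ G).card ≤ d := by
  unfold Gd
  rw [mem_filter]

theorem Vf_sub {x : Fin n → Bool} (hx : x ∈ Gd F sg dm J G s d) :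
    Vf sg dm J G s x ⊆ (univ \ DJ sg dm J x) \ G := ch_sub (mem_Gd.1 hx).2.1

theorem Vf_card {x : Fin n → Bool} (hx : x ∈ Gd F sg dm J G s d) :
    (Vf sg dm J G s x).card = s := ch_card (mem_Gd.1 hx).2.1

theorem Vf_DJ {x : Fin n → Bool} (hx : x ∈ Gd F sg dm J G s d) {v : Fin n}
    (hv : v ∈ Vf sg dm J G s x) : v ∉ DJ sg dm J x :=
  (mem_sdiff.1 (mem_sdiff.1 (Vf_sub hx hv)).1).2

theorem Vf_G {x : Fin n → Bool} (hx : x ∈ Gd F sg dm J G s d) {v : Fin n}
    (hv : v ∈ Vf sg dm J G s x) : v ∉ G :=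
  (mem_sdiff.1 (Vf_sub hx hv)).2

open scoped Classical in
theorem mem_rw {F' : Finset (Fin n → Bool)} {x y : Fin n → Bool} : y ∈ rw' F' sg dm J G s x ↔
    y ∈ F' ∧ (∀ j ∈ J, sg j y = sg j x) ∧ (∀ v, v ∉ Vf sg dm J G s x → y v = x v) ∧
    DJ sg dm Jᶜ y ∩ G = DJ sg dm Jᶜ x ∩ G := by
  exact mem_filter

open scoped Classical in
theorem mem_cl {F' : Finset (Fin n → Bool)} {x y : Fin n → Bool} : y ∈ cl' F' sg dm J G s x ↔
    y ∈ F' ∧ (∀ j, j ∉ J → sg j y = sg j x) ∧ (∀ v, v ∉ G → y v = x v) ∧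
    Vf sg dm J G s y = Vf sg dm J G s x := by
  exact mem_filter

theorem self_rw {F' : Finset (Fin n → Bool)} {x : Fin n → Bool} (hx : x ∈ F') :
    x ∈ rw' F' sg dm J G s x := mem_rw.2 ⟨hx, fun _ _ => rfl, fun _ _ => rfl, rfl⟩

theorem self_cl {F' : Finset (Fin n → Bool)} {x : Fin n → Bool} (hx : x ∈ F') :
    x ∈ cl' F' sg dm J G s x := mem_cl.2 ⟨hx, fun _ _ => rfl, fun _ _ => rfl, rfl⟩

theorem glue_self (V : Finset (Fin n)) (x : Fin n → Bool) : glue V x x = x := by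
  funext v
  unfold glue
  split <;> rfl

/-- The hybrid. -/
theorem hyb (h : DPC n r F sg dm) {x y y' : Fin n → Bool} (hx : x ∈ Gd F sg dm J G s d)
    (hy : y ∈ rw' (Gd F sg dm J G s d) sg dm J G s x)
    (hy' : y' ∈ cl' (Gd F sg dm J G s d) sg dm J G s x) :
    glue (Vf sg dm J G s x) y y' ∈ Gd F sg dm J G s d ∧
    (∀ j ∈ J, sg j (glue (Vf sg dm J G s x) y y') = sg j y') ∧
    ∀ j, j ∉ J → sg j (glue (Vf sg dm J G s x) y y') = sg j y := by
  classical
  obtain ⟨hyF, hy1, hy2, hy3⟩ := mem_rw.1 hy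
  obtain ⟨hyF', hy1', hy2', hy3'⟩ := mem_cl.1 hy'
  set z := glue (Vf sg dm J G s x) y y' with hz
  have hxF := (mem_Gd.1 hx).1
  have key := h.clo z (fun j => if j ∈ J then y' else y) (fun j => by
    by_cases hj : j ∈ J
    · simp only [if_pos hj]
      exact (mem_Gd.1 hyF').1
    · simp only [if_neg hj]
      exact (mem_Gd.1 hyF).1) (fun j => by
    by_cases hj : j ∈ J
    · simp only [if_pos hj]
      intro v hv
      have hv' : v ∉ Vf sg dm J G s x := by
        intro hv2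
        rw [← hy3'] at hv2
        exact Vf_DJ hyF' hv2 (mem_biUnion.2 ⟨j, hj, hv⟩)
      rw [hz]
      unfold glue
      rw [if_neg hv']
    · simp only [if_neg hj]
      intro v hv
      rw [hz]
      unfold glue
      split_ifs with hvV
      · rfl
      · -- `v` outside the erased set, read by `y` in the segment `j`
        rw [hy2 v hvV]
        by_cases hvG : v ∈ G
        · have h1 : v ∈ DJ sg dm Jᶜ y ∩ G :=
            mem_inter.2 ⟨mem_biUnion.2 ⟨j, mem_compl.2 hj, hv⟩, hvG⟩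
          rw [hy3] at h1
          obtain ⟨i, hi, hvi⟩ := mem_biUnion.1 (mem_inter.1 h1).1
          have h2 := hy1' i (mem_compl.1 hi)
          exact h.val i y' (mem_Gd.1 hyF').1 x hxF h2 v (by rw [h2]; exact hvi)
        · exact hy2' v hvG)
  obtain ⟨hzF, hzs⟩ := key
  have e1 : ∀ j ∈ J, sg j z = sg j y' := fun j hj => by
    have := hzs j
    simpa only [if_pos hj] using this
  have e2 : ∀ j, j ∉ J → sg j z = sg j y := fun j hj => by
    have := hzs j
    simpa only [if_neg hj] using this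
  refine ⟨mem_Gd.2 ⟨hzF, ?_, ?_⟩, e1, e2⟩
  · rw [DJ_congr e1]
    exact (mem_Gd.1 hyF').2.1
  · rw [DJ_congr (J := Jᶜ) (fun j hj => e2 j (mem_compl.1 hj))]
    exact (mem_Gd.1 hyF).2.2

/-- The rows of a hybrid. -/
theorem rw_hyb (h : DPC n r F sg dm) {x z a : Fin n → Bool} (hx : x ∈ Gd F sg dm J G s d)
    (hz : z ∈ Rt (Gd F sg dm J G s d) sg dm J G s x)
    (ha : a ∈ rw' (Gd F sg dm J G s d) sg dm J G s x) :
    glue (Vf sg dm J G s x) a z ∈ rw' (Gd F sg dm J G s d) sg dm J G s z := by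
  classical
  obtain ⟨y, hy, y', hy', rfl⟩ := mem_image₂.1 hz
  obtain ⟨z1, z2, z3⟩ := hyb h hx hy hy'
  obtain ⟨a1, a2, a3⟩ := hyb h hx ha hy'
  have hgl : glue (Vf sg dm J G s x) a (glue (Vf sg dm J G s x) y y') =
      glue (Vf sg dm J G s x) a y' := by
    funext v
    unfold glue
    split_ifs <;> rfl
  rw [hgl]
  have hV : Vf sg dm J G s (glue (Vf sg dm J G s x) y y') = Vf sg dm J G s x := by
    rw [Vf_congr z2]
    exact (mem_cl.1 hy').2.2.2
  refine mem_rw.2 ⟨a1, fun j hj => by rw [a2 j hj, z2 j hj], fun v hv => ?_, ?_⟩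
  · rw [hV] at hv
    unfold glue
    rw [if_neg hv, if_neg hv]
  · rw [DJ_congr (J := Jᶜ) (fun j hj => a3 j (mem_compl.1 hj)),
      DJ_congr (J := Jᶜ) (fun j hj => z3 j (mem_compl.1 hj)), (mem_rw.1 ha).2.2.2,
      (mem_rw.1 hy).2.2.2]

/-- The columns of a hybrid. -/
theorem cl_hyb (h : DPC n r F sg dm) {x z b : Fin n → Bool} (hx : x ∈ Gd F sg dm J G s d)
    (hz : z ∈ Rt (Gd F sg dm J G s d) sg dm J G s x)
    (hb : b ∈ cl' (Gd F sg dm J G s d) sg dm J G s x) :
    glue (Vf sg dm J G s x) z b ∈ cl' (Gd F sg dm J G s d) sg dm J G s z := by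
  classical
  obtain ⟨y, hy, y', hy', rfl⟩ := mem_image₂.1 hz
  obtain ⟨z1, z2, z3⟩ := hyb h hx hy hy'
  obtain ⟨a1, a2, a3⟩ := hyb h hx hy hb
  have hgl : glue (Vf sg dm J G s x) (glue (Vf sg dm J G s x) y y') b =
      glue (Vf sg dm J G s x) y b := by
    funext v
    unfold glue
    split_ifs <;> rfl
  rw [hgl]
  have hV : Vf sg dm J G s (glue (Vf sg dm J G s x) y y') = Vf sg dm J G s x := by
    rw [Vf_congr z2]
    exact (mem_cl.1 hy').2.2.2
  refine mem_cl.2 ⟨a1, fun j hj => by rw [a3 j hj, z3 j hj], fun v hv => ?_, ?_⟩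
  · unfold glue
    split_ifs with hvV
    · rfl
    · rw [(mem_cl.1 hb).2.2.1 v hv, (mem_cl.1 hy').2.2.1 v hv]
  · rw [hV, Vf_congr a2]
    exact (mem_cl.1 hb).2.2.2

theorem self_Rt {x : Fin n → Bool} (hx : x ∈ Gd F sg dm J G s d) :
    x ∈ Rt (Gd F sg dm J G s d) sg dm J G s x :=
  mem_image₂.2 ⟨x, self_rw hx, x, self_cl hx, glue_self _ _⟩

theorem Rt_sub (h : DPC n r F sg dm) {x : Fin n → Bool} (hx : x ∈ Gd F sg dm J G s d) :
    Rt (Gd F sg dm J G s d) sg dm J G s x ⊆ Gd F sg dm J G s d := by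
  intro z hz
  obtain ⟨y, hy, y', hy', rfl⟩ := mem_image₂.1 hz
  exact (hyb h hx hy hy').1

theorem Vf_Rt (h : DPC n r F sg dm) {x z : Fin n → Bool} (hx : x ∈ Gd F sg dm J G s d)
    (hz : z ∈ Rt (Gd F sg dm J G s d) sg dm J G s x) : Vf sg dm J G s z = Vf sg dm J G s x := by
  obtain ⟨y, hy, y', hy', rfl⟩ := mem_image₂.1 hz
  rw [Vf_congr (hyb h hx hy hy').2.1]
  exact (mem_cl.1 hy').2.2.2

theorem Rt_le (h : DPC n r F sg dm) {x z : Fin n → Bool} (hx : x ∈ Gd F sg dm J G s d)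
    (hz : z ∈ Rt (Gd F sg dm J G s d) sg dm J G s x) :
    Rt (Gd F sg dm J G s d) sg dm J G s x ⊆ Rt (Gd F sg dm J G s d) sg dm J G s z := by
  intro w hw
  obtain ⟨a, ha, b, hb, rfl⟩ := mem_image₂.1 hw
  refine mem_image₂.2 ⟨_, rw_hyb h hx hz ha, _, cl_hyb h hx hz hb, ?_⟩
  rw [Vf_Rt h hx hz]
  funext v
  unfold glue
  split_ifs <;> rfl

theorem Rt_symm (h : DPC n r F sg dm) {x z : Fin n → Bool} (hx : x ∈ Gd F sg dm J G s d)
    (hz : z ∈ Rt (Gd F sg dm J G s d) sg dm J G s x) :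
    x ∈ Rt (Gd F sg dm J G s d) sg dm J G s z := Rt_le h hx hz (self_Rt hx)

theorem Rt_eq (h : DPC n r F sg dm) {x z : Fin n → Bool} (hx : x ∈ Gd F sg dm J G s d)
    (hz : z ∈ Rt (Gd F sg dm J G s d) sg dm J G s x) :
    Rt (Gd F sg dm J G s d) sg dm J G s z = Rt (Gd F sg dm J G s d) sg dm J G s x :=
  Subset.antisymm (Rt_le h (Rt_sub h hx hz) (Rt_symm h hx hz)) (Rt_le h hx hz)

theorem rw_card_le (h : DPC n r F sg dm) {x z : Fin n → Bool} (hx : x ∈ Gd F sg dm J G s d)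
    (hz : z ∈ Rt (Gd F sg dm J G s d) sg dm J G s x) :
    (rw' (Gd F sg dm J G s d) sg dm J G s x).card ≤
      (rw' (Gd F sg dm J G s d) sg dm J G s z).card := by
  refine card_le_card_of_injOn (fun a => glue (Vf sg dm J G s x) a z)
    (fun a ha => mem_coe.2 (rw_hyb h hx hz (mem_coe.1 ha))) ?_
  intro a ha b hb hab
  funext v
  by_cases hv : v ∈ Vf sg dm J G s x
  · have := congrFun hab v
    simpa only [glue, if_pos hv] using this
  · rw [(mem_rw.1 (mem_coe.1 ha)).2.2.1 v hv, (mem_rw.1 (mem_coe.1 hb)).2.2.1 v hv]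

theorem cl_card_le (h : DPC n r F sg dm) {x z : Fin n → Bool} (hx : x ∈ Gd F sg dm J G s d)
    (hz : z ∈ Rt (Gd F sg dm J G s d) sg dm J G s x) :
    (cl' (Gd F sg dm J G s d) sg dm J G s x).card ≤
      (cl' (Gd F sg dm J G s d) sg dm J G s z).card := by
  refine card_le_card_of_injOn (fun b => glue (Vf sg dm J G s x) z b)
    (fun b hb => mem_coe.2 (cl_hyb h hx hz (mem_coe.1 hb))) ?_
  intro a ha b hb hab
  funext v
  by_cases hv : v ∈ Vf sg dm J G s x
  · have h1 := Vf_G hx hv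
    rw [(mem_cl.1 (mem_coe.1 ha)).2.2.1 v h1, (mem_cl.1 (mem_coe.1 hb)).2.2.1 v h1]
  · have := congrFun hab v
    simpa only [glue, if_neg hv] using this

/-- The sum over a rectangle. -/
theorem sum_Rt {x : Fin n → Bool} (hx : x ∈ Gd F sg dm J G s d) (g : (Fin n → Bool) → ℝ) :
    ∑ z ∈ Rt (Gd F sg dm J G s d) sg dm J G s x, g z =
      ∑ a ∈ rw' (Gd F sg dm J G s d) sg dm J G s x, ∑ b ∈ cl' (Gd F sg dm J G s d) sg dm J G s x,
        g (glue (Vf sg dm J G s x) a b) := by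
  classical
  unfold Rt
  rw [← sum_product', image₂, sum_image]
  · rfl
  · rintro ⟨a, b⟩ hab ⟨a', b'⟩ hab' heq
    obtain ⟨ha, hb⟩ := mem_product.1 (mem_coe.1 hab)
    obtain ⟨ha', hb'⟩ := mem_product.1 (mem_coe.1 hab')
    have ha : a ∈ rw' (Gd F sg dm J G s d) sg dm J G s x := ha
    have ha' : a' ∈ rw' (Gd F sg dm J G s d) sg dm J G s x := ha'
    have hb : b ∈ cl' (Gd F sg dm J G s d) sg dm J G s x := hb
    have hb' : b' ∈ cl' (Gd F sg dm J G s d) sg dm J G s x := hb'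
    have heq' : ∀ v, glue (Vf sg dm J G s x) a b v = glue (Vf sg dm J G s x) a' b' v :=
      fun v => congrFun heq v
    have e1 : a = a' := by
      funext v
      by_cases hv : v ∈ Vf sg dm J G s x
      · have := heq' v
        simpa only [glue, if_pos hv] using this
      · rw [(mem_rw.1 ha).2.2.1 v hv, (mem_rw.1 ha').2.2.1 v hv]
    have e2 : b = b' := by
      funext v
      by_cases hv : v ∈ Vf sg dm J G s x
      · have h1 := Vf_G hx hv
        rw [(mem_cl.1 hb).2.2.1 v h1, (mem_cl.1 hb').2.2.1 v h1]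
      · have := heq' v
        simpa only [glue, if_neg hv] using this
    rw [e1, e2]

end

end PartR

open PartR in
open scoped Classical in
theorem tPartR : S_PartR := by
  intro n r β F sg dm h J G s d g t η hg ht hη hdisc
  obtain ⟨F', hF'⟩ : ∃ F', F' = Gd F sg dm J G s d := ⟨_, rfl⟩
  have hsubF : F' ⊆ F := by
    rw [hF']
    exact fun x hx => (mem_Gd.1 hx).1
  have hDPS : DPS n r F' sg dm := h.toDPS.mono hsubF
  have hVs : ∀ x ∈ F', (Vf sg dm J G s x).card = s := fun x hx => Vf_card (hF' ▸ hx)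
  have hVd : ∀ x ∈ F', Disjoint (Vf sg dm J G s x) (DJ sg dm J x) := fun x hx =>
    disjoint_left.2 (fun v hv => Vf_DJ (hF' ▸ hx) hv)
  have hD : ∀ x ∈ F', (DJ sg dm Jᶜ x ∩ G).card ≤ d := fun x hx => (mem_Gd.1 (hF' ▸ hx)).2.2
  -- keys
  let κ₁ : (Fin n → Bool) → (Fin r → Option β) × (Fin n → Option Bool) × Finset (Fin n) :=
    fun x => (fun j => if j ∈ J then some (sg j x) else none,
      fun v => if v ∈ Vf sg dm J G s x then none else some (x v), DJ sg dm Jᶜ x ∩ G)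
  let κ₂ : (Fin n → Bool) → (Fin r → Option β) × (Fin n → Option Bool) × Finset (Fin n) :=
    fun x => (fun j => if j ∈ J then none else some (sg j x),
      fun v => if v ∈ G then none else some (x v), Vf sg dm J G s x)
  have k1 : ∀ x y, κ₁ y = κ₁ x ↔ (∀ j ∈ J, sg j y = sg j x) ∧
      (∀ v, v ∉ Vf sg dm J G s x → y v = x v) ∧ DJ sg dm Jᶜ y ∩ G = DJ sg dm Jᶜ x ∩ G := by
    intro x y
    constructor
    · intro hxy
      obtain ⟨e1, e2⟩ := Prod.mk.inj hxy
      obtain ⟨e2, e3⟩ := Prod.mk.inj e2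
      have hsg : ∀ j ∈ J, sg j y = sg j x := by
        intro j hj
        have := congrFun e1 j
        simp only [if_pos hj] at this
        exact Option.some.inj this
      refine ⟨hsg, fun v hv => ?_, e3⟩
      have := congrFun e2 v
      simp only [if_neg hv, if_neg (show v ∉ Vf sg dm J G s y by
        rw [Vf_congr hsg]; exact hv)] at this
      exact Option.some.inj this
    · rintro ⟨h1, h2, h3⟩
      have hV : Vf sg dm J G s y = Vf sg dm J G s x := Vf_congr h1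
      refine Prod.ext ?_ (Prod.ext ?_ h3)
      · funext j
        by_cases hj : j ∈ J
        · simp only [κ₁, if_pos hj, h1 j hj]
        · simp only [κ₁, if_neg hj]
      · funext v
        by_cases hv : v ∈ Vf sg dm J G s x
        · simp only [κ₁, if_pos hv, if_pos (show v ∈ Vf sg dm J G s y by rw [hV]; exact hv)]
        · simp only [κ₁, if_neg hv, if_neg (show v ∉ Vf sg dm J G s y by rw [hV]; exact hv), h2 v hv]
  have k2 : ∀ x y, κ₂ y = κ₂ x ↔ (∀ j, j ∉ J → sg j y = sg j x) ∧ (∀ v, v ∉ G → y v = x v) ∧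
      Vf sg dm J G s y = Vf sg dm J G s x := by
    intro x y
    constructor
    · intro hxy
      obtain ⟨e1, e2⟩ := Prod.mk.inj hxy
      obtain ⟨e2, e3⟩ := Prod.mk.inj e2
      refine ⟨fun j hj => ?_, fun v hv => ?_, e3⟩
      · have := congrFun e1 j
        simp only [if_neg hj] at this
        exact Option.some.inj this
      · have := congrFun e2 v
        simp only [if_neg hv] at this
        exact Option.some.inj this
    · rintro ⟨h1, h2, h3⟩
      refine Prod.ext ?_ (Prod.ext ?_ h3)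
      · funext j
        by_cases hj : j ∈ J
        · simp only [κ₂, if_pos hj]
        · simp only [κ₂, if_neg hj, h1 j hj]
      · funext v
        by_cases hv : v ∈ G
        · simp only [κ₂, if_pos hv]
        · simp only [κ₂, if_neg hv, h2 v hv]
  obtain ⟨bl, hbl⟩ : ∃ bl, bl = (G.powerset.filter (fun S => S.card ≤ d)).card := ⟨_, rfl⟩
  -- poor elements
  have p1 := poor_le F' κ₁ t (2 ^ n * bl / 2 ^ s) ht (by
    intro R hRF hR
    rw [Nat.le_div_iff_mul_le (by positivity), hbl]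
    exact pack_rows hDPS J G (Vf sg dm J G s) s d hVs hVd (fun x _ y _ => Vf_congr) hD R hRF (by
      intro x hx y hy h1 h2 h3
      exact hR (mem_coe.2 hx) (mem_coe.2 hy) ((k1 y x).2 ⟨h1, fun v hv =>
        h2 v (by rw [Vf_congr h1]; exact hv), h3⟩)))
  have p2 := poor_le F' κ₂ t (2 ^ n * n.choose s / 2 ^ (G.card - d)) ht (by
    intro R hRF hR
    rw [Nat.le_div_iff_mul_le (by positivity)]
    exact pack_cols hDPS J G (Vf sg dm J G s) s d hVs hD R hRF (by
      intro x hx y hy h1 h2 h3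
      exact hR (mem_coe.2 hx) (mem_coe.2 hy) ((k2 y x).2 ⟨h1, h2, h3⟩)))
  have f1 : ∀ x, F'.filter (fun y => κ₁ y = κ₁ x) = rw' F' sg dm J G s x := by
    intro x
    ext y
    rw [mem_filter, mem_rw, k1]
  have f2 : ∀ x, F'.filter (fun y => κ₂ y = κ₂ x) = cl' F' sg dm J G s x := by
    intro x
    ext y
    rw [mem_filter, mem_cl, k2]
  have hcast : ∀ a b c : ℕ, 0 < c → (((2 ^ a * b / c : ℕ)) : ℝ) ≤ 2 ^ a * b / c := by
    intro a b c _
    refine Nat.cast_div_le.trans (le_of_eq ?_)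
    push_cast
    ring
  obtain ⟨Bg, hBg⟩ : ∃ Bg, Bg = F'.filter (fun x => t ≤ ((rw' F' sg dm J G s x).card : ℝ) ∧
    t ≤ ((cl' F' sg dm J G s x).card : ℝ)) := ⟨_, rfl⟩
  have hBF : Bg ⊆ F' := by
    rw [hBg]
    exact filter_subset _ _
  have hsmall : ((F' \ Bg).card : ℝ) ≤ t * (2 ^ n * bl / 2 ^ s + 2 ^ n * n.choose s /
      2 ^ (G.card - d)) := by
    have h1 : F' \ Bg ⊆ F'.filter (fun x => ((F'.filter (fun y => κ₁ y = κ₁ x)).card : ℝ) < t) ∪
        F'.filter (fun x => ((F'.filter (fun y => κ₂ y = κ₂ x)).card : ℝ) < t) := by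
      intro x hx
      obtain ⟨hxF, hxB⟩ := mem_sdiff.1 hx
      rw [mem_union, mem_filter, mem_filter, f1, f2]
      rw [hBg, mem_filter] at hxB
      by_contra hcon
      push Not at hcon
      exact hxB ⟨hxF, hcon.1 hxF, hcon.2 hxF⟩
    have h2 : ((F' \ Bg).card : ℝ) ≤ t * (2 ^ n * bl / 2 ^ s : ℕ) +
        t * (2 ^ n * n.choose s / 2 ^ (G.card - d) : ℕ) := by
      have h3 : ((F' \ Bg).card : ℝ) ≤
          (F'.filter (fun x => ((F'.filter (fun y => κ₁ y = κ₁ x)).card : ℝ) < t)).card +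
          (F'.filter (fun x => ((F'.filter (fun y => κ₂ y = κ₂ x)).card : ℝ) < t)).card := by
        exact_mod_cast (card_le_card h1).trans (card_union_le _ _)
      refine h3.trans ?_
      refine add_le_add (le_trans (le_of_eq ?_) p1) (le_trans (le_of_eq ?_) p2)
      · congr!
      · congr!
    refine h2.trans ?_
    rw [← mul_add]
    refine mul_le_mul_of_nonneg_left (add_le_add ?_ ?_) ht
    · exact_mod_cast hcast n bl (2 ^ s) (by positivity)
    · exact_mod_cast hcast n (n.choose s) (2 ^ (G.card - d)) (by positivity)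
  -- the classes
  have hRB : ∀ x ∈ Bg, ∀ z ∈ Rt F' sg dm J G s x, z ∈ Bg ∧ Rt F' sg dm J G s z = Rt F' sg dm J G s x := by
    intro x hx z hz
    have hxF := hBF hx
    subst hF'
    refine ⟨?_, Rt_eq h hxF hz⟩
    rw [hBg, mem_filter] at hx ⊢
    refine ⟨Rt_sub h hxF hz, hx.2.1.trans ?_, hx.2.2.trans ?_⟩
    · exact_mod_cast rw_card_le h hxF hz
    · exact_mod_cast cl_card_le h hxF hz
  have hfib : ∀ x ∈ Bg, Bg.filter (fun z => Rt F' sg dm J G s z = Rt F' sg dm J G s x) =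
      Rt F' sg dm J G s x := by
    intro x hx
    ext z
    rw [mem_filter]
    constructor
    · rintro ⟨hz, hzx⟩
      rw [← hzx]
      subst hF'
      exact self_Rt (hBF hz)
    · intro hz
      exact hRB x hx z hz
  have hbig : |∑ x ∈ Bg, g x| ≤ η * Bg.card := by
    rw [← sum_fiberwise_of_maps_to (t := Bg.image (Rt F' sg dm J G s)) (g := Rt F' sg dm J G s)
      (fun x hx => mem_image_of_mem _ hx)]
    refine (abs_sum_le_sum_abs _ _).trans ?_
    have h1 : (Bg.card : ℝ) = ∑ C ∈ Bg.image (Rt F' sg dm J G s), (C.card : ℝ) := by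
      have : (Bg.card : ℝ) = ∑ x ∈ Bg, (1 : ℝ) := by rw [sum_const, nsmul_eq_mul, mul_one]
      rw [this, ← sum_fiberwise_of_maps_to (t := Bg.image (Rt F' sg dm J G s))
        (g := Rt F' sg dm J G s) (fun x hx => mem_image_of_mem _ hx)]
      refine sum_congr rfl (fun C hC => ?_)
      obtain ⟨x, hx, rfl⟩ := mem_image.1 hC
      rw [hfib x hx, sum_const, nsmul_eq_mul, mul_one]
    rw [h1, mul_sum]
    refine sum_le_sum (fun C hC => ?_)
    obtain ⟨x, hx, rfl⟩ := mem_image.1 hC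
    rw [hfib x hx]
    have hxF := hBF hx
    have hcard : ((Rt F' sg dm J G s x).card : ℝ) =
        (rw' F' sg dm J G s x).card * (cl' F' sg dm J G s x).card := by
      subst hF'
      have := sum_Rt hxF (fun _ => (1 : ℝ))
      simp only [sum_const, nsmul_eq_mul, mul_one] at this
      exact this
    rw [hcard, ← mul_assoc]
    have hsum : ∑ z ∈ Rt F' sg dm J G s x, g z = ∑ a ∈ rw' F' sg dm J G s x,
        ∑ b ∈ cl' F' sg dm J G s x, g (glue (Vf sg dm J G s x) a b) := by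
      subst hF'
      exact sum_Rt hxF g
    rw [hsum]
    rw [hBg, mem_filter] at hx
    refine hdisc (Vf sg dm J G s x) _ _ hx.2.1 hx.2.2 ?_ ?_
    · intro a ha a' ha' v hv
      rw [(mem_rw.1 ha).2.2.1 v hv, (mem_rw.1 ha').2.2.1 v hv]
    · intro b hb b' hb' v hv
      have h1 : v ∉ G := by
        subst hF'
        exact Vf_G hxF hv
      rw [(mem_cl.1 hb).2.2.1 v h1, (mem_cl.1 hb').2.2.1 v h1]
  have hrest : |∑ x ∈ F' \ Bg, g x| ≤ (F' \ Bg).card := by
    refine (abs_sum_le_sum_abs _ _).trans ?_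
    refine (sum_le_sum (fun x _ => hg x)).trans (le_of_eq ?_)
    rw [sum_const, nsmul_eq_mul, mul_one]
  have hsplit : ∑ x ∈ F', g x = ∑ x ∈ F' \ Bg, g x + ∑ x ∈ Bg, g x :=
    (sum_sdiff hBF).symm
  rw [← hF', ← hbl, hsplit]
  have hcardB : (Bg.card : ℝ) ≤ F'.card := by exact_mod_cast card_le_card hBF
  calc |∑ x ∈ F' \ Bg, g x + ∑ x ∈ Bg, g x| ≤ |∑ x ∈ F' \ Bg, g x| + |∑ x ∈ Bg, g x| := abs_add_le _ _
    _ ≤ t * (2 ^ n * bl / 2 ^ s + 2 ^ n * n.choose s / 2 ^ (G.card - d)) + η * F'.card :=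
        add_le_add (hrest.trans hsmall) (hbig.trans (mul_le_mul_of_nonneg_left hcardB hη))
    _ = _ := add_comm _ _

end SRBP
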