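import Pool.Agent.Lib.MP_9dcf40_lc.DTR.Part

/-!
# Theorem DTX (MP_9dcf40_lc): partition and packing with two thresholds
-/

namespace SRBP

open Finset

/-- On every rectangle with an erased set of size `s`, rows `≥ t`, columns `≥ t'` the sum of `g` is at most
`η` times the size. -/
def DiscX {n : ℕ} (g : (Fin n → Bool) → ℝ) (s : ℕ) (t t' η : ℝ) : Prop :=
  ∀ (U : Finset (Fin n)) (A B : Finset (Fin n → Bool)), U.card = s → t ≤ A.card → t' ≤ B.card →
    (∀ a ∈ A, ∀ a' ∈ A, ∀ v, v ∉ U → a v = a' v) → (∀ b ∈ B, ∀ b' ∈ B, ∀ v ∈ U, b v = b' v) →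
    |∑ a ∈ A, ∑ b ∈ B, g (glue U a b)| ≤ η * A.card * B.card

open PartR in
open scoped Classical in
theorem partX {n r : ℕ} {β : Type} {F : Finset (Fin n → Bool)}
    {sg : Fin r → (Fin n → Bool) → β} {dm : β → Finset (Fin n)} (h : DPC n r F sg dm)
    (J : Finset (Fin r)) (G : Finset (Fin n)) (s d : ℕ) (g : (Fin n → Bool) → ℝ) (t t' η : ℝ)
    (hg : ∀ x, |g x| ≤ 1) (ht : 0 ≤ t) (ht' : 0 ≤ t') (hη : 0 ≤ η) (hdisc : DiscX g s t t' η) :
    |∑ x ∈ Gd F sg dm J G s d, g x| ≤ η * (Gd F sg dm J G s d).card +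
      (t * (2 ^ n * (G.powerset.filter (fun S => S.card ≤ d)).card / 2 ^ s) +
      t' * (2 ^ n * n.choose s / 2 ^ (G.card - d))) := by
  obtain ⟨F', hF'⟩ : ∃ F', F' = Gd F sg dm J G s d := ⟨_, rfl⟩
  have hsubF : F' ⊆ F := by
    rw [hF']
    exact fun x hx => (mem_Gd.1 hx).1
  have hDPS : DPS n r F' sg dm := h.toDPS.mono hsubF
  have hVs : ∀ x ∈ F', (Vf sg dm J G s x).card = s := fun x hx => Vf_card (hF' ▸ hx)
  have hVd : ∀ x ∈ F', Disjoint (Vf sg dm J G s x) (DJ sg dm J x) := fun x hx =>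
    disjoint_left.2 (fun v hv => Vf_DJ (hF' ▸ hx) hv)
  have hD : ∀ x ∈ F', (DJ sg dm Jᶜ x ∩ G).card ≤ d := fun x hx => (mem_Gd.1 (hF' ▸ hx)).2.2
  -- keys
  let κ₁ : (Fin n → Bool) → (Fin r → Option β) × (Fin n → Option Bool) × Finset (Fin n) :=
    fun x => (fun j => if j ∈ J then some (sg j x) else none,
      fun v => if v ∈ Vf sg dm J G s x then none else some (x v), DJ sg dm Jᶜ x ∩ G)
  let κ₂ : (Fin n → Bool) → (Fin r → Option β) × (Fin n → Option Bool) × Finset (Fin n) :=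
    fun x => (fun j => if j ∈ J then none else some (sg j x),
      fun v => if v ∈ G then none else some (x v), Vf sg dm J G s x)
  have k1 : ∀ x y, κ₁ y = κ₁ x ↔ (∀ j ∈ J, sg j y = sg j x) ∧
      (∀ v, v ∉ Vf sg dm J G s x → y v = x v) ∧ DJ sg dm Jᶜ y ∩ G = DJ sg dm Jᶜ x ∩ G := by
    intro x y
    constructor
    · intro hxy
      obtain ⟨e1, e2⟩ := Prod.mk.inj hxy
      obtain ⟨e2, e3⟩ := Prod.mk.inj e2
      have hsg : ∀ j ∈ J, sg j y = sg j x := by
        intro j hj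
        have := congrFun e1 j
        simp only [if_pos hj] at this
        exact Option.some.inj this
      refine ⟨hsg, fun v hv => ?_, e3⟩
      have := congrFun e2 v
      simp only [if_neg hv, if_neg (show v ∉ Vf sg dm J G s y by
        rw [Vf_congr hsg]; exact hv)] at this
      exact Option.some.inj this
    · rintro ⟨h1, h2, h3⟩
      have hV : Vf sg dm J G s y = Vf sg dm J G s x := Vf_congr h1
      refine Prod.ext ?_ (Prod.ext ?_ h3)
      · funext j
        by_cases hj : j ∈ J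
        · simp only [κ₁, if_pos hj, h1 j hj]
        · simp only [κ₁, if_neg hj]
      · funext v
        by_cases hv : v ∈ Vf sg dm J G s x
        · simp only [κ₁, if_pos hv, if_pos (show v ∈ Vf sg dm J G s y by rw [hV]; exact hv)]
        · simp only [κ₁, if_neg hv, if_neg (show v ∉ Vf sg dm J G s y by rw [hV]; exact hv), h2 v hv]
  have k2 : ∀ x y, κ₂ y = κ₂ x ↔ (∀ j, j ∉ J → sg j y = sg j x) ∧ (∀ v, v ∉ G → y v = x v) ∧
      Vf sg dm J G s y = Vf sg dm J G s x := by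
    intro x y
    constructor
    · intro hxy
      obtain ⟨e1, e2⟩ := Prod.mk.inj hxy
      obtain ⟨e2, e3⟩ := Prod.mk.inj e2
      refine ⟨fun j hj => ?_, fun v hv => ?_, e3⟩
      · have := congrFun e1 j
        simp only [if_neg hj] at this
        exact Option.some.inj this
      · have := congrFun e2 v
        simp only [if_neg hv] at this
        exact Option.some.inj this
    · rintro ⟨h1, h2, h3⟩
      refine Prod.ext ?_ (Prod.ext ?_ h3)
      · funext j
        by_cases hj : j ∈ J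
        · simp only [κ₂, if_pos hj]
        · simp only [κ₂, if_neg hj, h1 j hj]
      · funext v
        by_cases hv : v ∈ G
        · simp only [κ₂, if_pos hv]
        · simp only [κ₂, if_neg hv, h2 v hv]
  obtain ⟨bl, hbl⟩ : ∃ bl, bl = (G.powerset.filter (fun S => S.card ≤ d)).card := ⟨_, rfl⟩
  -- poor elements
  have p1 := poor_le F' κ₁ t (2 ^ n * bl / 2 ^ s) ht (by
    intro R hRF hR
    rw [Nat.le_div_iff_mul_le (by positivity), hbl]
    exact pack_rows hDPS J G (Vf sg dm J G s) s d hVs hVd (fun x _ y _ => Vf_congr) hD R hRF (by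
      intro x hx y hy h1 h2 h3
      exact hR (mem_coe.2 hx) (mem_coe.2 hy) ((k1 y x).2 ⟨h1, fun v hv =>
        h2 v (by rw [Vf_congr h1]; exact hv), h3⟩)))
  have p2 := poor_le F' κ₂ t' (2 ^ n * n.choose s / 2 ^ (G.card - d)) ht' (by
    intro R hRF hR
    rw [Nat.le_div_iff_mul_le (by positivity)]
    exact pack_cols hDPS J G (Vf sg dm J G s) s d hVs hD R hRF (by
      intro x hx y hy h1 h2 h3
      exact hR (mem_coe.2 hx) (mem_coe.2 hy) ((k2 y x).2 ⟨h1, h2, h3⟩)))
  have f1 : ∀ x, F'.filter (fun y => κ₁ y = κ₁ x) = rw' F' sg dm J G s x := by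
    intro x
    ext y
    rw [mem_filter, mem_rw, k1]
  have f2 : ∀ x, F'.filter (fun y => κ₂ y = κ₂ x) = cl' F' sg dm J G s x := by
    intro x
    ext y
    rw [mem_filter, mem_cl, k2]
  have hcast : ∀ a b c : ℕ, 0 < c → (((2 ^ a * b / c : ℕ)) : ℝ) ≤ 2 ^ a * b / c := by
    intro a b c _
    refine Nat.cast_div_le.trans (le_of_eq ?_)
    push_cast
    ring
  obtain ⟨Bg, hBg⟩ : ∃ Bg, Bg = F'.filter (fun x => t ≤ ((rw' F' sg dm J G s x).card : ℝ) ∧
    t' ≤ ((cl' F' sg dm J G s x).card : ℝ)) := ⟨_, rfl⟩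
  have hBF : Bg ⊆ F' := by
    rw [hBg]
    exact filter_subset _ _
  have hsmall : ((F' \ Bg).card : ℝ) ≤ t * (2 ^ n * bl / 2 ^ s) + t' * (2 ^ n * n.choose s /
      2 ^ (G.card - d)) := by
    have h1 : F' \ Bg ⊆ F'.filter (fun x => ((F'.filter (fun y => κ₁ y = κ₁ x)).card : ℝ) < t) ∪
        F'.filter (fun x => ((F'.filter (fun y => κ₂ y = κ₂ x)).card : ℝ) < t') := by
      intro x hx
      obtain ⟨hxF, hxB⟩ := mem_sdiff.1 hx
      rw [mem_union, mem_filter, mem_filter, f1, f2]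
      rw [hBg, mem_filter] at hxB
      by_contra hcon
      push Not at hcon
      exact hxB ⟨hxF, hcon.1 hxF, hcon.2 hxF⟩
    have h2 : ((F' \ Bg).card : ℝ) ≤ t * (2 ^ n * bl / 2 ^ s : ℕ) +
        t' * (2 ^ n * n.choose s / 2 ^ (G.card - d) : ℕ) := by
      have h3 : ((F' \ Bg).card : ℝ) ≤
          (F'.filter (fun x => ((F'.filter (fun y => κ₁ y = κ₁ x)).card : ℝ) < t)).card +
          (F'.filter (fun x => ((F'.filter (fun y => κ₂ y = κ₂ x)).card : ℝ) < t')).card := by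
        exact_mod_cast (card_le_card h1).trans (card_union_le _ _)
      refine h3.trans ?_
      refine add_le_add (le_trans (le_of_eq ?_) p1) (le_trans (le_of_eq ?_) p2)
      · congr!
      · congr!
    refine h2.trans (add_le_add (mul_le_mul_of_nonneg_left ?_ ht)
      (mul_le_mul_of_nonneg_left ?_ ht'))
    · exact_mod_cast hcast n bl (2 ^ s) (by positivity)
    · exact_mod_cast hcast n (n.choose s) (2 ^ (G.card - d)) (by positivity)
  -- the classes
  have hRB : ∀ x ∈ Bg, ∀ z ∈ Rt F' sg dm J G s x, z ∈ Bg ∧ Rt F' sg dm J G s z = Rt F' sg dm J G s x := by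
    intro x hx z hz
    have hxF := hBF hx
    subst hF'
    refine ⟨?_, Rt_eq h hxF hz⟩
    rw [hBg, mem_filter] at hx ⊢
    refine ⟨Rt_sub h hxF hz, hx.2.1.trans ?_, hx.2.2.trans ?_⟩
    · exact_mod_cast rw_card_le h hxF hz
    · exact_mod_cast cl_card_le h hxF hz
  have hfib : ∀ x ∈ Bg, Bg.filter (fun z => Rt F' sg dm J G s z = Rt F' sg dm J G s x) =
      Rt F' sg dm J G s x := by
    intro x hx
    ext z
    rw [mem_filter]
    constructor
    · rintro ⟨hz, hzx⟩
      rw [← hzx]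
      subst hF'
      exact self_Rt (hBF hz)
    · intro hz
      exact hRB x hx z hz
  have hbig : |∑ x ∈ Bg, g x| ≤ η * Bg.card := by
    rw [← sum_fiberwise_of_maps_to (t := Bg.image (Rt F' sg dm J G s)) (g := Rt F' sg dm J G s)
      (fun x hx => mem_image_of_mem _ hx)]
    refine (abs_sum_le_sum_abs _ _).trans ?_
    have h1 : (Bg.card : ℝ) = ∑ C ∈ Bg.image (Rt F' sg dm J G s), (C.card : ℝ) := by
      have : (Bg.card : ℝ) = ∑ x ∈ Bg, (1 : ℝ) := by rw [sum_const, nsmul_eq_mul, mul_one]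
      rw [this, ← sum_fiberwise_of_maps_to (t := Bg.image (Rt F' sg dm J G s))
        (g := Rt F' sg dm J G s) (fun x hx => mem_image_of_mem _ hx)]
      refine sum_congr rfl (fun C hC => ?_)
      obtain ⟨x, hx, rfl⟩ := mem_image.1 hC
      rw [hfib x hx, sum_const, nsmul_eq_mul, mul_one]
    rw [h1, mul_sum]
    refine sum_le_sum (fun C hC => ?_)
    obtain ⟨x, hx, rfl⟩ := mem_image.1 hC
    rw [hfib x hx]
    have hxF := hBF hx
    have hcard : ((Rt F' sg dm J G s x).card : ℝ) =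
        (rw' F' sg dm J G s x).card * (cl' F' sg dm J G s x).card := by
      subst hF'
      have := sum_Rt hxF (fun _ => (1 : ℝ))
      simp only [sum_const, nsmul_eq_mul, mul_one] at this
      exact this
    rw [hcard, ← mul_assoc]
    have hsum : ∑ z ∈ Rt F' sg dm J G s x, g z = ∑ a ∈ rw' F' sg dm J G s x,
        ∑ b ∈ cl' F' sg dm J G s x, g (glue (Vf sg dm J G s x) a b) := by
      subst hF'
      exact sum_Rt hxF g
    rw [hsum]
    rw [hBg, mem_filter] at hx
    refine hdisc (Vf sg dm J G s x) _ _ (hVs x hxF) hx.2.1 hx.2.2 ?_ ?_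
    · intro a ha a' ha' v hv
      rw [(mem_rw.1 ha).2.2.1 v hv, (mem_rw.1 ha').2.2.1 v hv]
    · intro b hb b' hb' v hv
      have h1 : v ∉ G := by
        subst hF'
        exact Vf_G hxF hv
      rw [(mem_cl.1 hb).2.2.1 v h1, (mem_cl.1 hb').2.2.1 v h1]
  have hrest : |∑ x ∈ F' \ Bg, g x| ≤ (F' \ Bg).card := by
    refine (abs_sum_le_sum_abs _ _).trans ?_
    refine (sum_le_sum (fun x _ => hg x)).trans (le_of_eq ?_)
    rw [sum_const, nsmul_eq_mul, mul_one]
  have hsplit : ∑ x ∈ F', g x = ∑ x ∈ F' \ Bg, g x + ∑ x ∈ Bg, g x :=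
    (sum_sdiff hBF).symm
  rw [← hF', ← hbl, hsplit]
  have hcardB : (Bg.card : ℝ) ≤ F'.card := by exact_mod_cast card_le_card hBF
  calc |∑ x ∈ F' \ Bg, g x + ∑ x ∈ Bg, g x| ≤ |∑ x ∈ F' \ Bg, g x| + |∑ x ∈ Bg, g x| := abs_add_le _ _
    _ ≤ (t * (2 ^ n * bl / 2 ^ s) + t' * (2 ^ n * n.choose s / 2 ^ (G.card - d))) + η * F'.card :=
        add_le_add (hrest.trans hsmall) (hbig.trans (mul_le_mul_of_nonneg_left hcardB hη))
    _ = _ := add_comm _ _

end SRBP
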