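import Pool.Agent.Lib.MP_9dcf40_lc.DTR.QForm

/-!
# Theorem DTX (MP_9dcf40_lc): few quartic polynomials have a degenerate third difference
-/

namespace SRBP

open Finset

namespace DX

variable {n : ℕ}

theorem pY_sub (X Y S : Finset (Fin n)) : pY X Y S ⊆ Y := inter_subset_right

theorem pZ_sub (X Y Z S : Finset (Fin n)) : pZ X Y Z S ⊆ Z := inter_subset_right

theorem L_congr (c : Coef n → Bool) (X Y Z : Finset (Fin n)) (i : Fin n)
    {y y₁ y' y₁' : Fin n → Bool} (z z' b b' : Fin n → Bool)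
    (h : ∀ v ∈ Y, y v = y₁ v) (h' : ∀ v ∈ Y, y' v = y₁' v) :
    L c X Y Z i y y' z z' b b' = L c X Y Z i y₁ y₁' z z' b b' := by
  unfold L
  refine sum_congr rfl (fun C _ => ?_)
  have h1 : D (pY X Y C.1) y y' = D (pY X Y C.1) y₁ y₁' := by
    unfold D
    rw [mS_congr (fun v hv => h v (pY_sub X Y C.1 hv)),
      mS_congr (fun v hv => h' v (pY_sub X Y C.1 hv))]
  unfold wt3
  rw [h1]

theorem L_add (c : Coef n → Bool) (X Y Z : Finset (Fin n)) (i : Fin n)
    (y y' y'' z z' b b' : Fin n → Bool) :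
    L c X Y Z i y y' z z' b b' + L c X Y Z i y'' y' z z' b b' =
      L c X Y Z i y y'' z z' b b' := by
  unfold L
  rw [← sum_add_distrib]
  refine sum_congr rfl (fun C _ => ?_)
  have h0 : ∀ u v w : ZMod 2, (u + v) + (w + v) = u + w := by decide
  have h1 : D (pY X Y C.1) y y' + D (pY X Y C.1) y'' y' = D (pY X Y C.1) y y'' := by
    unfold D
    exact h0 _ _ _
  split_ifs
  · unfold wt3
    rw [← h1]
    ring
  · rw [add_zero]

/-- The admissible data. -/
def Adm (m : ℕ) (X Y Z : Finset (Fin n)) (z z' b b' : Fin n → Bool) : Prop :=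
  Disjoint X Y ∧ Disjoint X Z ∧ Disjoint Y Z ∧ X.card = 2 * m ∧ Y.card = m ∧
    (∃ l ∈ Z, z l ≠ z' l) ∧ ∃ v, v ∉ X ∧ v ∉ Y ∧ v ∉ Z ∧ b v ≠ b' v

/-- The degenerate data. -/
def Str (c : Coef n → Bool) (w : ℕ) (X Y Z : Finset (Fin n)) (z z' b b' : Fin n → Bool) : Prop :=
  ∃ W : Finset (Fin n), W ⊆ Y ∧ W.card = w ∧ ∃ (h0 : Fin n → Bool) (h : Fin n → Fin n → Bool),
    (∀ j ∈ W, h0 j = false) ∧ (∀ t ∈ W, ∀ j ∈ W, (h t j = true ↔ j = t)) ∧
    ∀ t ∈ W, ∀ i ∈ X, L c X Y Z i (h t) h0 z z' b b' = 0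

/-- The four element set. -/
def q4 (i t l v : Fin n) : Finset (Fin n) := {i, t, l, v}

theorem q4_card (i t l v : Fin n) : (q4 i t l v).card ≤ 4 := by
  unfold q4
  exact card_le_four

/-- The coefficient index. -/
def Q4 (i t l v : Fin n) : Coef n := ⟨q4 i t l v, q4_card i t l v⟩

theorem q4_parts {X Y Z : Finset (Fin n)} (hXY : Disjoint X Y) (hXZ : Disjoint X Z)
    (hYZ : Disjoint Y Z) {i t l v : Fin n} (hi : i ∈ X) (ht : t ∈ Y) (hl : l ∈ Z)
    (hvX : v ∉ X) (hvY : v ∉ Y) (hvZ : v ∉ Z) :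
    q4 i t l v ∩ X = {i} ∧ pY X Y (q4 i t l v) = {t} ∧ pZ X Y Z (q4 i t l v) = {l} ∧
      pR X Y Z (q4 i t l v) = {v} := by
  have htX : t ∉ X := fun h => disjoint_left.1 hXY h ht
  have hlX : l ∉ X := fun h => disjoint_left.1 hXZ h hl
  have hlY : l ∉ Y := fun h => disjoint_left.1 hYZ h hl
  have hiY : i ∉ Y := fun h => disjoint_left.1 hXY hi h
  have hiZ : i ∉ Z := fun h => disjoint_left.1 hXZ hi h
  have htZ : t ∉ Z := fun h => disjoint_left.1 hYZ ht h
  unfold pY pZ pR q4
  refine ⟨?_, ?_, ?_, ?_⟩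
  · ext x
    simp only [mem_inter, mem_insert, mem_singleton]
    constructor
    · rintro ⟨rfl | rfl | rfl | rfl, hx⟩
      · rfl
      · exact absurd hx htX
      · exact absurd hx hlX
      · exact absurd hx hvX
    · rintro rfl
      exact ⟨Or.inl rfl, hi⟩
  · ext x
    simp only [mem_inter, mem_sdiff, mem_insert, mem_singleton]
    constructor
    · rintro ⟨⟨rfl | rfl | rfl | rfl, hx⟩, hx'⟩
      · exact absurd hi hx
      · rfl
      · exact absurd hx' hlY
      · exact absurd hx' hvY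
    · rintro rfl
      exact ⟨⟨Or.inr (Or.inl rfl), htX⟩, ht⟩
  · ext x
    simp only [mem_inter, mem_sdiff, mem_insert, mem_singleton]
    constructor
    · rintro ⟨⟨⟨rfl | rfl | rfl | rfl, hx⟩, hx'⟩, hx''⟩
      · exact absurd hi hx
      · exact absurd ht hx'
      · rfl
      · exact absurd hx'' hvZ
    · rintro rfl
      exact ⟨⟨⟨Or.inr (Or.inr (Or.inl rfl)), hlX⟩, hlY⟩, hl⟩
  · ext x
    simp only [mem_sdiff, mem_insert, mem_singleton]
    constructor
    · rintro ⟨⟨⟨rfl | rfl | rfl | rfl, hx⟩, hx'⟩, hx''⟩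
      · exact absurd hi hx
      · exact absurd ht hx'
      · exact absurd hl hx''
      · rfl
    · rintro rfl
      exact ⟨⟨⟨Or.inr (Or.inr (Or.inr rfl)), hvX⟩, hvY⟩, hvZ⟩

theorem D_single (t : Fin n) (y y' : Fin n → Bool) :
    D {t} y y' = (if y t then 1 else 0) + (if y' t then 1 else 0) := by
  unfold D mS
  rw [prod_singleton, prod_singleton]

open scoped Classical in
/-- For fixed data few coefficient vectors are degenerate. -/
theorem count1 {m : ℕ} {X Y Z : Finset (Fin n)} {z z' b b' : Fin n → Bool}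
    (hA : Adm m X Y Z z z' b b') {W : Finset (Fin n)} (hW : W ⊆ Y)
    (h0 : Fin n → Bool) (h : Fin n → Fin n → Bool)
    (hh0 : ∀ j ∈ W, h0 j = false) (hh : ∀ t ∈ W, ∀ j ∈ W, (h t j = true ↔ j = t)) :
    ((univ : Finset (Coef n → Bool)).filter (fun c => ∀ t ∈ W, ∀ i ∈ X,
      L c X Y Z i (h t) h0 z z' b b' = 0)).card * 2 ^ (2 * m * W.card) ≤
      2 ^ Fintype.card (Coef n) := by
  obtain ⟨hXY, hXZ, hYZ, hXc, hYc, ⟨l, hl, hzl⟩, v, hvX, hvY, hvZ, hbv⟩ := hA
  have hparts := fun {i t : Fin n} (hi : i ∈ X) (ht : t ∈ Y) =>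
    q4_parts hXY hXZ hYZ hi ht hl hvX hvY hvZ
  obtain ⟨T, hT⟩ : ∃ T : Finset (Coef n), T = (X ×ˢ W).image (fun p => Q4 p.1 p.2 l v) := ⟨_, rfl⟩
  have hTc : T.card = 2 * m * W.card := by
    rw [hT, card_image_of_injOn, card_product, hXc]
    rintro ⟨i, t⟩ hp ⟨i', t'⟩ hp' he
    obtain ⟨hi, ht⟩ := mem_product.1 (mem_coe.1 hp)
    obtain ⟨hi', ht'⟩ := mem_product.1 (mem_coe.1 hp')
    have he' : q4 i t l v = q4 i' t' l v := congrArg Subtype.val he
    have p1 := hparts hi (hW ht)
    have p2 := hparts hi' (hW ht')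
    rw [he'] at p1
    have e1 : ({i} : Finset (Fin n)) = {i'} := p1.1.symm.trans p2.1
    have e2 : ({t} : Finset (Fin n)) = {t'} := p1.2.1.symm.trans p2.2.1
    rw [singleton_inj.1 e1, singleton_inj.1 e2]
  obtain ⟨K, hK⟩ : ∃ K, K = (univ : Finset (Coef n → Bool)).filter (fun c => ∀ t ∈ W, ∀ i ∈ X,
    L c X Y Z i (h t) h0 z z' b b' = 0) := ⟨_, rfl⟩
  rw [← hK, ← hTc]
  have huniq : ∀ c ∈ K, ∀ c' ∈ K, (∀ C, C ∉ T → c C = c' C) → c = c' := by
    intro c hc c' hc' hagree
    rw [hK] at hc hc'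
    have hc2 := (mem_filter.1 hc).2
    have hc2' := (mem_filter.1 hc').2
    funext C
    by_cases hC : C ∈ T
    · rw [hT] at hC
      obtain ⟨⟨i, t⟩, hp, rfl⟩ := mem_image.1 hC
      obtain ⟨hi, ht⟩ := mem_product.1 hp
      simp only at hi ht ⊢
      have e1 := hc2 t ht i hi
      have e2 := hc2' t ht i hi
      obtain ⟨p1, p2, p3, p4⟩ := hparts hi (hW ht)
      have hw1 : wt3 X Y Z (Q4 i t l v).1 (h t) h0 z z' b b' = 1 := by
        unfold wt3
        show D (pY X Y (q4 i t l v)) (h t) h0 * (D (pZ X Y Z (q4 i t l v)) z z' *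
          D (pR X Y Z (q4 i t l v)) b b') = 1
        rw [p2, p3, p4, D_single, D_single, D_single, (hh t ht t ht).2 rfl, hh0 t ht]
        revert hzl hbv
        cases z l <;> cases z' l <;> cases b v <;> cases b' v <;> simp
      -- the difference
      have hdiff : L c X Y Z i (h t) h0 z z' b b' - L c' X Y Z i (h t) h0 z z' b b' =
          cf c (Q4 i t l v) - cf c' (Q4 i t l v) := by
        unfold L
        rw [← sum_sub_distrib, sum_eq_single (Q4 i t l v)]
        · have p1' : (Q4 i t l v).1 ∩ X = {i} := p1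
          rw [if_pos p1', if_pos p1', hw1, mul_one, mul_one]
        · intro C _ hCne
          by_cases hCX : C.1 ∩ X = {i}
          · rw [if_pos hCX, if_pos hCX, ← sub_mul]
            by_cases hCT : C ∈ T
            · rw [hT] at hCT
              obtain ⟨⟨i', t'⟩, hp', rfl⟩ := mem_image.1 hCT
              obtain ⟨hi', ht'⟩ := mem_product.1 hp'
              simp only at hi' ht' hCX hCne ⊢
              obtain ⟨r1, r2, r3, r4⟩ := hparts hi' (hW ht')
              have hii : i' = i := by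
                have : ({i'} : Finset (Fin n)) = {i} := r1.symm.trans hCX
                exact singleton_inj.1 this
              have htt : t' ≠ t := by
                rintro rfl
                exact hCne (by rw [hii])
              have hw0 : wt3 X Y Z (Q4 i' t' l v).1 (h t) h0 z z' b b' = 0 := by
                unfold wt3
                show D (pY X Y (q4 i' t' l v)) (h t) h0 * _ = 0
                have e3 : h t t' = false := by
                  rw [← Bool.not_eq_true, hh t ht t' ht']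
                  exact htt
                rw [r2, D_single, e3, hh0 t' ht']
                simp
              rw [hw0, mul_zero]
            · unfold cf
              rw [hagree C hCT, sub_self, zero_mul]
          · rw [if_neg hCX, if_neg hCX, sub_self]
        · intro hne
          exact absurd (mem_univ _) hne
      rw [e1, e2, sub_self] at hdiff
      have h3 := sub_eq_zero.1 hdiff.symm
      unfold cf at h3
      cases h4 : c (Q4 i t l v) <;> cases h5 : c' (Q4 i t l v) <;> simp [h4, h5] at h3 ⊢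
    · exact hagree C hC
  have h1 : (K ×ˢ (univ : Finset (T → Bool))).card ≤
      (univ : Finset (Coef n → Bool)).card := by
    refine card_le_card_of_injOn
      (fun p => fun C => if h : C ∈ T then p.2 ⟨C, h⟩ else p.1 C) ?_ ?_
    · intro p _
      exact mem_univ _
    · rintro ⟨c, g⟩ hp ⟨c', g'⟩ hp' h
      have hc : c ∈ K := (mem_product.1 hp).1
      have hc' : c' ∈ K := (mem_product.1 hp').1
      have h2 : ∀ C, (if h : C ∈ T then g ⟨C, h⟩ else c C) =
          (if h : C ∈ T then g' ⟨C, h⟩ else c' C) := fun C => congrFun h C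
      have h3 : c = c' := by
        refine huniq c hc c' hc' fun C hC => ?_
        have h4 := h2 C
        rwa [dif_neg hC, dif_neg hC] at h4
      have h5 : g = g' := by
        funext ⟨C, hC⟩
        have h4 := h2 C
        rwa [dif_pos hC, dif_pos hC] at h4
      rw [h3, h5]
  rw [card_product, card_univ, card_univ, Fintype.card_fun, Fintype.card_fun,
    Fintype.card_bool, Fintype.card_coe] at h1
  exact h1

open scoped Classical in
/-- Few coefficient vectors are degenerate for some `W`. -/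
theorem count2 {m w : ℕ} {X Y Z : Finset (Fin n)} {z z' b b' : Fin n → Bool}
    (hA : Adm m X Y Z z z' b b') :
    ((univ : Finset (Coef n → Bool)).filter (fun c => Str c w X Y Z z z' b b')).card *
      2 ^ (2 * m * w) ≤ 2 ^ (2 * m + w * m) * 2 ^ Fintype.card (Coef n) := by
  have hYc : Y.card = m := hA.2.2.2.2.1
  let G : Finset (Fin n) → Finset (Fin n) → Finset (Fin n × Fin n) → Finset (Coef n → Bool) :=
    fun W H0 H => if (∀ j ∈ W, j ∉ H0) ∧ (∀ t ∈ W, ∀ j ∈ W, ((t, j) ∈ H ↔ j = t)) then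
      univ.filter (fun c => ∀ t ∈ W, ∀ i ∈ X, L c X Y Z i (fun j => decide ((t, j) ∈ H))
        (fun j => decide (j ∈ H0)) z z' b b' = 0) else ∅
  have hG : ∀ W H0 H, W ⊆ Y → W.card = w → (G W H0 H).card * 2 ^ (2 * m * w) ≤
      2 ^ Fintype.card (Coef n) := by
    intro W H0 H hWY hWc
    show (if (∀ j ∈ W, j ∉ H0) ∧ (∀ t ∈ W, ∀ j ∈ W, ((t, j) ∈ H ↔ j = t)) then
      univ.filter (fun c => ∀ t ∈ W, ∀ i ∈ X, L c X Y Z i (fun j => decide ((t, j) ∈ H))
        (fun j => decide (j ∈ H0)) z z' b b' = 0) else ∅ : Finset (Coef n → Bool)).card *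
        2 ^ (2 * m * w) ≤ _
    split_ifs with hc
    · have := count1 hA hWY (fun j => decide (j ∈ H0)) (fun t j => decide ((t, j) ∈ H))
        (fun j hj => by simpa using hc.1 j hj) (fun t ht j hj => by simpa using hc.2 t ht j hj)
      rw [hWc] at this
      exact this
    · rw [card_empty, Nat.zero_mul]
      exact Nat.zero_le _
  have hsub : (univ : Finset (Coef n → Bool)).filter (fun c => Str c w X Y Z z z' b b') ⊆
      (Y.powerset.filter (fun W => W.card = w)).biUnion (fun W => Y.powerset.biUnion (fun H0 =>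
        (W ×ˢ Y).powerset.biUnion (fun H => G W H0 H))) := by
    intro c hc
    obtain ⟨W, hWY, hWc, h0, h, hh0, hh, hL⟩ := (mem_filter.1 hc).2
    refine mem_biUnion.2 ⟨W, mem_filter.2 ⟨mem_powerset.2 hWY, hWc⟩,
      mem_biUnion.2 ⟨Y.filter (fun j => h0 j = true), mem_powerset.2 (filter_subset _ _),
      mem_biUnion.2 ⟨(W ×ˢ Y).filter (fun p => h p.1 p.2 = true),
        mem_powerset.2 (filter_subset _ _), ?_⟩⟩⟩
    show c ∈ (if _ then _ else _ : Finset (Coef n → Bool))
    rw [if_pos]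
    · refine mem_filter.2 ⟨mem_univ _, fun t ht i hi => ?_⟩
      rw [← hL t ht i hi]
      refine L_congr c X Y Z i z z' b b' (fun v hv => ?_) (fun v hv => ?_)
      · simp only [mem_filter, mem_product, ht, hv, and_self, true_and]
        cases h t v <;> simp
      · simp only [mem_filter, hv, true_and]
        cases h0 v <;> simp
    · refine ⟨fun j hj hj' => ?_, fun t ht j hj => ?_⟩
      · have := (mem_filter.1 hj').2
        rw [hh0 j hj] at this
        exact absurd this (by simp)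
      · rw [mem_filter, mem_product]
        constructor
        · rintro ⟨_, h1⟩
          exact (hh t ht j hj).1 h1
        · intro h1
          exact ⟨⟨ht, hWY hj⟩, (hh t ht j hj).2 h1⟩
  have h1 : ((univ : Finset (Coef n → Bool)).filter (fun c => Str c w X Y Z z z' b b')).card ≤
      ∑ W ∈ Y.powerset.filter (fun W => W.card = w), ∑ H0 ∈ Y.powerset,
        ∑ H ∈ (W ×ˢ Y).powerset, (G W H0 H).card := by
    refine (card_le_card hsub).trans (card_biUnion_le.trans (sum_le_sum (fun W _ => ?_)))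
    refine card_biUnion_le.trans (sum_le_sum (fun H0 _ => ?_))
    exact card_biUnion_le
  calc ((univ : Finset (Coef n → Bool)).filter (fun c => Str c w X Y Z z z' b b')).card *
        2 ^ (2 * m * w) ≤ (∑ W ∈ Y.powerset.filter (fun W => W.card = w), ∑ H0 ∈ Y.powerset,
        ∑ H ∈ (W ×ˢ Y).powerset, (G W H0 H).card) * 2 ^ (2 * m * w) := Nat.mul_le_mul_right _ h1
    _ = ∑ W ∈ Y.powerset.filter (fun W => W.card = w), ∑ H0 ∈ Y.powerset,
        ∑ H ∈ (W ×ˢ Y).powerset, (G W H0 H).card * 2 ^ (2 * m * w) := by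
        simp only [sum_mul]
    _ ≤ ∑ W ∈ Y.powerset.filter (fun W => W.card = w), ∑ H0 ∈ Y.powerset,
        ∑ H ∈ (W ×ˢ Y).powerset, 2 ^ Fintype.card (Coef n) := by
        refine sum_le_sum (fun W hW => sum_le_sum (fun H0 _ => sum_le_sum (fun H _ => ?_)))
        obtain ⟨hW1, hW2⟩ := mem_filter.1 hW
        exact hG W H0 H (mem_powerset.1 hW1) hW2
    _ = ∑ W ∈ Y.powerset.filter (fun W => W.card = w),
        2 ^ m * (2 ^ (w * m) * 2 ^ Fintype.card (Coef n)) := by
        refine sum_congr rfl (fun W hW => ?_)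
        obtain ⟨hW1, hW2⟩ := mem_filter.1 hW
        rw [sum_const, sum_const, card_powerset, card_powerset, card_product, hYc, hW2, smul_eq_mul,
          smul_eq_mul]
    _ ≤ 2 ^ m * (2 ^ m * (2 ^ (w * m) * 2 ^ Fintype.card (Coef n))) := by
        rw [sum_const, smul_eq_mul]
        refine Nat.mul_le_mul_right _ ?_
        calc _ ≤ Y.powerset.card := card_filter_le _ _
          _ = _ := by rw [card_powerset, hYc]
    _ = _ := by
        rw [← mul_assoc, ← mul_assoc, ← pow_add, ← pow_add]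
        congr 2
        ring

open scoped Classical in
/-- Few coefficient vectors are degenerate for some data with given `m`. -/
theorem count3 (n m w : ℕ) :
    ((univ : Finset (Coef n → Bool)).filter (fun c => ∃ (X Y Z : Finset (Fin n))
      (z z' b b' : Fin n → Bool), Adm m X Y Z z z' b b' ∧ Str c w X Y Z z z' b b')).card *
      2 ^ (2 * m * w) ≤ 2 ^ (7 * n) * (2 ^ (2 * m + w * m) * 2 ^ Fintype.card (Coef n)) := by
  let G : Finset (Fin n) × Finset (Fin n) × Finset (Fin n) × (Fin n → Bool) × (Fin n → Bool) ×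
      (Fin n → Bool) × (Fin n → Bool) → Finset (Coef n → Bool) :=
    fun p => if Adm m p.1 p.2.1 p.2.2.1 p.2.2.2.1 p.2.2.2.2.1 p.2.2.2.2.2.1 p.2.2.2.2.2.2 then
      univ.filter (fun c => Str c w p.1 p.2.1 p.2.2.1 p.2.2.2.1 p.2.2.2.2.1 p.2.2.2.2.2.1
        p.2.2.2.2.2.2) else ∅
  have hG : ∀ p, (G p).card * 2 ^ (2 * m * w) ≤ 2 ^ (2 * m + w * m) * 2 ^ Fintype.card (Coef n) := by
    intro p
    show (if Adm m p.1 p.2.1 p.2.2.1 p.2.2.2.1 p.2.2.2.2.1 p.2.2.2.2.2.1 p.2.2.2.2.2.2 then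
      univ.filter (fun c => Str c w p.1 p.2.1 p.2.2.1 p.2.2.2.1 p.2.2.2.2.1 p.2.2.2.2.2.1
        p.2.2.2.2.2.2) else ∅ : Finset (Coef n → Bool)).card * 2 ^ (2 * m * w) ≤ _
    split_ifs with hc
    · exact count2 hc
    · rw [card_empty, Nat.zero_mul]
      exact Nat.zero_le _
  have hsub : (univ : Finset (Coef n → Bool)).filter (fun c => ∃ (X Y Z : Finset (Fin n))
      (z z' b b' : Fin n → Bool), Adm m X Y Z z z' b b' ∧ Str c w X Y Z z z' b b') ⊆
      univ.biUnion G := by
    intro c hc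
    obtain ⟨X, Y, Z, z, z', b, b', h1, h2⟩ := (mem_filter.1 hc).2
    refine mem_biUnion.2 ⟨(X, Y, Z, z, z', b, b'), mem_univ _, ?_⟩
    show c ∈ (if Adm m X Y Z z z' b b' then univ.filter (fun c => Str c w X Y Z z z' b b') else ∅ :
      Finset (Coef n → Bool))
    rw [if_pos h1]
    exact mem_filter.2 ⟨mem_univ _, h2⟩
  have hcard : Fintype.card (Finset (Fin n) × Finset (Fin n) × Finset (Fin n) × (Fin n → Bool) ×
      (Fin n → Bool) × (Fin n → Bool) × (Fin n → Bool)) = 2 ^ (7 * n) := by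
    simp only [Fintype.card_prod, Fintype.card_finset, Fintype.card_fun, Fintype.card_fin,
      Fintype.card_bool, ← pow_add]
    congr 1
    ring
  calc _ ≤ (∑ p, (G p).card) * 2 ^ (2 * m * w) :=
        Nat.mul_le_mul_right _ ((card_le_card hsub).trans card_biUnion_le)
    _ = ∑ p, (G p).card * 2 ^ (2 * m * w) := sum_mul _ _ _
    _ ≤ ∑ _p : Finset (Fin n) × Finset (Fin n) × Finset (Fin n) × (Fin n → Bool) ×
      (Fin n → Bool) × (Fin n → Bool) × (Fin n → Bool),
        2 ^ (2 * m + w * m) * 2 ^ Fintype.card (Coef n) := sum_le_sum (fun p _ => hG p)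
    _ = _ := by rw [sum_const, card_univ, hcard, smul_eq_mul]

open scoped Classical in
/-- The union over `m`. -/
theorem count4 (n w : ℕ) (m₀ : ℕ) (hw : 11 * n + 2 ≤ m₀ * w) :
    4 * ((univ : Finset (Coef n → Bool)).filter (fun c => ∃ m, m₀ ≤ m ∧ m ≤ n ∧
      ∃ (X Y Z : Finset (Fin n)) (z z' b b' : Fin n → Bool),
        Adm m X Y Z z z' b b' ∧ Str c w X Y Z z z' b b')).card ≤ 2 ^ Fintype.card (Coef n) := by
  have h1 : ∀ m, m₀ ≤ m → m ≤ n → ((univ : Finset (Coef n → Bool)).filter (fun c =>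
      ∃ (X Y Z : Finset (Fin n)) (z z' b b' : Fin n → Bool),
        Adm m X Y Z z z' b b' ∧ Str c w X Y Z z z' b b')).card * 2 ^ (2 * n + 2) ≤
        2 ^ Fintype.card (Coef n) := by
    intro m hm hmn
    have h2 := count3 n m w
    have h3 : 11 * n + 2 ≤ m * w := hw.trans (Nat.mul_le_mul_right _ hm)
    have h4 : 2 ^ (7 * n) * (2 ^ (2 * m + w * m) * 2 ^ Fintype.card (Coef n)) =
        2 ^ (7 * n + (2 * m + w * m)) * 2 ^ Fintype.card (Coef n) := by
      rw [← mul_assoc, ← pow_add]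
    rw [h4] at h2
    have h5 : 2 * n + 2 + (7 * n + (2 * m + w * m)) ≤ 2 * m * w := by
      have : 2 * m * w = m * w + w * m := by ring
      rw [this]
      omega
    obtain ⟨K, hK⟩ : ∃ K, K = ((univ : Finset (Coef n → Bool)).filter (fun c =>
      ∃ (X Y Z : Finset (Fin n)) (z z' b b' : Fin n → Bool),
        Adm m X Y Z z z' b b' ∧ Str c w X Y Z z z' b b')).card := ⟨_, rfl⟩
    rw [← hK] at h2 ⊢
    have h6 : K * 2 ^ (2 * n + 2) * 2 ^ (7 * n + (2 * m + w * m)) ≤
        2 ^ Fintype.card (Coef n) * 2 ^ (7 * n + (2 * m + w * m)) := by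
      calc K * 2 ^ (2 * n + 2) * 2 ^ (7 * n + (2 * m + w * m)) =
            K * 2 ^ (2 * n + 2 + (7 * n + (2 * m + w * m))) := by rw [pow_add _ (2 * n + 2), mul_assoc]
        _ ≤ K * 2 ^ (2 * m * w) := Nat.mul_le_mul_left _ (Nat.pow_le_pow_right (by norm_num) h5)
        _ ≤ 2 ^ (7 * n + (2 * m + w * m)) * 2 ^ Fintype.card (Coef n) := h2
        _ = _ := Nat.mul_comm _ _
    exact Nat.le_of_mul_le_mul_right h6 (by positivity)
  have hsub : (univ : Finset (Coef n → Bool)).filter (fun c => ∃ m, m₀ ≤ m ∧ m ≤ n ∧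
      ∃ (X Y Z : Finset (Fin n)) (z z' b b' : Fin n → Bool),
        Adm m X Y Z z z' b b' ∧ Str c w X Y Z z z' b b') ⊆
      ((range (n + 1)).filter (fun m => m₀ ≤ m)).biUnion (fun m =>
        (univ : Finset (Coef n → Bool)).filter (fun c => ∃ (X Y Z : Finset (Fin n))
        (z z' b b' : Fin n → Bool), Adm m X Y Z z z' b b' ∧ Str c w X Y Z z z' b b')) := by
    intro c hc
    obtain ⟨m, hm, hmn, h2⟩ := (mem_filter.1 hc).2
    exact mem_biUnion.2 ⟨m, mem_filter.2 ⟨mem_range.2 (by omega), hm⟩,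
      mem_filter.2 ⟨mem_univ _, h2⟩⟩
  have h2 := (card_le_card hsub).trans card_biUnion_le
  obtain ⟨R, hR⟩ : ∃ R, R = ((univ : Finset (Coef n → Bool)).filter (fun c => ∃ m, m₀ ≤ m ∧ m ≤ n ∧
      ∃ (X Y Z : Finset (Fin n)) (z z' b b' : Fin n → Bool),
        Adm m X Y Z z z' b b' ∧ Str c w X Y Z z z' b b')).card := ⟨_, rfl⟩
  rw [← hR] at h2 ⊢
  have h3 : R * 2 ^ (2 * n + 2) ≤ (n + 1) * 2 ^ Fintype.card (Coef n) := by
    calc R * 2 ^ (2 * n + 2) ≤ _ := Nat.mul_le_mul_right _ h2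
      _ = ∑ m ∈ (range (n + 1)).filter (fun m => m₀ ≤ m),
          ((univ : Finset (Coef n → Bool)).filter (fun c => ∃ (X Y Z : Finset (Fin n))
        (z z' b b' : Fin n → Bool), Adm m X Y Z z z' b b' ∧ Str c w X Y Z z z' b b')).card *
          2 ^ (2 * n + 2) := sum_mul _ _ _
      _ ≤ ∑ _m ∈ (range (n + 1)).filter (fun m => m₀ ≤ m), 2 ^ Fintype.card (Coef n) := by
          refine sum_le_sum (fun m hm => ?_)
          obtain ⟨hm1, hm2⟩ := mem_filter.1 hm
          exact h1 m hm2 (by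
            have := mem_range.1 hm1
            omega)
      _ = ((range (n + 1)).filter (fun m => m₀ ≤ m)).card * 2 ^ Fintype.card (Coef n) := by
          rw [sum_const, smul_eq_mul]
      _ ≤ (n + 1) * 2 ^ Fintype.card (Coef n) := by
          refine Nat.mul_le_mul_right _ ?_
          calc _ ≤ (range (n + 1)).card := card_filter_le _ _
            _ = n + 1 := card_range _
  have h4 : n + 1 ≤ 2 ^ n := Nat.lt_two_pow_self
  have h5 : 4 * R * 2 ^ (2 * n) ≤ 2 ^ Fintype.card (Coef n) * 2 ^ (2 * n) := by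
    calc 4 * R * 2 ^ (2 * n) = R * 2 ^ (2 * n + 2) := by
          rw [pow_add]
          ring
      _ ≤ (n + 1) * 2 ^ Fintype.card (Coef n) := h3
      _ ≤ 2 ^ n * 2 ^ Fintype.card (Coef n) := Nat.mul_le_mul_right _ h4
      _ ≤ 2 ^ (2 * n) * 2 ^ Fintype.card (Coef n) :=
          Nat.mul_le_mul_right _ (Nat.pow_le_pow_right (by norm_num) (by omega))
      _ = _ := Nat.mul_comm _ _
  exact Nat.le_of_mul_le_mul_right h5 (by positivity)

end DX

end SRBP
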