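import Pool.Agent.Lib.MP_9dcf40_lc.DTR.PartX
import Pool.Agent.Lib.MP_9dcf40_lc.DT.DisQ
import Pool.Agent.Lib.MP_9dcf40_lc.RD.Defs

/-!
# Theorem DTX (MP_9dcf40_lc): mixed differences of quartic polynomials
-/

namespace SRBP

open Finset

namespace DX

variable {n : ℕ}

/-- The sign. -/
noncomputable def e (u : ZMod 2) : ℝ := if u = 1 then -1 else 1

theorem z01 : ∀ u : ZMod 2, u = 0 ∨ u = 1 := by decide

theorem e_zero : e 0 = 1 := by
  unfold e
  rw [if_neg (by decide)]

theorem e_one : e 1 = -1 := by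
  unfold e
  rw [if_pos rfl]

theorem e_add (u v : ZMod 2) : e (u + v) = e u * e v := by
  rcases z01 u with rfl | rfl <;> rcases z01 v with rfl | rfl
  · rw [zero_add, e_zero]
    norm_num
  · rw [zero_add, e_zero, e_one]
    norm_num
  · rw [add_zero, e_zero, e_one]
    norm_num
  · rw [show (1 : ZMod 2) + 1 = 0 by decide, e_zero, e_one]
    norm_num

theorem e_abs (u : ZMod 2) : |e u| ≤ 1 := by
  rcases z01 u with rfl | rfl
  · rw [e_zero]
    norm_num
  · rw [e_one]
    norm_num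

theorem e_le (u : ZMod 2) : e u ≤ 1 := (abs_le.1 (e_abs u)).2

theorem sgq_e (c : Coef n → Bool) (y : Fin n → Bool) : RBP.sgq c y = e (quartic c y) := rfl

/-- The monomial of a set. -/
def mS (S : Finset (Fin n)) (y : Fin n → Bool) : ZMod 2 := ∏ i ∈ S, (if y i then 1 else 0)

theorem mS_congr {S : Finset (Fin n)} {y y' : Fin n → Bool} (h : ∀ v ∈ S, y v = y' v) :
    mS S y = mS S y' := by
  unfold mS
  exact prod_congr rfl (fun v hv => by rw [h v hv])

theorem mS_glue (S X : Finset (Fin n)) (x r : Fin n → Bool) :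
    mS S (glue X x r) = mS (S ∩ X) x * mS (S \ X) r := by
  unfold mS
  rw [← prod_inter_mul_prod_sdiff S X]
  congr 1
  · refine prod_congr rfl (fun v hv => ?_)
    unfold glue
    rw [if_pos (mem_inter.1 hv).2]
  · refine prod_congr rfl (fun v hv => ?_)
    unfold glue
    rw [if_neg (mem_sdiff.1 hv).2]

/-- The difference of a monomial. -/
def D (S : Finset (Fin n)) (y y' : Fin n → Bool) : ZMod 2 := mS S y + mS S y'

theorem D_empty (y y' : Fin n → Bool) : D ∅ y y' = 0 := by
  unfold D mS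
  rw [prod_empty, prod_empty]
  decide

theorem D_ne {S : Finset (Fin n)} {y y' : Fin n → Bool} (h : D S y y' ≠ 0) : 1 ≤ S.card := by
  rw [Nat.one_le_iff_ne_zero, Ne, card_eq_zero]
  rintro rfl
  exact h (D_empty y y')

/-- The coefficient. -/
def cf (c : Coef n → Bool) (C : Coef n) : ZMod 2 := if c C then 1 else 0

theorem quartic_mS (c : Coef n → Bool) (y : Fin n → Bool) :
    quartic c y = ∑ C : Coef n, cf c C * mS C.1 y := rfl

/-- The parts of a set. -/
def pY (X Y : Finset (Fin n)) (S : Finset (Fin n)) : Finset (Fin n) := (S \ X) ∩ Y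
def pZ (X Y Z : Finset (Fin n)) (S : Finset (Fin n)) : Finset (Fin n) := ((S \ X) \ Y) ∩ Z
def pR (X Y Z : Finset (Fin n)) (S : Finset (Fin n)) : Finset (Fin n) := ((S \ X) \ Y) \ Z

theorem card_parts (X Y Z S : Finset (Fin n)) :
    (S ∩ X).card + (pY X Y S).card + (pZ X Y Z S).card + (pR X Y Z S).card = S.card := by
  unfold pY pZ pR
  have h1 := card_inter_add_card_sdiff S X
  have h2 := card_inter_add_card_sdiff (S \ X) Y
  have h3 := card_inter_add_card_sdiff ((S \ X) \ Y) Z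
  omega

/-- The point with the given values on the four blocks. -/
def P (X Y Z : Finset (Fin n)) (x y z b : Fin n → Bool) : Fin n → Bool :=
  glue X x (glue Y y (glue Z z b))

theorem mS_P (X Y Z S : Finset (Fin n)) (x y z b : Fin n → Bool) :
    mS S (P X Y Z x y z b) = mS (S ∩ X) x * (mS (pY X Y S) y * (mS (pZ X Y Z S) z * mS (pR X Y Z S) b)) := by
  unfold P pY pZ pR
  rw [mS_glue, mS_glue, mS_glue]

/-- The weight of a set. -/
def wt3 (X Y Z S : Finset (Fin n)) (y y' z z' b b' : Fin n → Bool) : ZMod 2 :=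
  D (pY X Y S) y y' * (D (pZ X Y Z S) z z' * D (pR X Y Z S) b b')

/-- The third mixed difference. -/
def F2 (c : Coef n → Bool) (X Y Z : Finset (Fin n)) (x y y' z z' b b' : Fin n → Bool) : ZMod 2 :=
  ∑ C : Coef n, cf c C * (mS (C.1 ∩ X) x * wt3 X Y Z C.1 y y' z z' b b')

theorem corners (c : Coef n → Bool) (X Y Z : Finset (Fin n)) (x y y' z z' b b' : Fin n → Bool) :
    ((quartic c (P X Y Z x y z b) + quartic c (P X Y Z x y z b')) +
      (quartic c (P X Y Z x y z' b) + quartic c (P X Y Z x y z' b'))) +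
    ((quartic c (P X Y Z x y' z b) + quartic c (P X Y Z x y' z b')) +
      (quartic c (P X Y Z x y' z' b) + quartic c (P X Y Z x y' z' b'))) =
    F2 c X Y Z x y y' z z' b b' := by
  unfold F2 wt3 D
  simp only [quartic_mS, mS_P, ← sum_add_distrib]
  refine sum_congr rfl (fun C _ => ?_)
  ring

/-- The derivative in the direction `i`. -/
def L (c : Coef n → Bool) (X Y Z : Finset (Fin n)) (i : Fin n) (y y' z z' b b' : Fin n → Bool) : ZMod 2 :=
  ∑ C : Coef n, if C.1 ∩ X = {i} then cf c C * wt3 X Y Z C.1 y y' z z' b b' else 0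

theorem wt3_card {X Y Z S : Finset (Fin n)} {y y' z z' b b' : Fin n → Bool}
    (h : wt3 X Y Z S y y' z z' b b' ≠ 0) :
    1 ≤ (pY X Y S).card ∧ 1 ≤ (pZ X Y Z S).card ∧ 1 ≤ (pR X Y Z S).card := by
  unfold wt3 at h
  exact ⟨D_ne (left_ne_zero_of_mul h), D_ne (left_ne_zero_of_mul (right_ne_zero_of_mul h)),
    D_ne (right_ne_zero_of_mul (right_ne_zero_of_mul h))⟩

/-- Flip a coordinate. -/
def fl (i : Fin n) (x : Fin n → Bool) : Fin n → Bool := Function.update x i (!x i)

theorem fl_fl (i : Fin n) (x : Fin n → Bool) : fl i (fl i x) = x := by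
  funext v
  unfold fl
  by_cases hv : v = i
  · subst hv
    simp
  · simp [Function.update_of_ne hv]

theorem flip (c : Coef n → Bool) (X Y Z : Finset (Fin n)) (i : Fin n)
    (x y y' z z' b b' : Fin n → Bool) :
    F2 c X Y Z (fl i x) y y' z z' b b' = F2 c X Y Z x y y' z z' b b' +
      L c X Y Z i y y' z z' b b' := by
  unfold F2 L
  rw [← sum_add_distrib]
  refine sum_congr rfl (fun C _ => ?_)
  by_cases hw : wt3 X Y Z C.1 y y' z z' b b' = 0
  · rw [hw]
    simp
  · have h1 := wt3_card hw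
    have h2 := card_parts X Y Z C.1
    have h3 := C.2
    have h4 : (C.1 ∩ X).card ≤ 1 := by omega
    by_cases hC : C.1 ∩ X = {i}
    · rw [if_pos hC, hC]
      unfold mS
      rw [prod_singleton, prod_singleton]
      have h5 : fl i x i = !x i := by
        unfold fl
        rw [Function.update_self]
      rw [h5]
      cases x i
      · simp
      · simp
        rw [← mul_add]
        have : ∀ u : ZMod 2, u + u = 0 := by decide
        rw [this, mul_zero]
    · rw [if_neg hC, add_zero]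
      congr 2
      refine mS_congr (fun v hv => ?_)
      have h5 : v ≠ i := by
        rintro rfl
        apply hC
        exact (eq_singleton_iff_unique_mem.2 ⟨hv, fun u hu => card_le_one.1 h4 u hu v hv⟩)
      unfold fl
      rw [Function.update_of_ne h5]

/-- The sum over `x`. -/
theorem sum_x (c : Coef n → Bool) (X Y Z : Finset (Fin n)) (y y' z z' b b' : Fin n → Bool)
    [Decidable (∀ i ∈ X, L c X Y Z i y y' z z' b b' = 0)] :
    ∑ x : Fin n → Bool, e (F2 c X Y Z x y y' z z' b b') ≤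
      (2 : ℝ) ^ n * (if ∀ i ∈ X, L c X Y Z i y y' z z' b b' = 0 then 1 else 0) := by
  split_ifs with h
  · calc ∑ x : Fin n → Bool, e (F2 c X Y Z x y y' z z' b b') ≤ ∑ _x : Fin n → Bool, (1 : ℝ) :=
          sum_le_sum (fun x _ => e_le _)
      _ = _ := by
          rw [sum_const, card_univ, Fintype.card_fun, Fintype.card_bool, Fintype.card_fin,
            nsmul_eq_mul]
          push_cast
          rfl
  · push Not at h
    obtain ⟨i, _, hi⟩ := h
    have hi1 : L c X Y Z i y y' z z' b b' = 1 := (z01 _).resolve_left hi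
    have h1 : ∑ x : Fin n → Bool, e (F2 c X Y Z x y y' z z' b b') =
        ∑ x : Fin n → Bool, e (F2 c X Y Z (fl i x) y y' z z' b b') := by
      refine (Equiv.sum_comp (Function.Involutive.toPerm (fl i) (fl_fl i))
        (fun x => e (F2 c X Y Z x y y' z z' b b'))).symm
    have h2 : ∑ x : Fin n → Bool, e (F2 c X Y Z (fl i x) y y' z z' b b') =
        -∑ x : Fin n → Bool, e (F2 c X Y Z x y y' z z' b b') := by
      rw [← sum_neg_distrib]
      refine sum_congr rfl (fun x _ => ?_)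
      rw [flip, hi1, e_add, e_one]
      ring
    have h3 : ∑ x : Fin n → Bool, e (F2 c X Y Z x y y' z z' b b') = 0 := by linarith
    rw [h3, mul_zero]

/-- Cauchy-Schwarz. -/
theorem cs {α β : Type} [Fintype α] [Fintype β] (F : α → β → ℝ) :
    (∑ a, ∑ b, F a b) ^ 2 ≤ Fintype.card α * ∑ b, ∑ b', ∑ a, F a b * F a b' := by
  have h1 := sq_sum_le_card_mul_sum_sq (s := (univ : Finset α)) (f := fun a => ∑ b, F a b)
  rw [card_univ] at h1
  refine h1.trans (le_of_eq ?_)
  congr 1
  have h2 : ∀ a, (∑ b, F a b) ^ 2 = ∑ b, ∑ b', F a b * F a b' := by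
    intro a
    rw [sq, sum_mul_sum]
  rw [sum_congr rfl (fun a _ => h2 a), sum_comm]
  refine sum_congr rfl (fun b _ => ?_)
  rw [sum_comm]

/-- The sum of the products. -/
noncomputable def AA (c : Coef n → Bool) (X Y Z : Finset (Fin n)) (b b' : Fin n → Bool) : ℝ :=
  ∑ x : Fin n → Bool, ∑ y : Fin n → Bool, ∑ z : Fin n → Bool,
    e (quartic c (P X Y Z x y z b) + quartic c (P X Y Z x y z b'))

open scoped Classical in
/-- The fourth power. -/
theorem AA_four (c : Coef n → Bool) (X Y Z : Finset (Fin n)) (b b' : Fin n → Bool) :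
    AA c X Y Z b b' ^ 4 ≤ (2 : ℝ) ^ (8 * n) *
      ∑ z : Fin n → Bool, ∑ z' : Fin n → Bool, ∑ y : Fin n → Bool, ∑ y' : Fin n → Bool,
        (if ∀ i ∈ X, L c X Y Z i y y' z z' b b' = 0 then (1 : ℝ) else 0) := by
  obtain ⟨N, hN⟩ : ∃ N : ℝ, N = 2 ^ n := ⟨_, rfl⟩
  have hN0 : 0 < N := by rw [hN]; positivity
  have hcard : (Fintype.card (Fin n → Bool) : ℝ) = N := by
    rw [Fintype.card_fun, Fintype.card_bool, Fintype.card_fin, hN]
    push_cast
    rfl
  let f0 : (Fin n → Bool) → (Fin n → Bool) → (Fin n → Bool) → ZMod 2 := fun x y z =>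
    quartic c (P X Y Z x y z b) + quartic c (P X Y Z x y z b')
  let B : (Fin n → Bool) → (Fin n → Bool) → ℝ := fun z z' =>
    ∑ x : Fin n → Bool, ∑ y : Fin n → Bool, e (f0 x y z + f0 x y z')
  have h1 : AA c X Y Z b b' ^ 2 ≤ N ^ 2 * ∑ z, ∑ z', B z z' := by
    have h2 := cs (α := (Fin n → Bool) × (Fin n → Bool)) (β := Fin n → Bool)
      (fun p z => e (f0 p.1 p.2 z))
    have h3 : ∑ p : (Fin n → Bool) × (Fin n → Bool), ∑ z, e (f0 p.1 p.2 z) = AA c X Y Z b b' := by
      rw [Fintype.sum_prod_type]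
      rfl
    rw [h3, Fintype.card_prod] at h2
    push_cast at h2
    rw [hcard] at h2
    refine h2.trans (le_of_eq ?_)
    rw [← sq]
    congr 1
    refine sum_congr rfl (fun z _ => sum_congr rfl (fun z' _ => ?_))
    rw [Fintype.sum_prod_type]
    refine sum_congr rfl (fun x _ => sum_congr rfl (fun y _ => ?_))
    rw [← e_add]
  have h2 : (∑ z, ∑ z', B z z') ^ 2 ≤ N ^ 2 * ∑ z, ∑ z', B z z' ^ 2 := by
    have h3 := sq_sum_le_card_mul_sum_sq (s := (univ : Finset ((Fin n → Bool) × (Fin n → Bool))))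
      (f := fun p => B p.1 p.2)
    rw [card_univ, Fintype.card_prod, Fintype.sum_prod_type, Fintype.sum_prod_type] at h3
    push_cast at h3
    rw [hcard, ← sq] at h3
    exact h3
  have h3 : ∀ z z', B z z' ^ 2 ≤ N * ∑ y, ∑ y', (N *
      (if ∀ i ∈ X, L c X Y Z i y y' z z' b b' = 0 then (1 : ℝ) else 0)) := by
    intro z z'
    have h4 := cs (α := Fin n → Bool) (β := Fin n → Bool) (fun x y => e (f0 x y z + f0 x y z'))
    rw [hcard] at h4
    refine h4.trans (mul_le_mul_of_nonneg_left ?_ hN0.le)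
    refine sum_le_sum (fun y _ => sum_le_sum (fun y' _ => ?_))
    have h5 := sum_x c X Y Z y y' z z' b b'
    rw [← hN] at h5
    refine le_trans (le_of_eq ?_) h5
    refine sum_congr rfl (fun x _ => ?_)
    rw [← e_add, ← corners]
  have h4 : 0 ≤ ∑ z, ∑ z', B z z' := by
    by_contra hcon
    have h5 : N ^ 2 * ∑ z, ∑ z', B z z' < 0 := mul_neg_of_pos_of_neg (by positivity) (not_le.1 hcon)
    have h6 := sq_nonneg (AA c X Y Z b b')
    linarith
  obtain ⟨K, hK⟩ : ∃ K : ℝ, K = ∑ z : Fin n → Bool, ∑ z' : Fin n → Bool, ∑ y : Fin n → Bool,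
      ∑ y' : Fin n → Bool, (if ∀ i ∈ X, L c X Y Z i y y' z z' b b' = 0 then (1 : ℝ) else 0) :=
    ⟨_, rfl⟩
  rw [← hK]
  have h5 : ∑ z, ∑ z', B z z' ^ 2 ≤ N ^ 2 * K := by
    calc ∑ z, ∑ z', B z z' ^ 2 ≤ ∑ z, ∑ z', (N * ∑ y, ∑ y', (N *
          (if ∀ i ∈ X, L c X Y Z i y y' z z' b b' = 0 then (1 : ℝ) else 0))) :=
          sum_le_sum (fun z _ => sum_le_sum (fun z' _ => h3 z z'))
      _ = N ^ 2 * K := by
          rw [hK]
          simp only [← mul_sum]
          ring
  calc AA c X Y Z b b' ^ 4 = (AA c X Y Z b b' ^ 2) ^ 2 := by ring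
    _ ≤ (N ^ 2 * ∑ z, ∑ z', B z z') ^ 2 := pow_le_pow_left₀ (sq_nonneg _) h1 2
    _ = N ^ 4 * (∑ z, ∑ z', B z z') ^ 2 := by ring
    _ ≤ N ^ 4 * (N ^ 2 * (N ^ 2 * K)) :=
        mul_le_mul_of_nonneg_left (h2.trans (mul_le_mul_of_nonneg_left h5 (by positivity)))
          (by positivity)
    _ = 2 ^ (8 * n) * K := by
        rw [hN]
        ring

end DX

end SRBP
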