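import Pool.Agent.Lib.MP_9dcf40_lc.DTR.TopH
import Pool.Agent.Lib.MP_9dcf40_lc.RD.TopH

/-!
# Theorem DTR (MP_9dcf40_lc): the main statement in the form of `RD/TopH.lean`
-/

namespace SRBP

open Finset

theorem disc_of_good {n : ℕ} {c : Coef n → Bool} (h : RBP.Good n c) :
    Disc (RBP.sgq c) (Real.exp ((n : ℝ) ^ (3 / 4 : ℝ))) (3 * (n : ℝ) ^ (-(1 / 16) : ℝ)) := by
  intro U A B hA hB hAU hBU
  have h1 := h ⌈Real.exp ((n : ℝ) ^ (3 / 4 : ℝ))⌉₊ (Nat.le_ceil _) U A B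
    (Nat.ceil_le.2 hA) (Nat.ceil_le.2 hB) hAU hBU
  have h2 : ∑ a ∈ A, ∑ b ∈ B, RBP.sgq c (glue U a b) =
      -∑ a ∈ A, ∑ b ∈ B, chi (fun y => quartic c y = 1) (glue U a b) := by
    simp only [sgq_eq, sum_neg_distrib]
  rw [h2, abs_neg]
  refine h1.trans (le_of_eq ?_)
  ring

theorem topG : RBP.S_TopH := by
  obtain ⟨A, N, hA, h⟩ := tTopH
  exact ⟨A, N, hA, fun n hn c hc k h' hk hh hkn P hP b =>
    h n hn c (disc_of_good hc) k h' hk hh hkn P hP b⟩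

end SRBP
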