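import Pool.Agent.Lib.MP_9dcf40_lc.DTR.CoreH
import Pool.Agent.Lib.MP_9dcf40_lc.DTR.TopB
import Pool.Agent.Lib.MP_9dcf40_lc.DT.DisC
import Pool.Agent.Lib.MP_9dcf40_lc.RD.Top

/-!
# Theorem DTR (MP_9dcf40_lc): the main statement with a separate advantage `1/h`, for every quartic polynomial
with small discrepancy
-/

namespace SRBP

open Finset

namespace TopH

theorem num (k h a n : ℕ) (hk : 2 ≤ k) (ha : 2 ≤ a) (hha : h ≤ a) (hh : 0 < h)
    (hn : (a : ℝ) ^ (400 * k) ≤ n) :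
    (n : ℝ) ^ (3 / 4 : ℝ) ≤ n / (a : ℝ) ^ (80 * k) / 1000 ∧
    3 * (n : ℝ) ^ (-(1 / 16) : ℝ) ≤ 1 / (4 * h) ∧
    ((a ^ (80 * k + 14) : ℕ) : ℝ) * (n / (a : ℝ) ^ (400 * k)) ≤ n / (a : ℝ) ^ (80 * k) / 1000 ∧
    (n : ℝ) / (a : ℝ) ^ (400 * k) ≤ n / (a : ℝ) ^ (80 * k) / 100 := by
  obtain ⟨K, hKdef⟩ : ∃ K : ℝ, K = a := ⟨_, rfl⟩
  have hKc : ((a ^ (80 * k + 14) : ℕ) : ℝ) = K ^ (80 * k + 14) := by
    rw [hKdef]
    push_cast
    rfl
  rw [hKc, ← hKdef]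
  rw [← hKdef] at hn
  have hK : 2 ≤ K := by
    rw [hKdef]
    exact_mod_cast ha
  have hhK : (h : ℝ) ≤ K := by
    rw [hKdef]
    exact_mod_cast hha
  have hh0 : (0 : ℝ) < h := by exact_mod_cast hh
  have hK1 : 1 ≤ K := by linarith
  have hK0 : 0 < K := by linarith
  have hn0 : (0 : ℝ) < n := lt_of_lt_of_le (by positivity) hn
  have h10 : (1000 : ℝ) ≤ K ^ 10 := by
    calc (1000 : ℝ) ≤ 2 ^ 10 := by norm_num
      _ ≤ _ := pow_le_pow_left₀ (by norm_num) hK 10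
  refine ⟨?_, ?_, ?_, ?_⟩
  · -- `(1000 K^(80k))^4 ≤ n`
    have h1 : (1000 * K ^ (80 * k)) ^ 4 ≤ n := by
      calc (1000 * K ^ (80 * k)) ^ 4 ≤ (K ^ 10 * K ^ (80 * k)) ^ 4 := by gcongr
        _ = K ^ ((10 + 80 * k) * 4) := by rw [← pow_add, ← pow_mul]
        _ ≤ K ^ (400 * k) := pow_le_pow_right₀ hK1 (by omega)
        _ ≤ n := hn
    have h2 : 1000 * K ^ (80 * k) ≤ (n : ℝ) ^ (1 / 4 : ℝ) := by
      have h3 := Real.rpow_le_rpow (by positivity) h1 (show (0 : ℝ) ≤ 1 / 4 by norm_num)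
      rwa [← Real.rpow_natCast, ← Real.rpow_mul (by positivity),
        show ((4 : ℕ) : ℝ) * (1 / 4 : ℝ) = 1 by norm_num, Real.rpow_one] at h3
    rw [div_div, le_div_iff₀ (by positivity), mul_comm (K ^ (80 * k))]
    calc (n : ℝ) ^ (3 / 4 : ℝ) * (1000 * K ^ (80 * k)) ≤
          (n : ℝ) ^ (3 / 4 : ℝ) * (n : ℝ) ^ (1 / 4 : ℝ) :=
          mul_le_mul_of_nonneg_left h2 (by positivity)
      _ = n := by
          rw [← Real.rpow_add hn0]
          norm_num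
  · have h1 : (12 * K) ^ 16 ≤ n := by
      calc (12 * K) ^ 16 ≤ (K ^ 10 * K) ^ 16 := by
            gcongr
            linarith
        _ = K ^ 176 := by ring
        _ ≤ K ^ (400 * k) := pow_le_pow_right₀ hK1 (by omega)
        _ ≤ n := hn
    have h2 : 12 * K ≤ (n : ℝ) ^ (1 / 16 : ℝ) := by
      have h3 := Real.rpow_le_rpow (by positivity) h1 (show (0 : ℝ) ≤ 1 / 16 by norm_num)
      rwa [← Real.rpow_natCast, ← Real.rpow_mul (by positivity),
        show ((16 : ℕ) : ℝ) * (1 / 16 : ℝ) = 1 by norm_num, Real.rpow_one] at h3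
    rw [Real.rpow_neg hn0.le, ← div_eq_mul_inv, div_le_div_iff₀ (by positivity) (by positivity)]
    linarith
  · rw [div_div, mul_div_assoc', div_le_div_iff₀ (by positivity) (by positivity)]
    calc K ^ (80 * k + 14) * n * (K ^ (80 * k) * 1000) ≤
          K ^ (80 * k + 14) * n * (K ^ (80 * k) * K ^ 10) := by gcongr
      _ = n * K ^ (80 * k + 14 + (80 * k + 10)) := by ring
      _ ≤ n * K ^ (400 * k) := mul_le_mul_of_nonneg_left
          (pow_le_pow_right₀ hK1 (by omega)) hn0.le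
  · rw [div_div]
    refine div_le_div_of_nonneg_left hn0.le (by positivity) ?_
    calc K ^ (80 * k) * 100 ≤ K ^ (80 * k) * K ^ 10 := by
          gcongr
          linarith
      _ = K ^ (80 * k + 10) := by ring
      _ ≤ _ := pow_le_pow_right₀ hK1 (by omega)

end TopH

/-- TOP, separate advantage: on each output value the program is nearly balanced. -/
def S_TopH : Prop := ∃ A N : ℕ, 1 ≤ A ∧ ∀ n ≥ N, ∀ c : Coef n → Bool,
  Disc (RBP.sgq c) (Real.exp ((n : ℝ) ^ (3 / 4 : ℝ))) (3 * (n : ℝ) ^ (-(1 / 16) : ℝ)) →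
  ∀ k h : ℕ, 2 ≤ k → 2 ≤ h → ((h * k : ℕ) : ℝ) ^ (A * k) ≤ n → ∀ P : RBP.BP (Fin n),
  (Fintype.card P.V : ℝ) < Real.exp (n / ((h * k : ℕ) : ℝ) ^ (A * k)) → ∀ b : Bool,
  |∑ y ∈ RBP.ShB P (k * n) b, RBP.sgq c y| ≤
    (RBP.ShB P (k * n) b).card / h + 2 ^ n * Real.exp (-(n / ((h * k : ℕ) : ℝ) ^ (A * k)))

open TopB TopH RBP in
theorem tTopH : S_TopH := by
  classical
  refine ⟨400, 0, by norm_num, fun n _ c hc k h hk hh hkn P hP b => ?_⟩
  obtain ⟨a, haa⟩ : ∃ a, a = h * k := ⟨_, rfl⟩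
  rw [← haa] at hkn hP ⊢
  have ha2 : 2 ≤ a := by nlinarith
  have hha : h ≤ a := by nlinarith
  obtain ⟨h1, h2, h3, h4⟩ := num k h a n hk ha2 hha (by omega) hkn
  have hK : (2 : ℝ) ≤ a := by exact_mod_cast ha2
  have hH : (2 : ℝ) ≤ h := by exact_mod_cast hh
  have hn0 : (0 : ℝ) < n := lt_of_lt_of_le (by positivity) hkn
  have hr : 1 ≤ a ^ (80 * k + 14) := Nat.one_le_pow _ _ (by omega)
  obtain ⟨w, sg, dm, hl, hs, hcl⟩ := tProgB n (a ^ (80 * k + 14)) (k * n / a ^ (80 * k + 14) + 1)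
    (k * n) P hr (Nat.lt_mul_div_succ _ hr).le
  have hι : (Fintype.card (Fin (a ^ (80 * k + 14)) → P.V) : ℝ) ≤
      Real.exp (n / (a : ℝ) ^ (80 * k) / 1000) := by
    rw [Fintype.card_fun, Fintype.card_fin]
    push_cast
    calc (Fintype.card P.V : ℝ) ^ (a ^ (80 * k + 14)) ≤
          Real.exp (n / (a : ℝ) ^ (400 * k)) ^ (a ^ (80 * k + 14)) :=
          pow_le_pow_left₀ (Nat.cast_nonneg _) hP.le _
      _ = Real.exp (((a ^ (80 * k + 14) : ℕ) : ℝ) * (n / (a : ℝ) ^ (400 * k))) :=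
          (Real.exp_nat_mul _ _).symm
      _ ≤ _ := Real.exp_le_exp.2 h3
  have key := coreH k h a n hk hh haa hkn (ShB P (k * n) b) w sg dm (fun x _ j => hl x j)
    (fun x _ => hs x) (fun u => by convert hcl b u) hι (sgq c) (fun y => by
      unfold sgq
      split_ifs <;> norm_num) (1 / (4 * h)) (by positivity)
    (disc_mono hc (Real.exp_le_exp.2 h1) h2)
  refine key.trans (add_le_add ?_ ?_)
  · have h5 : 1 / (4 * (h : ℝ)) + 1 / (4 * h) ≤ 1 / h := by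
      have : 1 / (4 * (h : ℝ)) + 1 / (4 * h) = 1 / h / 2 := by
        field_simp
        norm_num
      rw [this]
      have h6 : (0 : ℝ) ≤ 1 / h := by positivity
      linarith
    calc (1 / (4 * (h : ℝ)) + 1 / (4 * h)) * ((ShB P (k * n) b).card : ℝ) ≤
          1 / h * ((ShB P (k * n) b).card : ℝ) := mul_le_mul_of_nonneg_right h5 (Nat.cast_nonneg _)
      _ = _ := by ring
  · exact mul_le_mul_of_nonneg_left (Real.exp_le_exp.2 (neg_le_neg h4)) (by positivity)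

end SRBP
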