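import Pool.Agent.Lib.MP_9dcf40_lc.DTR.CoreX
import Pool.Agent.Lib.MP_9dcf40_lc.DTR.DiscXN
import Pool.Agent.Lib.MP_9dcf40_lc.DT.DisC
import Pool.Agent.Lib.MP_9dcf40_lc.DU.SpecX

/-!
# Theorem DTX (MP_9dcf40_lc): the main statement, exponentially small advantage
-/

namespace SRBP

open Finset

namespace TopX

theorem num (k a n : ℕ) (hk : 2 ≤ k) (ha : 1 ≤ a) (hn : a * (k : ℝ) ^ (1000 * k) ≤ n) :
    (n : ℝ) ^ (7 / 8 : ℝ) ≤ n / (k : ℝ) ^ (120 * k) / 16 ∧
    ((a * k ^ (240 * k + 100) + 1 : ℕ) : ℝ) * (n / (a * (k : ℝ) ^ (1000 * k))) ≤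
      n / (k : ℝ) ^ (120 * k) / 100000 ∧
    (n : ℝ) / (k : ℝ) ^ (1000 * k) ≤ n / (k : ℝ) ^ (120 * k) / 20000 := by
  obtain ⟨K, hKdef⟩ : ∃ K : ℝ, K = k := ⟨_, rfl⟩
  push_cast
  rw [← hKdef] at hn ⊢
  have hK : 2 ≤ K := by
    rw [hKdef]
    exact_mod_cast hk
  have haR : (1 : ℝ) ≤ a := by exact_mod_cast ha
  have ha0 : (0 : ℝ) < a := by linarith
  have hK1 : 1 ≤ K := by linarith
  have hK0 : 0 < K := by linarith
  have hKn : K ^ (1000 * k) ≤ n := by
    refine le_trans ?_ hn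
    exact le_mul_of_one_le_left (by positivity) haR
  have hn0 : (0 : ℝ) < n := lt_of_lt_of_le (by positivity) hKn
  refine ⟨?_, ?_, ?_⟩
  · have h1 : (16 * K ^ (120 * k)) ^ 8 ≤ n := by
      calc (16 * K ^ (120 * k)) ^ 8 = 2 ^ 32 * K ^ (120 * k * 8) := by
            rw [mul_pow, ← pow_mul]
            norm_num
        _ ≤ K ^ 32 * K ^ (120 * k * 8) := by gcongr
        _ = K ^ (32 + 120 * k * 8) := (pow_add _ _ _).symm
        _ ≤ K ^ (1000 * k) := pow_le_pow_right₀ hK1 (by omega)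
        _ ≤ n := hKn
    have h2 : 16 * K ^ (120 * k) ≤ (n : ℝ) ^ (1 / 8 : ℝ) := by
      have h3 := Real.rpow_le_rpow (by positivity) h1 (show (0 : ℝ) ≤ 1 / 8 by norm_num)
      rwa [← Real.rpow_natCast, ← Real.rpow_mul (by positivity),
        show ((8 : ℕ) : ℝ) * (1 / 8 : ℝ) = 1 by norm_num, Real.rpow_one] at h3
    rw [div_div, le_div_iff₀ (by positivity), mul_comm (K ^ (120 * k))]
    calc (n : ℝ) ^ (7 / 8 : ℝ) * (16 * K ^ (120 * k)) ≤
          (n : ℝ) ^ (7 / 8 : ℝ) * (n : ℝ) ^ (1 / 8 : ℝ) :=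
          mul_le_mul_of_nonneg_left h2 (by positivity)
      _ = n := by
          rw [← Real.rpow_add hn0]
          norm_num
  · have h1 : (a : ℝ) * K ^ (240 * k + 100) + 1 ≤ a * (2 * K ^ (240 * k + 100)) := by
      have h2 : 1 ≤ K ^ (240 * k + 100) := one_le_pow₀ hK1
      nlinarith
    have h18 : (200000 : ℝ) ≤ K ^ 18 := by
      calc (200000 : ℝ) ≤ 2 ^ 18 := by norm_num
        _ ≤ _ := pow_le_pow_left₀ (by norm_num) hK 18
    calc ((a : ℝ) * K ^ (240 * k + 100) + 1) * (n / (a * K ^ (1000 * k))) ≤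
          (a * (2 * K ^ (240 * k + 100))) * (n / (a * K ^ (1000 * k))) :=
          mul_le_mul_of_nonneg_right h1 (by positivity)
      _ = 2 * K ^ (240 * k + 100) * n / K ^ (1000 * k) := by
          field_simp
      _ ≤ n / K ^ (120 * k) / 100000 := by
          rw [div_div, div_le_div_iff₀ (by positivity) (by positivity)]
          calc 2 * K ^ (240 * k + 100) * n * (K ^ (120 * k) * 100000) =
                n * (K ^ (240 * k + 100) * K ^ (120 * k) * 200000) := by ring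
            _ ≤ n * (K ^ (240 * k + 100) * K ^ (120 * k) * K ^ 18) := by gcongr
            _ = n * K ^ (240 * k + 100 + 120 * k + 18) := by ring
            _ ≤ n * K ^ (1000 * k) := mul_le_mul_of_nonneg_left
                (pow_le_pow_right₀ hK1 (by omega)) hn0.le
  · rw [div_div]
    refine div_le_div_of_nonneg_left hn0.le (by positivity) ?_
    have h15 : (20000 : ℝ) ≤ K ^ 15 := by
      calc (20000 : ℝ) ≤ 2 ^ 15 := by norm_num
        _ ≤ _ := pow_le_pow_left₀ (by norm_num) hK 15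
    calc K ^ (120 * k) * 20000 ≤ K ^ (120 * k) * K ^ 15 :=
          mul_le_mul_of_nonneg_left h15 (by positivity)
      _ = K ^ (120 * k + 15) := (pow_add _ _ _).symm
      _ ≤ _ := pow_le_pow_right₀ hK1 (by omega)

end TopX

open TopX in
/-- TOPX for every good coefficient vector. -/
theorem topX_of (hP : S_ProgU) {n : ℕ} (hn : 10 ^ 8 ≤ n) {c : Coef n → Bool} (hc : DX.GX n c) :
    TopX 1000 n (fun y => quartic c y = 1) := by
  classical
  intro k a hk ha hkn P hU hV
  obtain ⟨h1, h2, h3⟩ := num k a n hk ha hkn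
  have hr : 1 ≤ a * k ^ (240 * k + 100) := Nat.mul_pos ha (Nat.pos_of_ne_zero (by positivity))
  obtain ⟨b, sg, dm, hl, hs, hcl⟩ := hP n (a * k ^ (240 * k + 100))
    (k * n / (a * k ^ (240 * k + 100)) + 1) (k * n) P hU hr (Nat.lt_mul_div_succ _ hr).le
  have hι : (Fintype.card (Fin (a * k ^ (240 * k + 100) + 1) → P.V) : ℝ) ≤
      Real.exp (n / (k : ℝ) ^ (120 * k) / 100000) := by
    rw [Fintype.card_fun, Fintype.card_fin]
    push_cast
    calc (Fintype.card P.V : ℝ) ^ (a * k ^ (240 * k + 100) + 1) ≤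
          Real.exp (n / (a * (k : ℝ) ^ (1000 * k))) ^ (a * k ^ (240 * k + 100) + 1) :=
          pow_le_pow_left₀ (Nat.cast_nonneg _) hV.le _
      _ = Real.exp (((a * k ^ (240 * k + 100) + 1 : ℕ) : ℝ) *
          (n / (a * (k : ℝ) ^ (1000 * k)))) := (Real.exp_nat_mul _ _).symm
      _ ≤ _ := Real.exp_le_exp.2 h2
  have key := coreX k a n hk ha hkn (ShU P (k * n)) b sg dm hl hs (fun u => by convert hcl u) hι
    (RBP.sgq c) (fun y => by
      unfold RBP.sgq
      split_ifs <;> norm_num) (fun s hs => DX.discX hn hc (h1.trans hs))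
  have h4 : ∑ y ∈ ShU P (k * n), chi (fun y => quartic c y = 1) y =
      -∑ y ∈ ShU P (k * n), RBP.sgq c y := by
    rw [← sum_neg_distrib]
    refine sum_congr rfl (fun y _ => ?_)
    rw [sgq_eq, neg_neg]
  rw [h4, abs_neg]
  refine key.trans (add_le_add le_rfl ?_)
  exact mul_le_mul_of_nonneg_left (Real.exp_le_exp.2 (neg_le_neg h3)) (by positivity)

/-- TOPX. -/
theorem topX (hP : S_ProgU) : S_TopX := by
  classical
  refine ⟨1000, 10 ^ 8, by norm_num, fun n hn => ?_⟩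
  obtain ⟨c, hc⟩ : ∃ c, DX.GX n c := by
    by_contra hcon
    push Not at hcon
    have h1 := DX.few_bad hn
    have h2 : (univ : Finset (Coef n → Bool)).filter (fun c => ¬ DX.GX n c) = univ :=
      filter_true_of_mem (fun c _ => hcon c)
    rw [h2, card_univ, Fintype.card_fun, Fintype.card_bool] at h1
    have h3 : 0 < 2 ^ Fintype.card (Coef n) := by positivity
    omega
  exact ⟨c, topX_of hP hn hc⟩

end SRBP
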